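import Mathlib

set_option autoImplicit false

namespace Pool.Agent.helper75.Burnside

/-- Burnside's theorem: an irreducible algebra of endomorphisms of a finite-dimensional space over
an algebraically closed field is the full endomorphism algebra. -/
theorem burnside {k V : Type*} [Field k] [IsAlgClosed k] [AddCommGroup V] [Module k V]
    [FiniteDimensional k V] [Nontrivial V] (A : Subalgebra k (Module.End k V))
    (h : ∀ W : Submodule k V, (∀ f ∈ A, ∀ v ∈ W, f v ∈ W) → W = ⊥ ∨ W = ⊤) : A = ⊤ := by
  classical
  haveI : IsScalarTower k A V := ⟨fun x y z => rfl⟩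
  haveI : IsSimpleModule A V := by
    refine (isSimpleModule_iff A V).2 { eq_bot_or_eq_top := ?_ }
    intro W
    rcases h (W.restrictScalars k) (fun f hf v hv => W.smul_mem (⟨f, hf⟩ : A) hv) with h1 | h1
    · left
      rw [Submodule.restrictScalars_eq_bot_iff] at h1
      exact h1
    · right
      rw [Submodule.restrictScalars_eq_top_iff] at h1
      exact h1
  rw [eq_top_iff]
  intro f _
  let F : Module.End (Module.End A V) V :=
    { toFun := f
      map_add' := f.map_add
      map_smul' := by
        intro φ v
        obtain ⟨t, ht⟩ := (IsSimpleModule.algebraMap_end_bijective_of_isAlgClosed (A := A)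
          (V := V) k).2 φ
        subst ht
        exact f.map_smul t v }
  obtain ⟨s, hs⟩ := (inferInstance : Module.Finite k V).fg_top
  obtain ⟨r, hr⟩ := jacobson_density F s
  have hfr : f = (r : Module.End k V) := by
    refine LinearMap.ext_on hs ?_
    intro v hv
    exact hr v hv
  rw [hfr]
  exact r.2

/-- matrix form of Burnside's theorem -/
theorem burnside_matrix {k κ : Type*} [Field k] [IsAlgClosed k] [Fintype κ] [DecidableEq κ]
    [Nonempty κ] (A : Subalgebra k (Matrix κ κ k))
    (h : ∀ W : Submodule k (κ → k), (∀ M ∈ A, ∀ v ∈ W, M.mulVec v ∈ W) → W = ⊥ ∨ W = ⊤) :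
    A = ⊤ := by
  have h1 : A.map (Matrix.toLinAlgEquiv' (R := k) (n := κ)).toAlgHom = ⊤ := by
    refine burnside _ ?_
    intro W hW
    refine h W ?_
    intro M hM v hv
    have := hW (Matrix.toLinAlgEquiv' M) ⟨M, hM, rfl⟩ v hv
    simpa using this
  rw [eq_top_iff]
  intro M _
  have h2 : Matrix.toLinAlgEquiv' M ∈ A.map (Matrix.toLinAlgEquiv' (R := k) (n := κ)).toAlgHom := by
    rw [h1]; trivial
  obtain ⟨M', hM', hMM'⟩ := h2
  have : M' = M := Matrix.toLinAlgEquiv'.injective hMM'
  rw [← this]; exact hM'

end Pool.Agent.helper75.Burnside
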