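import Mathlib
import Pool.Agent.helper97.GUE.Defs

set_option autoImplicit false
open scoped Matrix ComplexOrder

namespace Pool.Agent.helper75.RndBlock

open Pool.Agent.helper97.GUE

/-- RND from the condition of the frozen statement -/
theorem rnd_of_rank {κ ν : Type*} [Fintype κ] [DecidableEq κ] [Fintype ν]
    (a : ν → Matrix κ κ ℂ)
    (h : ∀ b : Matrix κ κ ℂ, b.PosSemidef → b.rank ≤ (∑ i, a i * b * (a i)ᴴ).rank) : RND a := by
  classical
  intro V
  obtain ⟨f, hf⟩ := LinearMap.exists_leftInverse_of_injective V.subtype V.ker_subtype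
  set C : Matrix κ κ ℂ := LinearMap.toMatrix' (V.subtype ∘ₗ f) with hC
  have hCrange : LinearMap.range C.mulVecLin = V := by
    rw [← Matrix.toLin'_apply', hC, Matrix.toLin'_toMatrix']
    apply le_antisymm
    · rintro _ ⟨x, rfl⟩
      exact (f x).2
    · intro v hv
      refine ⟨v, ?_⟩
      have h1 : f v = ⟨v, hv⟩ := by
        have := LinearMap.congr_fun hf ⟨v, hv⟩
        exact this
      simp [h1]
  have hb : (C * Cᴴ).rank = Module.finrank ℂ V := by
    rw [Matrix.rank_self_mul_conjTranspose, Matrix.rank, hCrange]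
  have h1 := h (C * Cᴴ) (Matrix.posSemidef_self_mul_conjTranspose C)
  rw [hb] at h1
  refine h1.trans ?_
  rw [Matrix.rank]
  refine Submodule.finrank_mono ?_
  rintro _ ⟨x, rfl⟩
  rw [Matrix.mulVecLin_apply, Matrix.sum_mulVec]
  refine Submodule.sum_mem _ fun i _ => ?_
  refine Submodule.mem_iSup_of_mem i ?_
  refine ⟨C.mulVec (Cᴴ.mulVec ((a i)ᴴ.mulVec x)), ?_, ?_⟩
  · rw [← hCrange]
    exact ⟨_, rfl⟩
  · rw [Matrix.toLin'_apply, Matrix.mulVec_mulVec, Matrix.mulVec_mulVec, Matrix.mulVec_mulVec,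
      Matrix.mul_assoc, Matrix.mul_assoc, Matrix.mul_assoc, Matrix.mul_assoc]

/-- a linear automorphism carrying a coordinate subspace onto a given subspace -/
lemma exists_equiv {κ : Type} [Fintype κ] (V : Submodule ℂ (κ → ℂ)) (d m : ℕ)
    (hd : Module.finrank ℂ V = d) (hm : Fintype.card κ = m) :
    ∃ Q : ((Fin d → ℂ) × (Fin (m - d) → ℂ)) ≃ₗ[ℂ] (κ → ℂ),
      ∀ x : Fin d → ℂ, ∀ y : Fin (m - d) → ℂ, Q (x, y) ∈ V ↔ y = 0 := by
  obtain ⟨V', hV'⟩ := V.exists_isCompl
  have h1 : Module.finrank ℂ V + Module.finrank ℂ V' = m := by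
    rw [Submodule.finrank_add_eq_of_isCompl hV', Module.finrank_fintype_fun_eq_card, hm]
  let e1 : (Fin d → ℂ) ≃ₗ[ℂ] V := LinearEquiv.ofFinrankEq _ _ (by
    rw [Module.finrank_fintype_fun_eq_card, Fintype.card_fin, hd])
  let e2 : (Fin (m - d) → ℂ) ≃ₗ[ℂ] V' := LinearEquiv.ofFinrankEq _ _ (by
    rw [Module.finrank_fintype_fun_eq_card, Fintype.card_fin]; omega)
  refine ⟨(e1.prodCongr e2).trans (V.prodEquivOfIsCompl V' hV'), ?_⟩
  intro x y
  have h2 : ((e1.prodCongr e2).trans (V.prodEquivOfIsCompl V' hV')) (x, y) =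
      (e1 x : κ → ℂ) + (e2 y : κ → ℂ) := by
    rw [LinearEquiv.trans_apply]
    exact Submodule.coe_prodEquivOfIsCompl' V V' hV' _
  rw [h2, Submodule.add_mem_iff_right _ (e1 x).2]
  constructor
  · intro h
    have h3 : (e2 y : κ → ℂ) ∈ V ⊓ V' := ⟨h, (e2 y).2⟩
    rw [hV'.inf_eq_bot, Submodule.mem_bot] at h3
    have h4 : e2 y = 0 := Subtype.ext h3
    exact (LinearEquiv.map_eq_zero_iff e2).1 h4
  · rintro rfl
    simp

theorem irr_or_block {κ ν : Type} [Fintype κ] [DecidableEq κ] [Fintype ν]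
    (a : ν → Matrix κ κ ℂ) (ha : RND a) :
    Irr a ∨ ∃ (κ₁ κ₂ : Type) (_ : Fintype κ₁) (_ : DecidableEq κ₁) (_ : Fintype κ₂)
      (_ : DecidableEq κ₂) (e : κ ≃ κ₁ ⊕ κ₂) (p q : Matrix κ κ ℂ)
      (a₁ : ν → Matrix κ₁ κ₁ ℂ) (b : ν → Matrix κ₁ κ₂ ℂ) (a₂ : ν → Matrix κ₂ κ₂ ℂ),
      IsUnit p.det ∧ IsUnit q.det ∧ Fintype.card κ₁ < Fintype.card κ ∧
      Fintype.card κ₂ < Fintype.card κ ∧ RND a₁ ∧ RND a₂ ∧
      ∀ i, (p * a i * q).reindex e e = Matrix.fromBlocks (a₁ i) (b i) 0 (a₂ i) := by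
  classical
  by_cases hirr : Irr a
  · exact Or.inl hirr
  right
  rw [Irr] at hirr
  push Not at hirr
  obtain ⟨V, hV0, hV1, hV2⟩ := hirr ha
  have hV3 := ha V
  set LV : Submodule ℂ (κ → ℂ) := ⨆ i, V.map (Matrix.toLin' (a i)) with hLV
  have hdim : Module.finrank ℂ LV = Module.finrank ℂ V := le_antisymm hV2 hV3
  set d := Module.finrank ℂ V with hd
  set m := Fintype.card κ with hm
  have hdpos : 0 < d := by
    rw [hd, Module.finrank_pos_iff]
    exact (Submodule.nontrivial_iff_ne_bot).2 hV0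
  have hdm : d < m := by
    have h1 := Submodule.finrank_lt hV1
    rw [Module.finrank_fintype_fun_eq_card, ← hd, ← hm] at h1
    exact h1
  obtain ⟨Q, hQ⟩ := exists_equiv V d m hd.symm hm.symm
  obtain ⟨P, hP⟩ := exists_equiv LV d m hdim hm.symm
  have e : κ ≃ Fin d ⊕ Fin (m - d) := Fintype.equivOfCardEq (by
    rw [Fintype.card_sum, Fintype.card_fin, Fintype.card_fin, ← hm]; omega)
  -- coordinates
  let c : (κ → ℂ) ≃ₗ[ℂ] ((Fin d → ℂ) × (Fin (m - d) → ℂ)) :=
    (LinearEquiv.funCongrLeft ℂ ℂ e.symm).trans (LinearEquiv.sumArrowLequivProdArrow _ _ ℂ ℂ)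
  have hc1 : ∀ v : κ → ℂ, (c v).1 = fun t => v (e.symm (Sum.inl t)) := fun v => rfl
  have hc2 : ∀ v : κ → ℂ, (c v).2 = fun t => v (e.symm (Sum.inr t)) := fun v => rfl
  let f : ν → ((Fin d → ℂ) × (Fin (m - d) → ℂ)) →ₗ[ℂ] ((Fin d → ℂ) × (Fin (m - d) → ℂ)) :=
    fun i => P.symm.toLinearMap ∘ₗ (Matrix.toLin' (a i)) ∘ₗ Q.toLinearMap
  have hf : ∀ i z, P (f i z) = (a i).mulVec (Q z) := by
    intro i z
    simp [f]
  have hf0 : ∀ i x, (f i (x, 0)).2 = 0 := by
    intro i x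
    have h1 : Q (x, 0) ∈ V := (hQ x 0).2 rfl
    have h2 : (a i).mulVec (Q (x, 0)) ∈ LV :=
      Submodule.mem_iSup_of_mem i ⟨Q (x, 0), h1, by simp⟩
    rw [← hf, ← Prod.mk.eta (p := f i (x, 0)), hP] at h2
    exact h2
  let A₁ : ν → (Fin d → ℂ) →ₗ[ℂ] (Fin d → ℂ) := fun i =>
    LinearMap.fst ℂ _ _ ∘ₗ f i ∘ₗ LinearMap.inl ℂ _ _
  let B₁ : ν → (Fin (m - d) → ℂ) →ₗ[ℂ] (Fin d → ℂ) := fun i =>
    LinearMap.fst ℂ _ _ ∘ₗ f i ∘ₗ LinearMap.inr ℂ _ _
  let A₂ : ν → (Fin (m - d) → ℂ) →ₗ[ℂ] (Fin (m - d) → ℂ) := fun i =>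
    LinearMap.snd ℂ _ _ ∘ₗ f i ∘ₗ LinearMap.inr ℂ _ _
  have hf1 : ∀ i x, f i (x, 0) = (A₁ i x, 0) := by
    intro i x
    exact Prod.ext rfl (hf0 i x)
  have hf2 : ∀ i x y, (f i (x, y)).2 = A₂ i y := by
    intro i x y
    have h1 : ((x, y) : (Fin d → ℂ) × (Fin (m - d) → ℂ)) = (x, 0) + (0, y) := by simp
    rw [h1, map_add, Prod.snd_add, hf0, zero_add]
    rfl
  -- the maps on `κ → ℂ`
  let pE : (κ → ℂ) ≃ₗ[ℂ] (κ → ℂ) := P.symm.trans c.symm
  let qE : (κ → ℂ) ≃ₗ[ℂ] (κ → ℂ) := c.trans Q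
  refine ⟨Fin d, Fin (m - d), inferInstance, inferInstance, inferInstance, inferInstance, e,
    LinearMap.toMatrix' pE.toLinearMap, LinearMap.toMatrix' qE.toLinearMap,
    fun i => LinearMap.toMatrix' (A₁ i), fun i => LinearMap.toMatrix' (B₁ i),
    fun i => LinearMap.toMatrix' (A₂ i), ?_, ?_, ?_, ?_, ?_, ?_, ?_⟩
  · rw [LinearMap.det_toMatrix']
    exact LinearEquiv.isUnit_det' pE
  · rw [LinearMap.det_toMatrix']
    exact LinearEquiv.isUnit_det' qE
  · rw [Fintype.card_fin]; exact hdm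
  · rw [Fintype.card_fin]; omega
  · -- RND of the first block
    intro W
    let J : (Fin d → ℂ) →ₗ[ℂ] (κ → ℂ) := Q.toLinearMap ∘ₗ LinearMap.inl ℂ _ _
    have hJ : Function.Injective J := by
      intro x y hxy
      have h1 : ((x, 0) : (Fin d → ℂ) × (Fin (m - d) → ℂ)) = (y, 0) := Q.injective hxy
      exact (Prod.mk.inj h1).1
    let J' : (Fin d → ℂ) →ₗ[ℂ] (κ → ℂ) := P.toLinearMap ∘ₗ LinearMap.inl ℂ _ _
    have h1 := ha (W.map J)
    rw [← (Submodule.equivMapOfInjective J hJ W).finrank_eq] at h1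
    refine h1.trans ?_
    have h2 : (⨆ i, (W.map J).map (Matrix.toLin' (a i)) : Submodule ℂ (κ → ℂ)) =
        (⨆ i, W.map (Matrix.toLin' (LinearMap.toMatrix' (A₁ i)))).map J' := by
      rw [Submodule.map_iSup]
      refine iSup_congr fun i => ?_
      rw [Matrix.toLin'_toMatrix', ← Submodule.map_comp, ← Submodule.map_comp]
      congr 1
      refine LinearMap.ext fun x => ?_
      have h3 : (Matrix.toLin' (a i) ∘ₗ J) x = (a i).mulVec (Q (x, 0)) := by
        rw [LinearMap.comp_apply, Matrix.toLin'_apply]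
        rfl
      have h4 : (J' ∘ₗ A₁ i) x = P (A₁ i x, 0) := rfl
      rw [h3, h4, ← hf, hf1]
    rw [h2]
    exact Submodule.finrank_map_le _ _
  · -- RND of the second block
    intro W
    have hfr : ∀ W : Submodule ℂ (Fin (m - d) → ℂ),
        Module.finrank ℂ ((⊤ : Submodule ℂ (Fin d → ℂ)).prod W) = d + Module.finrank ℂ W := by
      intro W
      let E : ((⊤ : Submodule ℂ (Fin d → ℂ)).prod W) ≃ₗ[ℂ] ((Fin d → ℂ) × W) :=
        { toFun := fun z => (z.1.1, ⟨z.1.2, z.2.2⟩)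
          invFun := fun p => ⟨(p.1, p.2), ⟨trivial, p.2.2⟩⟩
          map_add' := fun _ _ => rfl
          map_smul' := fun _ _ => rfl
          left_inv := fun _ => rfl
          right_inv := fun _ => rfl }
      rw [E.finrank_eq, Module.finrank_prod, Module.finrank_fintype_fun_eq_card, Fintype.card_fin]
    set W' : Submodule ℂ (Fin (m - d) → ℂ) :=
      ⨆ i, W.map (Matrix.toLin' (LinearMap.toMatrix' (A₂ i))) with hW'
    have h1 := ha (((⊤ : Submodule ℂ (Fin d → ℂ)).prod W).map Q.toLinearMap)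
    rw [LinearEquiv.finrank_map_eq, hfr] at h1
    have h2 : (⨆ i, (((⊤ : Submodule ℂ (Fin d → ℂ)).prod W).map Q.toLinearMap).map
        (Matrix.toLin' (a i)) : Submodule ℂ (κ → ℂ)) ≤
        ((⊤ : Submodule ℂ (Fin d → ℂ)).prod W').map P.toLinearMap := by
      refine iSup_le fun i => ?_
      rintro _ ⟨_, ⟨⟨x, y⟩, hxy, rfl⟩, rfl⟩
      refine ⟨f i (x, y), ?_, ?_⟩
      · refine ⟨trivial, ?_⟩
        rw [hf2]
        refine Submodule.mem_iSup_of_mem i ⟨y, hxy.2, ?_⟩
        rw [Matrix.toLin'_toMatrix']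
      · rw [Matrix.toLin'_apply]
        exact hf i (x, y)
    have h3 := Submodule.finrank_mono h2
    rw [LinearEquiv.finrank_map_eq, hfr] at h3
    have h4 := h1.trans h3
    omega
  · -- the block form
    intro i
    have hp : LinearMap.toMatrix' pE.toLinearMap * a i * LinearMap.toMatrix' qE.toLinearMap =
        LinearMap.toMatrix' (pE.toLinearMap ∘ₗ Matrix.toLin' (a i) ∘ₗ qE.toLinearMap) := by
      rw [LinearMap.toMatrix'_comp, LinearMap.toMatrix'_comp, LinearMap.toMatrix'_toLin',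
        Matrix.mul_assoc]
    have happ : ∀ v : κ → ℂ, c ((pE.toLinearMap ∘ₗ Matrix.toLin' (a i) ∘ₗ qE.toLinearMap) v) =
        f i (c v) := by
      intro v
      have h1 : (pE.toLinearMap ∘ₗ Matrix.toLin' (a i) ∘ₗ qE.toLinearMap) v =
          c.symm (P.symm ((a i).mulVec (Q (c v)))) := by
        rw [LinearMap.comp_apply, LinearMap.comp_apply, Matrix.toLin'_apply]
        rfl
      rw [h1, ← hf]
      simp
    have hci : ∀ t : Fin d, c (Pi.single (e.symm (Sum.inl t)) 1) = (Pi.single t 1, 0) := by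
      intro t
      refine Prod.ext ?_ ?_
      · rw [hc1]
        funext t'
        simp [Pi.single_apply]
      · rw [hc2]
        funext t'
        simp [Pi.single_apply]
    have hcr : ∀ t : Fin (m - d), c (Pi.single (e.symm (Sum.inr t)) 1) = (0, Pi.single t 1) := by
      intro t
      refine Prod.ext ?_ ?_
      · rw [hc1]
        funext t'
        simp [Pi.single_apply]
      · rw [hc2]
        funext t'
        simp [Pi.single_apply]
    rw [hp]
    ext (s | s) (t | t)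
    · rw [Matrix.reindex_apply, Matrix.submatrix_apply, LinearMap.toMatrix'_apply,
        Matrix.fromBlocks_apply₁₁]
      refine Eq.trans ?_ (LinearMap.toMatrix'_apply (A₁ i) s t).symm
      have h1 := happ (Pi.single (e.symm (Sum.inl t)) 1)
      rw [hci, hf1] at h1
      have h2 := congrFun (congrArg Prod.fst h1) s
      rw [hc1] at h2
      exact h2
    · rw [Matrix.reindex_apply, Matrix.submatrix_apply, LinearMap.toMatrix'_apply,
        Matrix.fromBlocks_apply₁₂]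
      refine Eq.trans ?_ (LinearMap.toMatrix'_apply (B₁ i) s t).symm
      have h1 := happ (Pi.single (e.symm (Sum.inr t)) 1)
      rw [hcr] at h1
      have h2 := congrFun (congrArg Prod.fst h1) s
      rw [hc1] at h2
      exact h2
    · rw [Matrix.reindex_apply, Matrix.submatrix_apply, LinearMap.toMatrix'_apply,
        Matrix.fromBlocks_apply₂₁]
      have h1 := happ (Pi.single (e.symm (Sum.inl t)) 1)
      rw [hci, hf1] at h1
      have h2 := congrFun (congrArg Prod.snd h1) s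
      rw [hc2] at h2
      exact h2
    · rw [Matrix.reindex_apply, Matrix.submatrix_apply, LinearMap.toMatrix'_apply,
        Matrix.fromBlocks_apply₂₂]
      refine Eq.trans ?_ (LinearMap.toMatrix'_apply (A₂ i) s t).symm
      have h1 := happ (Pi.single (e.symm (Sum.inr t)) 1)
      rw [hcr] at h1
      have h2 := congrFun (congrArg Prod.snd h1) s
      rw [hc2] at h2
      exact h2

end Pool.Agent.helper75.RndBlock
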