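import Mathlib
import Pool.Agent.helper75.Burnside
import Pool.Agent.helper97.GUE.Defs

set_option autoImplicit false
open scoped Matrix

namespace Pool.Agent.helper75.GadgetSpan

open Pool.Agent.helper97.GUE Pool.Agent.helper75.Burnside

variable {κ ν : Type*} [Fintype κ] [DecidableEq κ] [Fintype ν]

/-- invertible matrices with entries in `L` together with their inverses -/
structure Pair (L : Submodule ℂ (Matrix κ κ ℂ)) (ι : Type*) [Fintype ι] [DecidableEq ι]
    (Γ G : Matrix ι ι (Matrix κ κ ℂ)) : Prop where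
  mem : ∀ c c', Γ c c' ∈ L
  right : Γ * G = 1
  left : G * Γ = 1

/-- span of the entries of the inverses -/
def S (L : Submodule ℂ (Matrix κ κ ℂ)) (ι : Type*) [Fintype ι] [DecidableEq ι] :
    Submodule ℂ (Matrix κ κ ℂ) :=
  Submodule.span ℂ {B | ∃ Γ G : Matrix ι ι (Matrix κ κ ℂ), Pair L ι Γ G ∧ ∃ c c', B = G c c'}

variable {L : Submodule ℂ (Matrix κ κ ℂ)} {ι ι' : Type*} [Fintype ι] [DecidableEq ι] [Fintype ι']
  [DecidableEq ι']

lemma mem_S {Γ G : Matrix ι ι (Matrix κ κ ℂ)} (h : Pair L ι Γ G) (c c' : ι) : G c c' ∈ S L ι :=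
  Submodule.subset_span ⟨Γ, G, h, c, c', rfl⟩

lemma S_equiv_le (e : ι ≃ ι') : S L ι ≤ S L ι' := by
  rw [S, Submodule.span_le]
  rintro B ⟨Γ, G, h, c, c', rfl⟩
  have hp : Pair L ι' (Γ.submatrix e.symm e.symm) (G.submatrix e.symm e.symm) := by
    refine ⟨fun c c' => h.mem _ _, ?_, ?_⟩
    · rw [Matrix.submatrix_mul_equiv, h.right, Matrix.submatrix_one_equiv]
    · rw [Matrix.submatrix_mul_equiv, h.left, Matrix.submatrix_one_equiv]
  have := mem_S hp (e c) (e c')
  simpa using this

lemma pair_triangular {Γ₁ G₁ : Matrix ι ι (Matrix κ κ ℂ)} {Γ₂ G₂ : Matrix ι' ι' (Matrix κ κ ℂ)}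
    (h₁ : Pair L ι Γ₁ G₁) (h₂ : Pair L ι' Γ₂ G₂) (E : Matrix ι ι' (Matrix κ κ ℂ))
    (hE : ∀ c c', E c c' ∈ L) :
    Pair L (ι ⊕ ι') (Matrix.fromBlocks Γ₁ E 0 Γ₂)
      (Matrix.fromBlocks G₁ (-(G₁ * E * G₂)) 0 G₂) := by
  refine ⟨?_, ?_, ?_⟩
  · rintro (c | c) (c' | c')
    · exact h₁.mem _ _
    · exact hE _ _
    · exact L.zero_mem
    · exact h₂.mem _ _
  · rw [Matrix.fromBlocks_multiply]
    have : Γ₁ * (-(G₁ * E * G₂)) + E * G₂ = 0 := by
      rw [Matrix.mul_neg, Matrix.mul_assoc G₁, ← Matrix.mul_assoc Γ₁, h₁.right, Matrix.one_mul,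
        neg_add_cancel]
    rw [this, h₁.right, h₂.right]
    simp
  · rw [Matrix.fromBlocks_multiply]
    have : G₁ * E + -(G₁ * E * G₂) * Γ₂ = 0 := by
      rw [Matrix.neg_mul, Matrix.mul_assoc, h₂.left, Matrix.mul_one, add_neg_cancel]
    rw [this, h₁.left, h₂.left]
    simp

lemma S_le_sum {Γ' G' : Matrix ι' ι' (Matrix κ κ ℂ)} (h' : Pair L ι' Γ' G') :
    S L ι ≤ S L (ι ⊕ ι') := by
  rw [S, Submodule.span_le]
  rintro B ⟨Γ, G, h, c, c', rfl⟩
  exact mem_S (pair_triangular h h' 0 (fun _ _ => L.zero_mem)) (Sum.inl c) (Sum.inl c')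

lemma S_mul_mul_le : S L ι * L * S L ι' ≤ S L (ι ⊕ ι') := by
  rw [Submodule.mul_le]
  intro x hx z hz
  have h1 : ∀ y ∈ L, ∀ z ∈ S L ι', ∀ x ∈ S L ι, x * y * z ∈ S L (ι ⊕ ι') := by
    intro y hy z hz
    refine Submodule.span_induction ?_ ?_ ?_ ?_ hz
    · rintro _ ⟨Γ₂, G₂, h₂, d, d', rfl⟩ x hx
      refine Submodule.span_induction ?_ ?_ ?_ ?_ hx
      · rintro _ ⟨Γ₁, G₁, h₁, c, c', rfl⟩
        have hp := pair_triangular h₁ h₂ (Matrix.single c' d y) (by
          intro e e'
          rw [Matrix.single_apply]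
          split_ifs
          · exact hy
          · exact L.zero_mem)
        have := mem_S hp (Sum.inl c) (Sum.inr d')
        rw [Matrix.fromBlocks_apply₁₂, Matrix.neg_apply] at this
        have h3 := Submodule.neg_mem _ this
        rw [neg_neg] at h3
        have h4 : (G₁ * Matrix.single c' d y * G₂) c d' = G₁ c c' * y * G₂ d d' := by
          rw [Matrix.mul_apply, Finset.sum_eq_single d]
          · congr 1
            rw [Matrix.mul_apply, Finset.sum_eq_single c']
            · simp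
            · intro b _ hb
              rw [Matrix.single_apply_of_ne]
              · simp
              · intro hh; exact hb hh.1.symm
            · simp
          · intro b _ hb
            rw [Matrix.mul_apply, Finset.sum_eq_zero, zero_mul]
            intro e _
            rw [Matrix.single_apply_of_ne]
            · simp
            · intro hh; exact hb hh.2.symm
          · simp
        rw [h4] at h3
        exact h3
      · simp
      · intro a b _ _ ha hb
        rw [add_mul, add_mul]; exact Submodule.add_mem _ ha hb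
      · intro a b _ hb
        rw [smul_mul_assoc, smul_mul_assoc]; exact Submodule.smul_mem _ _ hb
    · intro x _; simp
    · intro a b _ _ ha hb x hx
      rw [mul_add]; exact Submodule.add_mem _ (ha x hx) (hb x hx)
    · intro a b _ hb x hx
      rw [mul_smul_comm]; exact Submodule.smul_mem _ _ (hb x hx)
  refine Submodule.mul_induction_on hx ?_ ?_
  · intro m hm n hn
    exact h1 n hn z hz m hm
  · intro a b ha hb
    rw [add_mul]; exact Submodule.add_mem _ ha hb

lemma one_mem_S_mul [Nonempty ι] {Γ G : Matrix ι ι (Matrix κ κ ℂ)} (h : Pair L ι Γ G) :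
    (1 : Matrix κ κ ℂ) ∈ S L ι * L := by
  obtain ⟨c⟩ := (inferInstance : Nonempty ι)
  have h1 : (G * Γ) c c = 1 := by rw [h.left, Matrix.one_apply_eq]
  rw [Matrix.mul_apply] at h1
  rw [← h1]
  exact Submodule.sum_mem _ fun e _ => Submodule.mul_mem_mul (mem_S h _ _) (h.mem _ _)

lemma one_mem_mul_S [Nonempty ι] {Γ G : Matrix ι ι (Matrix κ κ ℂ)} (h : Pair L ι Γ G) :
    (1 : Matrix κ κ ℂ) ∈ L * S L ι := by
  obtain ⟨c⟩ := (inferInstance : Nonempty ι)
  have h1 : (Γ * G) c c = 1 := by rw [h.right, Matrix.one_apply_eq]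
  rw [Matrix.mul_apply] at h1
  rw [← h1]
  exact Submodule.sum_mem _ fun e _ => Submodule.mul_mem_mul (h.mem _ _) (mem_S h _ _)

/-- an invariant subspace `W` of `S L` satisfies `dim L W ≤ dim W` -/
lemma finrank_le_of_invariant [Nonempty ι] {Γ G : Matrix ι ι (Matrix κ κ ℂ)} (h : Pair L ι Γ G)
    (W W' : Submodule ℂ (κ → ℂ)) (hW : ∀ c c', ∀ v ∈ W', (G c c').mulVec v ∈ W) :
    Module.finrank ℂ W' ≤ Module.finrank ℂ W := by
  let T : (ι → W') →ₗ[ℂ] (ι → W) :=
    { toFun := fun u c => ⟨∑ c', (G c c').mulVec (u c'),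
        Submodule.sum_mem _ fun c' _ => hW c c' _ (u c').2⟩
      map_add' := by
        intro u v
        ext c i
        simp [Matrix.mulVec_add, Finset.sum_add_distrib]
      map_smul' := by
        intro r u
        ext c i
        simp [Matrix.mulVec_smul, Finset.mul_sum] }
  have hT : Function.Injective T := by
    rw [← LinearMap.ker_eq_bot, LinearMap.ker_eq_bot']
    intro u hu
    have h0 : ∀ c, ∑ c', (G c c').mulVec (u c' : κ → ℂ) = 0 := by
      intro c
      have := congrFun hu c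
      have h2 := congrArg (Subtype.val) this
      exact h2
    ext1 d
    apply Subtype.ext
    have h3 : ∑ c, (Γ d c).mulVec (∑ c', (G c c').mulVec (u c' : κ → ℂ)) = u d := by
      have h4 : ∀ c' : ι, ∑ c, (Γ d c).mulVec ((G c c').mulVec (u c' : κ → ℂ)) =
          ((Γ * G) d c').mulVec (u c' : κ → ℂ) := by
        intro c'
        rw [Matrix.mul_apply, Matrix.sum_mulVec]
        exact Finset.sum_congr rfl fun c _ => by rw [Matrix.mulVec_mulVec]
      calc ∑ c, (Γ d c).mulVec (∑ c', (G c c').mulVec (u c' : κ → ℂ))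
          = ∑ c, ∑ c', (Γ d c).mulVec ((G c c').mulVec (u c' : κ → ℂ)) := by
            refine Finset.sum_congr rfl fun c _ => ?_
            rw [Matrix.mulVec_sum]
        _ = ∑ c', ∑ c, (Γ d c).mulVec ((G c c').mulVec (u c' : κ → ℂ)) := Finset.sum_comm
        _ = ∑ c', ((Γ * G) d c').mulVec (u c' : κ → ℂ) :=
            Finset.sum_congr rfl fun c' _ => h4 c'
        _ = u d := by
            rw [h.right, Finset.sum_eq_single d]
            · simp
            · intro b _ hb
              rw [Matrix.one_apply_ne hb.symm]; simp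
            · simp
    rw [← h3]
    simp [h0]
  have := LinearMap.finrank_le_finrank_of_injective hT
  rw [Module.finrank_pi_fintype, Module.finrank_pi_fintype] at this
  simp only [Finset.sum_const, Finset.card_univ, smul_eq_mul] at this
  exact Nat.le_of_mul_le_mul_left this Fintype.card_pos

/-- block form of a matrix indexed by a product -/
def blk {ι : Type*} (M : Matrix (κ × ι) (κ × ι) ℂ) : Matrix ι ι (Matrix κ κ ℂ) :=
  Matrix.of fun c c' => Matrix.of fun β β' => M (β, c) (β', c')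

omit [Fintype κ] [DecidableEq κ] in
lemma blk_apply {ι : Type*} (M : Matrix (κ × ι) (κ × ι) ℂ) (c c' : ι) (β β' : κ) :
    blk M c c' β β' = M (β, c) (β', c') := rfl

omit [Fintype κ] [DecidableEq κ] in
lemma blk_injective {ι : Type*} : Function.Injective (blk (κ := κ) (ι := ι)) := by
  intro M M' h
  ext ⟨β, c⟩ ⟨β', c'⟩
  have h1 : blk M c c' β β' = blk M' c c' β β' := by rw [h]
  exact h1

omit [Fintype κ] [DecidableEq κ] in
lemma blk_surjective {ι : Type*} : Function.Surjective (blk (κ := κ) (ι := ι)) := by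
  intro G
  exact ⟨Matrix.of fun p q => G p.2 q.2 p.1 q.1, rfl⟩

omit [DecidableEq κ] in
omit [DecidableEq ι] in
lemma blk_mul (M M' : Matrix (κ × ι) (κ × ι) ℂ) : blk (M * M') = blk M * blk M' := by
  ext c c' β β'
  rw [blk_apply, Matrix.mul_apply, Matrix.mul_apply, Matrix.sum_apply, Fintype.sum_prod_type_right]
  refine Finset.sum_congr rfl fun d _ => ?_
  rw [Matrix.mul_apply]
  rfl

omit [Fintype κ] [Fintype ι] in
lemma blk_one : blk (1 : Matrix (κ × ι) (κ × ι) ℂ) = 1 := by
  ext c c' β β'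
  rw [blk_apply]
  by_cases h : c = c'
  · subst h
    rw [Matrix.one_apply_eq]
    by_cases h' : β = β'
    · subst h'; simp
    · rw [Matrix.one_apply_ne h', Matrix.one_apply_ne]
      intro hh; exact h' (Prod.ext_iff.1 hh).1
  · rw [Matrix.one_apply_ne h, Matrix.one_apply_ne, Matrix.zero_apply]
    intro hh; exact h (Prod.ext_iff.1 hh).2

omit [Fintype κ] [DecidableEq κ] in
lemma blk_ksum {ι : Type*} (a : ν → Matrix κ κ ℂ) (X : ν → Matrix ι ι ℂ) (c c' : ι) :
    blk (ksum a X) c c' = ∑ i, X i c c' • a i := by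
  ext β β'
  rw [blk_apply, ksum, Matrix.sum_apply, Matrix.sum_apply]
  refine Finset.sum_congr rfl fun i _ => ?_
  have h1 : (Matrix.kronecker (a i) (X i)) (β, c) (β', c') = a i β β' * X i c c' := rfl
  rw [h1, Matrix.smul_apply, smul_eq_mul, mul_comm]

lemma pair_of_det (a : ν → Matrix κ κ ℂ) (X : ν → Matrix ι ι ℂ) (h : (ksum a X).det ≠ 0) :
    Pair (Submodule.span ℂ (Set.range a)) ι (blk (ksum a X)) (blk (ksum a X)⁻¹) := by
  have hu : IsUnit (ksum a X).det := isUnit_iff_ne_zero.2 h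
  refine ⟨?_, ?_, ?_⟩
  · intro c c'
    rw [blk_ksum]
    exact Submodule.sum_mem _ fun i _ =>
      Submodule.smul_mem _ _ (Submodule.subset_span (Set.mem_range_self i))
  · rw [← blk_mul, Matrix.mul_nonsing_inv _ hu, blk_one]
  · rw [← blk_mul, Matrix.nonsing_inv_mul _ hu, blk_one]

lemma exists_of_pair (a : ν → Matrix κ κ ℂ) {Γ G : Matrix ι ι (Matrix κ κ ℂ)}
    (h : Pair (Submodule.span ℂ (Set.range a)) ι Γ G) :
    ∃ X : ν → Matrix ι ι ℂ, (ksum a X).det ≠ 0 ∧ blk (ksum a X)⁻¹ = G := by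
  have h1 : ∀ c c', ∃ x : ν → ℂ, ∑ i, x i • a i = Γ c c' := fun c c' =>
    (Submodule.mem_span_range_iff_exists_fun ℂ).1 (h.mem c c')
  choose x hx using h1
  let X : ν → Matrix ι ι ℂ := fun i => Matrix.of fun c c' => x c c' i
  have hX : blk (ksum a X) = Γ := by
    ext1 c c'
    rw [blk_ksum]
    exact hx c c'
  obtain ⟨M, hM⟩ := blk_surjective G
  have hXM : ksum a X * M = 1 := by
    apply blk_injective
    rw [blk_mul, hX, hM, h.right, blk_one]
  have hinv : (ksum a X)⁻¹ = M := Matrix.inv_eq_right_inv hXM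
  refine ⟨X, ?_, by rw [hinv, hM]⟩
  exact (Matrix.isUnit_det_of_right_inverse hXM).ne_zero

lemma pair_reindex (e : ι ≃ ι') {Γ G : Matrix ι ι (Matrix κ κ ℂ)} (h : Pair L ι Γ G) :
    Pair L ι' (Γ.submatrix e.symm e.symm) (G.submatrix e.symm e.symm) := by
  refine ⟨fun c c' => h.mem _ _, ?_, ?_⟩
  · rw [Matrix.submatrix_mul_equiv, h.right, Matrix.submatrix_one_equiv]
  · rw [Matrix.submatrix_mul_equiv, h.left, Matrix.submatrix_one_equiv]

lemma exists_pair_mul {N : ℕ} {Γ G : Matrix (Fin N) (Fin N) (Matrix κ κ ℂ)}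
    (h : Pair L (Fin N) Γ G) (j : ℕ) :
    ∃ Γ' G' : Matrix (Fin ((j + 1) * N)) (Fin ((j + 1) * N)) (Matrix κ κ ℂ),
      Pair L (Fin ((j + 1) * N)) Γ' G' := by
  induction j with
  | zero =>
    exact ⟨_, _, pair_reindex (finCongr (by ring)) h⟩
  | succ j ih =>
    obtain ⟨Γ', G', h'⟩ := ih
    exact ⟨_, _, pair_reindex (finSumFinEquiv.trans (finCongr (by ring)))
      (pair_triangular h' h 0 (fun _ _ => L.zero_mem))⟩

theorem gadget_span {κ ν : Type*} [Fintype κ] [DecidableEq κ] [Fintype ν] [Nonempty κ]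
    (a : ν → Matrix κ κ ℂ) (ha : Irr a) (N : ℕ) (hN : 0 < N)
    (Y : ν → Matrix (Fin N) (Fin N) ℂ) (hY : (ksum a Y).det ≠ 0) :
    ∃ K : ℕ, 0 < K ∧ Submodule.span ℂ {Z : Matrix κ κ ℂ |
      ∃ (Γ : ν → Matrix (Fin K) (Fin K) ℂ) (x y : ν → Fin K → ℂ), (ksum a Γ).det ≠ 0 ∧
        Z = Matrix.of fun σ υ => ∑ β, ∑ c, ∑ β', ∑ c',
          (∑ i, a i σ β * x i c) * (ksum a Γ)⁻¹ (β, c) (β', c') * (∑ i, a i β' υ * y i c')} = ⊤ := by
  classical
  set L : Submodule ℂ (Matrix κ κ ℂ) := Submodule.span ℂ (Set.range a) with hL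
  have hY' := pair_of_det a Y hY
  rw [← hL] at hY'
  let f : ℕ →o Submodule ℂ (Matrix κ κ ℂ) :=
    { toFun := fun j => S L (Fin ((j + 1) * N))
      monotone' := by
        refine monotone_nat_of_le_succ fun j => ?_
        exact (S_le_sum hY').trans (S_equiv_le (finSumFinEquiv.trans (finCongr (by ring)))) }
  obtain ⟨n, hn⟩ := monotone_stabilizes_iff_noetherian.2
    (inferInstance : IsNoetherian ℂ (Matrix κ κ ℂ)) f
  set K : ℕ := (n + 1) * N with hK
  have hKpos : 0 < K := Nat.mul_pos (Nat.succ_pos n) hN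
  have : Nonempty (Fin K) := ⟨⟨0, hKpos⟩⟩
  obtain ⟨Γ₀, G₀, h₀⟩ := exists_pair_mul hY' n
  have hSLS : S L (Fin K) * L * S L (Fin K) ≤ S L (Fin K) := by
    refine (S_mul_mul_le (L := L) (ι := Fin K) (ι' := Fin K)).trans ?_
    have h1 : S L (Fin K ⊕ Fin K) ≤ f (2 * n + 1) :=
      S_equiv_le (finSumFinEquiv.trans (finCongr (by rw [hK]; ring)))
    refine h1.trans ?_
    rw [← hn (2 * n + 1) (by omega)]
    exact le_rfl
  let A : Subalgebra ℂ (Matrix κ κ ℂ) :=
    { carrier := (S L (Fin K) * L : Submodule ℂ (Matrix κ κ ℂ))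
      mul_mem' := by
        intro x y hx hy
        have h1 : x * y ∈ (S L (Fin K) * L) * (S L (Fin K) * L) := Submodule.mul_mem_mul hx hy
        have h2 : (S L (Fin K) * L) * (S L (Fin K) * L) ≤ S L (Fin K) * L := by
          rw [← mul_assoc]
          exact mul_le_mul' hSLS le_rfl
        exact h2 h1
      one_mem' := one_mem_S_mul h₀
      add_mem' := fun hx hy => Submodule.add_mem _ hx hy
      zero_mem' := Submodule.zero_mem _
      algebraMap_mem' := by
        intro r
        rw [Algebra.algebraMap_eq_smul_one]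
        exact Submodule.smul_mem _ _ (one_mem_S_mul h₀) }
  have hmemA : ∀ M, M ∈ A ↔ M ∈ S L (Fin K) * L := fun M => Iff.rfl
  have hA : A = ⊤ := by
    apply burnside_matrix
    intro W hW
    by_contra hcon
    rw [not_or] at hcon
    have h1 := ha.2 W hcon.1 hcon.2
    have h2 := finrank_le_of_invariant h₀ W
      (⨆ i, W.map (Matrix.toLin' (a i)) : Submodule ℂ (κ → ℂ)) (by
        intro c c' v hv
        have h3 : (⨆ i, W.map (Matrix.toLin' (a i)) : Submodule ℂ (κ → ℂ)) ≤
            W.comap (Matrix.toLin' (G₀ c c')) := by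
          refine iSup_le fun i => ?_
          rw [Submodule.map_le_iff_le_comap]
          intro w hw
          rw [Submodule.mem_comap, Submodule.mem_comap, Matrix.toLin'_apply, Matrix.toLin'_apply,
            Matrix.mulVec_mulVec]
          refine hW _ ?_ w hw
          rw [hmemA]
          exact Submodule.mul_mem_mul (mem_S h₀ c c') (Submodule.subset_span (Set.mem_range_self i))
        have := h3 hv
        rw [Submodule.mem_comap, Matrix.toLin'_apply] at this
        exact this)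
    omega
  have hSL : S L (Fin K) * L = ⊤ := by
    rw [eq_top_iff]
    intro M _
    rw [← hmemA, hA]
    trivial
  have hLSL : L * (S L (Fin K) * L) = ⊤ := by
    rw [eq_top_iff]
    intro M _
    have h1 : M = 1 * M := (one_mul M).symm
    rw [h1]
    have h2 : (L * S L (Fin K)) * (⊤ : Submodule ℂ (Matrix κ κ ℂ)) ≤ L * (S L (Fin K) * L) := by
      rw [mul_assoc, hSL]
      exact mul_le_mul' le_rfl le_top
    exact h2 (Submodule.mul_mem_mul (one_mem_mul_S h₀) trivial)
  refine ⟨K, hKpos, ?_⟩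
  rw [eq_top_iff, ← hLSL]
  set T := Submodule.span ℂ {Z : Matrix κ κ ℂ |
      ∃ (Γ : ν → Matrix (Fin K) (Fin K) ℂ) (x y : ν → Fin K → ℂ), (ksum a Γ).det ≠ 0 ∧
        Z = Matrix.of fun σ υ => ∑ β, ∑ c, ∑ β', ∑ c',
          (∑ i, a i σ β * x i c) * (ksum a Γ)⁻¹ (β, c) (β', c') * (∑ i, a i β' υ * y i c')}
    with hT
  -- generators
  have key : ∀ (i j : ν) (B : Matrix κ κ ℂ), B ∈ S L (Fin K) → a i * (B * a j) ∈ T := by
    intro i j B hB
    refine Submodule.span_induction ?_ ?_ ?_ ?_ hB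
    · rintro _ ⟨Γ, G, h, c₀, c₀', rfl⟩
      obtain ⟨X, hX, hXG⟩ := exists_of_pair a h
      refine Submodule.subset_span ⟨X, fun i' c => if i' = i ∧ c = c₀ then 1 else 0,
        fun i' c => if i' = j ∧ c = c₀' then 1 else 0, hX, ?_⟩
      ext σ υ
      rw [Matrix.of_apply, Matrix.mul_apply]
      refine Finset.sum_congr rfl fun β _ => ?_
      rw [Finset.sum_eq_single c₀]
      · have e1 : (∑ i', a i' σ β * (if i' = i ∧ c₀ = c₀ then (1 : ℂ) else 0)) = a i σ β := by
          simp
        rw [e1, Matrix.mul_apply, Finset.mul_sum]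
        refine Finset.sum_congr rfl fun β' _ => ?_
        rw [Finset.sum_eq_single c₀']
        · have e2 : (∑ i', a i' β' υ * (if i' = j ∧ c₀' = c₀' then (1 : ℂ) else 0)) =
              a j β' υ := by
            simp
          rw [e2, ← hXG, blk_apply]
          ring
        · intro c' _ hc'
          simp [hc']
        · simp
      · intro c _ hc
        simp [hc]
      · simp
    · simp
    · intro x y _ _ hx hy
      rw [add_mul, mul_add]
      exact Submodule.add_mem _ hx hy
    · intro r x _ hx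
      rw [smul_mul_assoc, mul_smul_comm]
      exact Submodule.smul_mem _ _ hx
  have key2 : ∀ l₂ ∈ L, ∀ l₁ ∈ L, ∀ B ∈ S L (Fin K), l₁ * (B * l₂) ∈ T := by
    intro l₂ hl₂
    refine Submodule.span_induction ?_ ?_ ?_ ?_ hl₂
    · rintro _ ⟨j, rfl⟩ l₁ hl₁
      refine Submodule.span_induction ?_ ?_ ?_ ?_ hl₁
      · rintro _ ⟨i, rfl⟩ B hB
        exact key i j B hB
      · intro B _; simp
      · intro x y _ _ hx hy B hB
        rw [add_mul]; exact Submodule.add_mem _ (hx B hB) (hy B hB)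
      · intro r x _ hx B hB
        rw [smul_mul_assoc]; exact Submodule.smul_mem _ _ (hx B hB)
    · intro l₁ _ B _; simp
    · intro x y _ _ hx hy l₁ hl₁ B hB
      rw [mul_add, mul_add]; exact Submodule.add_mem _ (hx l₁ hl₁ B hB) (hy l₁ hl₁ B hB)
    · intro r x _ hx l₁ hl₁ B hB
      rw [mul_smul_comm, mul_smul_comm]; exact Submodule.smul_mem _ _ (hx l₁ hl₁ B hB)
  rw [Submodule.mul_le]
  intro l₁ hl₁ n hn'
  refine Submodule.mul_induction_on hn' ?_ ?_
  · intro B hB l₂ hl₂
    exact key2 l₂ hl₂ l₁ hl₁ B hB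
  · intro x y hx hy
    rw [mul_add]; exact Submodule.add_mem _ hx hy

end Pool.Agent.helper75.GadgetSpan
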