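import Mathlib
import Pool.Agent.helper97.GUE.Model

set_option autoImplicit false
open scoped NNReal ENNReal Matrix

namespace Pool.Agent.helper75.Extend

open Pool.Agent.helper97.GUE

set_option linter.unusedSimpArgs false
set_option linter.unusedSectionVars false

/-- first variation of the determinant -/
noncomputable def fv {n : Type*} [Fintype n] [DecidableEq n] (A : Matrix n n ℂ) :
    Matrix n n ℂ →ₗ[ℂ] ℂ where
  toFun M := ∑ i, (A.updateCol i (fun r => M r i)).det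
  map_add' M M' := by
    rw [← Finset.sum_add_distrib]
    refine Finset.sum_congr rfl fun i _ => ?_
    rw [← Matrix.det_updateCol_add]
    rfl
  map_smul' t M := by
    rw [RingHom.id_apply, Finset.smul_sum]
    refine Finset.sum_congr rfl fun i _ => ?_
    rw [smul_eq_mul, ← Matrix.det_updateCol_smul]
    rfl

theorem fv_apply {n : Type*} [Fintype n] [DecidableEq n] (A M : Matrix n n ℂ) :
    fv A M = ∑ i, (A.updateCol i (fun r => M r i)).det := rfl

theorem hasDerivAt_det {n : Type*} [Fintype n] [DecidableEq n] (A M : Matrix n n ℂ) :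
    HasDerivAt (fun τ : ℂ => (A + τ • M).det) (fv A M) 0 := by
  have h1 : (fun τ : ℂ => (A + τ • M).det) = fun τ => ∑ σ : Equiv.Perm n,
      ((Equiv.Perm.sign σ : ℤ) : ℂ) * ∏ i, (A (σ i) i + τ * M (σ i) i) := by
    funext τ; rw [Matrix.det_apply']; rfl
  have h2 : fv A M = ∑ σ : Equiv.Perm n, ((Equiv.Perm.sign σ : ℤ) : ℂ) *
      ∑ i, (∏ j ∈ Finset.univ.erase i, (A (σ j) j + 0 * M (σ j) j)) • M (σ i) i := by
    rw [fv_apply]
    simp_rw [Matrix.det_apply']
    rw [Finset.sum_comm]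
    refine Finset.sum_congr rfl fun σ _ => ?_
    rw [← Finset.mul_sum]
    congr 1
    refine Finset.sum_congr rfl fun i _ => ?_
    rw [← Finset.mul_prod_erase Finset.univ _ (Finset.mem_univ i), smul_eq_mul, mul_comm]
    congr 1
    · refine Finset.prod_congr rfl fun j hj => ?_
      rw [Matrix.updateCol_ne (Finset.ne_of_mem_erase hj)]
      ring
    · rw [Matrix.updateCol_self]
  rw [h1, h2]
  apply HasDerivAt.fun_sum
  intro σ _
  apply HasDerivAt.const_mul
  apply HasDerivAt.fun_finsetProd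
  intro i _
  have := ((hasDerivAt_id (0 : ℂ)).mul_const (M (σ i) i)).const_add (A (σ i) i)
  simpa using this

theorem exists_tau {n : Type*} [Fintype n] [DecidableEq n] (A M : Matrix n n ℂ) :
    ∃ τ : ℂ, ‖τ‖ = 1 ∧ ‖fv A M‖ ≤ ‖(A + τ • M).det‖ := by
  have hd : Differentiable ℂ (fun τ : ℂ => (A + τ • M).det) := by
    have h1 : (fun τ : ℂ => (A + τ • M).det) = fun τ => ∑ σ : Equiv.Perm n,
        ((Equiv.Perm.sign σ : ℤ) : ℂ) * ∏ i, (A (σ i) i + τ * M (σ i) i) := by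
      funext τ; rw [Matrix.det_apply']; rfl
    rw [h1]
    fun_prop
  obtain ⟨τ, hτ, hmax⟩ := (isCompact_sphere (0 : ℂ) 1).exists_isMaxOn
    (NormedSpace.sphere_nonempty.mpr zero_le_one) (hd.continuous.norm.continuousOn)
  refine ⟨τ, by simpa using hτ, ?_⟩
  have h2 := Complex.norm_deriv_le_of_forall_mem_sphere_norm_le (c := (0 : ℂ)) (R := 1)
    (C := ‖(A + τ • M).det‖) (f := fun τ : ℂ => (A + τ • M).det) one_pos hd.diffContOnCl
    (fun z hz => hmax hz)
  rw [(hasDerivAt_det A M).deriv, div_one] at h2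
  exact h2

theorem fv_single {ρ : Type*} [Fintype ρ] [DecidableEq ρ] (A : Matrix (ρ ⊕ Unit) (ρ ⊕ Unit) ℂ) :
    fv A (Matrix.single (Sum.inr ()) (Sum.inr ()) 1) = A.toBlocks₁₁.det := by
  rw [fv_apply, Fintype.sum_sum_type]
  have h1 : ∑ x : ρ, (A.updateCol (Sum.inl x) fun r =>
      (Matrix.single (Sum.inr ()) (Sum.inr ()) (1 : ℂ) : Matrix (ρ ⊕ Unit) (ρ ⊕ Unit) ℂ) r (Sum.inl x)).det = 0 := by
    apply Finset.sum_eq_zero
    intro x _
    apply Matrix.det_eq_zero_of_column_eq_zero (Sum.inl x)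
    intro i
    rw [Matrix.updateCol_self]
    simp [Matrix.single_apply]
  rw [h1, zero_add]
  simp only [Finset.univ_unique, Finset.sum_singleton]
  have h2 : (A.updateCol (Sum.inr default) fun r =>
      (Matrix.single (Sum.inr ()) (Sum.inr ()) (1 : ℂ) : Matrix (ρ ⊕ Unit) (ρ ⊕ Unit) ℂ) r (Sum.inr default))
      = Matrix.fromBlocks A.toBlocks₁₁ 0 A.toBlocks₂₁ 1 := by
    ext i j
    rcases i with i | i <;> rcases j with j | j
    · simp [Matrix.updateCol_apply, Matrix.toBlocks₁₁]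
    · simp [Matrix.updateCol_apply, Matrix.single_apply]
    · simp [Matrix.updateCol_apply, Matrix.toBlocks₂₁]
    · simp [Matrix.updateCol_apply, Matrix.single_apply]
  rw [h2, Matrix.det_fromBlocks_zero₁₂, Matrix.det_one, mul_one]

variable {κ ν : Type*} [Fintype κ] [DecidableEq κ] [Fintype ν]

/-- the gadget matrices -/
noncomputable def Zg (a : ν → Matrix κ κ ℂ) {K : ℕ} (Γ : ν → Matrix (Fin K) (Fin K) ℂ)
    (x y : ν → Fin K → ℂ) : Matrix κ κ ℂ :=
  Matrix.of fun σ υ => ∑ β, ∑ c, ∑ β', ∑ c',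
          (∑ i, a i σ β * x i c) * (ksum a Γ)⁻¹ (β, c) (β', c') * (∑ i, a i β' υ * y i c')

/-- boundedness of a triple -/
def Bd {K : ℕ} (C : ℝ) (Γ : ν → Matrix (Fin K) (Fin K) ℂ) (x y : ν → Fin K → ℂ) : Prop :=
  (∀ i c c', ‖Γ i c c'‖ ≤ C) ∧ (∀ i c, ‖x i c‖ ≤ C) ∧ (∀ i c, ‖y i c‖ ≤ C)

theorem Bd.mono {K : ℕ} {C C' : ℝ} (h : C ≤ C') {Γ : ν → Matrix (Fin K) (Fin K) ℂ}
    {x y : ν → Fin K → ℂ} (hb : Bd C Γ x y) : Bd C' Γ x y :=
  ⟨fun i c c' => (hb.1 i c c').trans h, fun i c => (hb.2.1 i c).trans h,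
    fun i c => (hb.2.2 i c).trans h⟩

theorem exists_Bd {K : ℕ} (Γ : ν → Matrix (Fin K) (Fin K) ℂ) (x y : ν → Fin K → ℂ) :
    ∃ C : ℝ, 0 < C ∧ Bd C Γ x y := by
  refine ⟨1 + ∑ i, ∑ c, ∑ c', ‖Γ i c c'‖ + ∑ i, ∑ c, ‖x i c‖ + ∑ i, ∑ c, ‖y i c‖, by positivity,
    ?_, ?_, ?_⟩
  · intro i c c'
    have h1 : ‖Γ i c c'‖ ≤ ∑ i, ∑ c, ∑ c', ‖Γ i c c'‖ := by
      refine le_trans ?_ (Finset.single_le_sum (f := fun i => ∑ c, ∑ c', ‖Γ i c c'‖)
        (fun _ _ => by positivity) (Finset.mem_univ i))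
      refine le_trans ?_ (Finset.single_le_sum (f := fun c => ∑ c', ‖Γ i c c'‖)
        (fun _ _ => by positivity) (Finset.mem_univ c))
      exact Finset.single_le_sum (f := fun c' => ‖Γ i c c'‖)
        (fun _ _ => by positivity) (Finset.mem_univ c')
    have h2 : 0 ≤ ∑ i, ∑ c, ‖x i c‖ := by positivity
    have h3 : 0 ≤ ∑ i, ∑ c, ‖y i c‖ := by positivity
    linarith
  · intro i c
    have h1 : ‖x i c‖ ≤ ∑ i, ∑ c, ‖x i c‖ := by
      refine le_trans ?_ (Finset.single_le_sum (f := fun i => ∑ c, ‖x i c‖)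
        (fun _ _ => by positivity) (Finset.mem_univ i))
      exact Finset.single_le_sum (f := fun c => ‖x i c‖)
        (fun _ _ => by positivity) (Finset.mem_univ c)
    have h2 : 0 ≤ ∑ i, ∑ c, ∑ c', ‖Γ i c c'‖ := by positivity
    have h3 : 0 ≤ ∑ i, ∑ c, ‖y i c‖ := by positivity
    linarith
  · intro i c
    have h1 : ‖y i c‖ ≤ ∑ i, ∑ c, ‖y i c‖ := by
      refine le_trans ?_ (Finset.single_le_sum (f := fun i => ∑ c, ‖y i c‖)
        (fun _ _ => by positivity) (Finset.mem_univ i))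
      exact Finset.single_le_sum (f := fun c => ‖y i c‖)
        (fun _ _ => by positivity) (Finset.mem_univ c)
    have h2 : 0 ≤ ∑ i, ∑ c, ∑ c', ‖Γ i c c'‖ := by positivity
    have h3 : 0 ≤ ∑ i, ∑ c, ‖x i c‖ := by positivity
    linarith

/-- uniform detection of a matrix by gadgets -/
def Det (a : ν → Matrix κ κ ℂ) (K : ℕ) (M : Matrix κ κ ℂ) : Prop :=
  ∃ c C : ℝ, 0 < c ∧ 0 < C ∧ ∀ f : Matrix κ κ ℂ →ₗ[ℂ] ℂ,
    ∃ (Γ : ν → Matrix (Fin K) (Fin K) ℂ) (x y : ν → Fin K → ℂ), Bd C Γ x y ∧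
      (ksum a Γ).det ≠ 0 ∧ c ≤ ‖(ksum a Γ).det‖ ∧
      c * ‖f M‖ ≤ ‖(ksum a Γ).det‖ * ‖f (Zg a Γ x y)‖

theorem exists_unit [Nonempty κ] (a : ν → Matrix κ κ ℂ) (K : ℕ)
    (hspan : Submodule.span ℂ {Z : Matrix κ κ ℂ |
      ∃ (Γ : ν → Matrix (Fin K) (Fin K) ℂ) (x y : ν → Fin K → ℂ), (ksum a Γ).det ≠ 0 ∧
        Z = Zg a Γ x y} = ⊤) :
    ∃ Γ : ν → Matrix (Fin K) (Fin K) ℂ, (ksum a Γ).det ≠ 0 := by
  by_contra hcon
  push Not at hcon
  have h1 : {Z : Matrix κ κ ℂ |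
      ∃ (Γ : ν → Matrix (Fin K) (Fin K) ℂ) (x y : ν → Fin K → ℂ), (ksum a Γ).det ≠ 0 ∧
        Z = Zg a Γ x y} = ∅ := by
    ext Z
    simp only [Set.mem_ofPred_eq, Set.mem_empty_iff_false, iff_false]
    rintro ⟨Γ, x, y, h, -⟩
    exact h (hcon Γ)
  rw [h1, Submodule.span_empty] at hspan
  have h2 : (1 : Matrix κ κ ℂ) ∈ (⊥ : Submodule ℂ (Matrix κ κ ℂ)) := by
    rw [hspan]; trivial
  exact one_ne_zero ((Submodule.mem_bot ℂ).1 h2)

theorem det_all [Nonempty κ] (a : ν → Matrix κ κ ℂ) (K : ℕ)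
    (hspan : Submodule.span ℂ {Z : Matrix κ κ ℂ |
      ∃ (Γ : ν → Matrix (Fin K) (Fin K) ℂ) (x y : ν → Fin K → ℂ), (ksum a Γ).det ≠ 0 ∧
        Z = Zg a Γ x y} = ⊤) (M : Matrix κ κ ℂ) : Det a K M := by
  have hM : M ∈ Submodule.span ℂ {Z : Matrix κ κ ℂ |
      ∃ (Γ : ν → Matrix (Fin K) (Fin K) ℂ) (x y : ν → Fin K → ℂ), (ksum a Γ).det ≠ 0 ∧
        Z = Zg a Γ x y} := by rw [hspan]; trivial
  induction hM using Submodule.span_induction with
  | mem Z hZ =>
    obtain ⟨Γ, x, y, h, rfl⟩ := hZ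
    obtain ⟨C, hC, hb⟩ := exists_Bd Γ x y
    refine ⟨‖(ksum a Γ).det‖, C, norm_pos_iff.2 h, hC, fun f => ⟨Γ, x, y, hb, h, le_rfl, le_rfl⟩⟩
  | zero =>
    obtain ⟨Γ, h⟩ := exists_unit a K hspan
    obtain ⟨C, hC, hb⟩ := exists_Bd Γ 0 0
    refine ⟨‖(ksum a Γ).det‖, C, norm_pos_iff.2 h, hC, fun f => ⟨Γ, 0, 0, hb, h, le_rfl, ?_⟩⟩
    rw [map_zero, norm_zero, mul_zero]; positivity
  | add M M' _ _ ih ih' =>
    obtain ⟨c, C, hc, hC, h⟩ := ih
    obtain ⟨c', C', hc', hC', h'⟩ := ih'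
    refine ⟨min c c' / 2, max C C', by positivity, by positivity, fun f => ?_⟩
    have h3 : ‖f (M + M')‖ ≤ ‖f M‖ + ‖f M'‖ := by rw [map_add]; exact norm_add_le _ _
    have h4 : min c c' ≤ c := min_le_left _ _
    have h5 : min c c' ≤ c' := min_le_right _ _
    have h6 : 0 < min c c' := by positivity
    rcases le_total ‖f M‖ ‖f M'‖ with hle | hle
    · obtain ⟨Γ, x, y, hb, hne, hg, hf⟩ := h' f
      refine ⟨Γ, x, y, hb.mono (le_max_right _ _), hne, by linarith, ?_⟩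
      have : min c c' / 2 * ‖f (M + M')‖ ≤ min c c' * ‖f M'‖ := by nlinarith
      have : min c c' * ‖f M'‖ ≤ c' * ‖f M'‖ := mul_le_mul_of_nonneg_right h5 (norm_nonneg _)
      linarith
    · obtain ⟨Γ, x, y, hb, hne, hg, hf⟩ := h f
      refine ⟨Γ, x, y, hb.mono (le_max_left _ _), hne, by linarith, ?_⟩
      have : min c c' / 2 * ‖f (M + M')‖ ≤ min c c' * ‖f M‖ := by nlinarith
      have : min c c' * ‖f M‖ ≤ c * ‖f M‖ := mul_le_mul_of_nonneg_right h4 (norm_nonneg _)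
      linarith
  | smul t M _ ih =>
    obtain ⟨c, C, hc, hC, h⟩ := ih
    refine ⟨c / (1 + ‖t‖), C, by positivity, hC, fun f => ?_⟩
    obtain ⟨Γ, x, y, hb, hne, hg, hf⟩ := h f
    have h1 : c / (1 + ‖t‖) ≤ c := by
      apply div_le_self hc.le
      linarith [norm_nonneg t]
    refine ⟨Γ, x, y, hb, hne, h1.trans hg, le_trans ?_ hf⟩
    rw [map_smul, norm_smul, ← mul_assoc]
    apply mul_le_mul_of_nonneg_right _ (norm_nonneg _)
    rw [div_mul_eq_mul_div, div_le_iff₀ (by positivity)]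
    nlinarith [norm_nonneg t]

theorem det_uniform [Nonempty κ] (a : ν → Matrix κ κ ℂ) (K : ℕ)
    (hspan : Submodule.span ℂ {Z : Matrix κ κ ℂ |
      ∃ (Γ : ν → Matrix (Fin K) (Fin K) ℂ) (x y : ν → Fin K → ℂ), (ksum a Γ).det ≠ 0 ∧
        Z = Zg a Γ x y} = ⊤) :
    ∃ c C : ℝ, 0 < c ∧ 0 < C ∧ ∀ (σ υ : κ) (f : Matrix κ κ ℂ →ₗ[ℂ] ℂ),
    ∃ (Γ : ν → Matrix (Fin K) (Fin K) ℂ) (x y : ν → Fin K → ℂ), Bd C Γ x y ∧
      (ksum a Γ).det ≠ 0 ∧ c ≤ ‖(ksum a Γ).det‖ ∧
      c * ‖f (Matrix.single σ υ 1)‖ ≤ ‖(ksum a Γ).det‖ * ‖f (Zg a Γ x y)‖ := by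
  have h := fun (p : κ × κ) => det_all a K hspan (Matrix.single p.1 p.2 1)
  unfold Det at h
  choose c C hc hC h using h
  have hpos : 0 < Finset.univ.inf' Finset.univ_nonempty c := by
    rw [Finset.lt_inf'_iff]
    intro p _
    exact hc p
  refine ⟨Finset.univ.inf' Finset.univ_nonempty c, Finset.univ.sup' Finset.univ_nonempty C,
    hpos, ?_, ?_⟩
  · exact (hC (Classical.arbitrary _)).trans_le (Finset.le_sup' C (Finset.mem_univ _))
  · intro σ υ f
    obtain ⟨Γ, x, y, hb, hne, hg, hf⟩ := h (σ, υ) f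
    have h1 : Finset.univ.inf' Finset.univ_nonempty c ≤ c (σ, υ) :=
      Finset.inf'_le c (Finset.mem_univ _)
    refine ⟨Γ, x, y, hb.mono (Finset.le_sup' C (Finset.mem_univ _)), hne, h1.trans hg, ?_⟩
    exact (mul_le_mul_of_nonneg_right h1 (norm_nonneg _)).trans hf

/-- the extended matrices -/
noncomputable def ext {ι : Type*} [DecidableEq ι] {K : ℕ} (X : ν → Matrix ι ι ℂ) (k l : ι) (τ : ℂ)
    (Γ : ν → Matrix (Fin K) (Fin K) ℂ) (x y : ν → Fin K → ℂ) (i : ν) :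
    Matrix (ι ⊕ Fin K) (ι ⊕ Fin K) ℂ :=
  Matrix.fromBlocks (X i) (Matrix.of fun p c => if p = k then -(τ * x i c) else 0)
    (Matrix.of fun c p => if p = l then y i c else 0) (Γ i)

/-- spreading a gadget matrix to the minor -/
noncomputable def spread {ρ ι : Type*} [DecidableEq ι] (r s : ρ → κ × ι) (k l : ι) :
    Matrix κ κ ℂ →ₗ[ℂ] Matrix ρ ρ ℂ where
  toFun Z := Matrix.of fun p p' => if (r p).2 = k ∧ (s p').2 = l then Z (r p).1 (s p').1 else 0
  map_add' Z Z' := by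
    ext p p'
    simp only [Matrix.of_apply, Matrix.add_apply]
    split_ifs <;> simp
  map_smul' t Z := by
    ext p p'
    simp only [Matrix.of_apply, Matrix.smul_apply, smul_eq_mul, RingHom.id_apply, mul_ite, mul_zero]

theorem spread_apply {ρ ι : Type*} [DecidableEq ι] (r s : ρ → κ × ι) (k l : ι)
    (Z : Matrix κ κ ℂ) (p p' : ρ) :
    spread r s k l Z p p' = if (r p).2 = k ∧ (s p').2 = l then Z (r p).1 (s p').1 else 0 := rfl

/-- the new rows -/
def newr {ρ ι : Type*} (K : ℕ) (r : ρ → κ × ι) : ρ ⊕ (κ × Fin K) → κ × (ι ⊕ Fin K)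
  | Sum.inl p => ((r p).1, Sum.inl (r p).2)
  | Sum.inr c => (c.1, Sum.inr c.2)

theorem sum_rearr {K : ℕ} (u v : κ → Fin K → ℂ) (D : (κ × Fin K) → (κ × Fin K) → ℂ) (τ : ℂ) :
    -(∑ z : κ × Fin K, (∑ w : κ × Fin K, -(τ * u w.1 w.2) * D w z) * v z.1 z.2)
      = τ * ∑ β, ∑ c, ∑ β', ∑ c', u β c * D (β, c) (β', c') * v β' c' := by
  have h1 : ∀ β c, ∑ β', ∑ c', u β c * D (β, c) (β', c') * v β' c'
      = ∑ z : κ × Fin K, u β c * D (β, c) z * v z.1 z.2 := by
    intro β c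
    rw [Fintype.sum_prod_type]
  simp_rw [h1]
  have h2 : ∑ β, ∑ c, ∑ z : κ × Fin K, u β c * D (β, c) z * v z.1 z.2
      = ∑ w : κ × Fin K, ∑ z : κ × Fin K, u w.1 w.2 * D w z * v z.1 z.2 := by
    rw [Fintype.sum_prod_type (f := fun w : κ × Fin K =>
      ∑ z : κ × Fin K, u w.1 w.2 * D w z * v z.1 z.2)]
  rw [h2, Finset.sum_comm, ← Finset.sum_neg_distrib, Finset.mul_sum]
  refine Finset.sum_congr rfl fun z _ => ?_
  rw [Finset.sum_mul, ← Finset.sum_neg_distrib, Finset.mul_sum]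
  refine Finset.sum_congr rfl fun w _ => ?_
  ring

theorem submatrix_ext {ρ ι : Type*} [Fintype ρ] [DecidableEq ρ] [Fintype ι] [DecidableEq ι] {K : ℕ}
    (a : ν → Matrix κ κ ℂ) (X : ν → Matrix ι ι ℂ) (k l : ι) (τ : ℂ)
    (Γ : ν → Matrix (Fin K) (Fin K) ℂ) (x y : ν → Fin K → ℂ) (r s : ρ → κ × ι)
    (hΓ : (ksum a Γ).det ≠ 0) :
    ((ksum a (ext X k l τ Γ x y)).submatrix (newr K r) (newr K s)).det
      = (ksum a Γ).det * ((ksum a X).submatrix r s + τ • spread r s k l (Zg a Γ x y)).det := by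
  set B : Matrix ρ (κ × Fin K) ℂ := Matrix.of fun p c =>
    if (r p).2 = k then -(τ * ∑ i, a i (r p).1 c.1 * x i c.2) else 0 with hB
  set Cc : Matrix (κ × Fin K) ρ ℂ := Matrix.of fun c p =>
    if (s p).2 = l then ∑ i, a i c.1 (s p).1 * y i c.2 else 0 with hC
  have h1 : (ksum a (ext X k l τ Γ x y)).submatrix (newr K r) (newr K s)
      = Matrix.fromBlocks ((ksum a X).submatrix r s) B Cc (ksum a Γ) := by
    ext i j
    rcases i with i | i <;> rcases j with j | j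
    · simp [newr, ksum_apply, ext]
    · simp only [newr, ksum_apply, ext, Matrix.submatrix_apply, Matrix.fromBlocks_apply₁₂,
        Matrix.of_apply, hB]
      split_ifs
      · rw [Finset.mul_sum, ← Finset.sum_neg_distrib]
        refine Finset.sum_congr rfl fun c _ => ?_
        ring
      · simp
    · simp only [newr, ksum_apply, ext, Matrix.submatrix_apply, Matrix.fromBlocks_apply₂₁,
        Matrix.of_apply, hC]
      split_ifs
      · rfl
      · simp
    · simp [newr, ksum_apply, ext]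
  have hu : IsUnit (ksum a Γ).det := isUnit_iff_ne_zero.2 hΓ
  let _ := Matrix.invertibleOfIsUnitDet _ hu
  rw [h1, Matrix.det_fromBlocks₂₂]
  congr 2
  rw [sub_eq_add_neg]
  congr 1
  ext p p'
  rw [Matrix.neg_apply, Matrix.smul_apply, spread_apply, Matrix.invOf_eq_nonsing_inv]
  simp only [Matrix.mul_apply, hB, hC, Matrix.of_apply]
  by_cases h2 : (r p).2 = k
  · by_cases h3 : (s p').2 = l
    · simp only [h2, h3, if_true, and_self, smul_eq_mul, Zg, Matrix.of_apply]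
      exact sum_rearr (fun β c => ∑ i, a i (r p).1 β * x i c)
        (fun β' c' => ∑ i, a i β' (s p').1 * y i c') (fun w z => (ksum a Γ)⁻¹ w z) τ
    · simp [h3]
  · simp [h2]

theorem norm_det_submatrix_equiv {n m : Type*} [Fintype n] [DecidableEq n] [Fintype m]
    [DecidableEq m] (e₁ e₂ : n ≃ m) (A : Matrix m m ℂ) :
    ‖(A.submatrix e₁ e₂).det‖ = ‖A.det‖ := by
  have hee : e₂ = e₁.trans (e₁.symm.trans e₂) := by ext; simp
  rw [hee]
  change ‖((A.submatrix id (e₁.symm.trans e₂)).submatrix e₁ e₁).det‖ = ‖A.det‖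
  rw [Matrix.det_submatrix_equiv_self, Matrix.det_permute', norm_mul]
  rcases Int.units_eq_one_or (Equiv.Perm.sign (e₁.symm.trans e₂)) with h | h <;> simp [h]

theorem injective_of_det_ne_zero {ρ μ : Type*} [Fintype ρ] [DecidableEq ρ] (M : Matrix μ μ ℂ)
    (r s : ρ → μ) (h : (M.submatrix r s).det ≠ 0) :
    Function.Injective r ∧ Function.Injective s := by
  constructor
  · intro p p' hpp
    by_contra hne
    apply h
    apply Matrix.det_zero_of_row_eq hne
    funext z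
    simp [hpp]
  · intro p p' hpp
    by_contra hne
    apply h
    apply Matrix.det_zero_of_column_eq hne
    intro z
    simp [hpp]

universe u v

theorem step {κ : Type u} {ν : Type v} [Fintype κ] [DecidableEq κ] [Fintype ν] [Nonempty κ]
    (a : ν → Matrix κ κ ℂ) (K : ℕ) (c C : ℝ) (hC : 0 < C)
    (huni : ∀ (σ υ : κ) (f : Matrix κ κ ℂ →ₗ[ℂ] ℂ),
      ∃ (Γ : ν → Matrix (Fin K) (Fin K) ℂ) (x y : ν → Fin K → ℂ), Bd C Γ x y ∧
        (ksum a Γ).det ≠ 0 ∧ c ≤ ‖(ksum a Γ).det‖ ∧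
        c * ‖f (Matrix.single σ υ 1)‖ ≤ ‖(ksum a Γ).det‖ * ‖f (Zg a Γ x y)‖)
    {ρ : Type u} {ι : Type} [Fintype ρ] [DecidableEq ρ] [Fintype ι] [DecidableEq ι]
    (X : ν → Matrix ι ι ℂ) (r s : ρ → κ × ι) (q : ℕ)
    (hcard : Fintype.card (κ × ι) ≤ Fintype.card ρ + (q + 1))
    (hdet : ((ksum a X).submatrix r s).det ≠ 0) :
    ∃ (ρ' : Type u) (_ : Fintype ρ') (_ : DecidableEq ρ')
      (X' : ν → Matrix (ι ⊕ Fin K) (ι ⊕ Fin K) ℂ) (r' s' : ρ' → κ × (ι ⊕ Fin K)),
      Fintype.card (κ × (ι ⊕ Fin K)) ≤ Fintype.card ρ' + q ∧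
      (∀ i, (X' i).toBlocks₁₁ = X i) ∧ (∀ i x y, (x.isRight ∨ y.isRight) → ‖X' i x y‖ ≤ C) ∧
      c * ‖((ksum a X).submatrix r s).det‖ ≤ ‖((ksum a X').submatrix r' s').det‖ := by
  obtain ⟨hri, hsi⟩ := injective_of_det_ne_zero _ r s hdet
  by_cases hr : Function.Surjective r
  · obtain ⟨Γ, x, y, hb, hne, hg, -⟩ := huni (Classical.arbitrary _) (Classical.arbitrary _) 0
    refine ⟨ρ ⊕ (κ × Fin K), inferInstance, inferInstance,
      fun i => Matrix.fromBlocks (X i) 0 0 (Γ i), newr K r, newr K s, ?_, ?_, ?_, ?_⟩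
    · have := Fintype.card_le_of_surjective r hr
      simp only [Fintype.card_prod, Fintype.card_sum, Fintype.card_fin, Nat.mul_add] at this ⊢
      omega
    · intro i
      exact Matrix.toBlocks_fromBlocks₁₁ _ _ _ _
    · intro i x y hxy
      rcases x with x | x <;> rcases y with y | y
      · simp at hxy
      · simpa using hC.le
      · simpa using hC.le
      · simpa using hb.1 i x y
    · have h1 : (ksum a (fun i => Matrix.fromBlocks (X i) 0 0 (Γ i))).submatrix (newr K r) (newr K s)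
          = Matrix.fromBlocks ((ksum a X).submatrix r s) 0 0 (ksum a Γ) := by
        ext i j
        rcases i with i | i <;> rcases j with j | j <;> simp [newr, ksum_apply]
      rw [h1, Matrix.det_fromBlocks_zero₁₂, norm_mul, mul_comm]
      exact mul_le_mul_of_nonneg_left hg (norm_nonneg _)
  · have hcr : Fintype.card ρ < Fintype.card (κ × ι) :=
      Fintype.card_lt_of_injective_not_surjective r hri hr
    have hs : ¬ Function.Surjective s := fun h =>
      absurd (Fintype.card_le_of_surjective s h) (not_le.2 hcr)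
    unfold Function.Surjective at hr hs
    push Not at hr hs
    obtain ⟨⟨σ, k⟩, hσ⟩ := hr
    obtain ⟨⟨υ, l⟩, hυ⟩ := hs
    set r₁ : ρ ⊕ Unit → κ × ι := Sum.elim r (fun _ => (σ, k)) with hr₁
    set s₁ : ρ ⊕ Unit → κ × ι := Sum.elim s (fun _ => (υ, l)) with hs₁
    set A := (ksum a X).submatrix r₁ s₁ with hA
    have hsp : spread r₁ s₁ k l (Matrix.single σ υ 1)
        = Matrix.single (Sum.inr ()) (Sum.inr ()) 1 := by
      ext p p'
      rw [spread_apply, Matrix.single_apply, Matrix.single_apply]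
      rcases p with p | p
      · have h1 : ¬ ((r₁ (Sum.inl p)).2 = k ∧ σ = (r₁ (Sum.inl p)).1) := by
          rintro ⟨h1, h2⟩
          exact hσ p (Prod.ext h2.symm h1)
        simp only [reduceCtorEq, false_and, if_false]
        split_ifs with h2 h3
        · exact absurd ⟨h2.1, h3.1⟩ h1
        · rfl
        · rfl
      · rcases p' with p' | p'
        · have h1 : ¬ ((s₁ (Sum.inl p')).2 = l ∧ υ = (s₁ (Sum.inl p')).1) := by
            rintro ⟨h1, h2⟩
            exact hυ p' (Prod.ext h2.symm h1)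
          simp only [reduceCtorEq, and_false, if_false]
          split_ifs with h2 h3
          · exact absurd ⟨h2.2, h3.2⟩ h1
          · rfl
          · rfl
        · simp [hr₁, hs₁]
    obtain ⟨Γ, x, y, hb, hne, hg, hf⟩ := huni σ υ (fv A ∘ₗ spread r₁ s₁ k l)
    rw [LinearMap.comp_apply, LinearMap.comp_apply, hsp, fv_single] at hf
    obtain ⟨τ, hτ, hle⟩ := exists_tau A (spread r₁ s₁ k l (Zg a Γ x y))
    refine ⟨(ρ ⊕ Unit) ⊕ (κ × Fin K), inferInstance, inferInstance,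
      ext X k l τ Γ x y, newr K r₁, newr K s₁, ?_, ?_, ?_, ?_⟩
    · simp only [Fintype.card_prod, Fintype.card_sum, Fintype.card_fin, Nat.mul_add,
        Fintype.card_unit] at hcard ⊢
      omega
    · intro i
      exact Matrix.toBlocks_fromBlocks₁₁ _ _ _ _
    · intro i x' y' hxy
      unfold ext
      rcases x' with x' | x' <;> rcases y' with y' | y'
      · simp at hxy
      · rw [Matrix.fromBlocks_apply₁₂, Matrix.of_apply]
        split_ifs
        · rw [norm_neg, norm_mul, hτ, one_mul]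
          exact hb.2.1 i y'
        · simpa using hC.le
      · rw [Matrix.fromBlocks_apply₂₁, Matrix.of_apply]
        split_ifs
        · exact hb.2.2 i x'
        · simpa using hC.le
      · rw [Matrix.fromBlocks_apply₂₂]
        exact hb.1 i x' y'
    · rw [submatrix_ext a X k l τ Γ x y r₁ s₁ hne, norm_mul]
      have h2 : A.toBlocks₁₁ = (ksum a X).submatrix r s := by
        ext p p'
        rfl
      rw [h2] at hf
      exact hf.trans (mul_le_mul_of_nonneg_left hle (norm_nonneg _))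

theorem det_ksum_reindex {κ : Type*} {ν : Type*} [Fintype κ] [DecidableEq κ] [Fintype ν]
    (a : ν → Matrix κ κ ℂ) {ι μ : Type*} [Fintype ι] [DecidableEq ι] [Fintype μ] [DecidableEq μ]
    (X : ν → Matrix ι ι ℂ) (e : μ ≃ ι) :
    (ksum a (fun i => (X i).submatrix e e)).det = (ksum a X).det := by
  have h1 : ksum a (fun i => (X i).submatrix e e)
      = (ksum a X).submatrix ((Equiv.refl κ).prodCongr e) ((Equiv.refl κ).prodCongr e) := by
    ext x y
    simp [ksum_apply]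
  rw [h1, Matrix.det_submatrix_equiv_self]

theorem main_ind {κ : Type u} {ν : Type v} [Fintype κ] [DecidableEq κ] [Fintype ν] [Nonempty κ]
    (a : ν → Matrix κ κ ℂ) (K : ℕ) (c C : ℝ) (hc : 0 < c) (hC : 0 < C)
    (huni : ∀ (σ υ : κ) (f : Matrix κ κ ℂ →ₗ[ℂ] ℂ),
      ∃ (Γ : ν → Matrix (Fin K) (Fin K) ℂ) (x y : ν → Fin K → ℂ), Bd C Γ x y ∧
        (ksum a Γ).det ≠ 0 ∧ c ≤ ‖(ksum a Γ).det‖ ∧
        c * ‖f (Matrix.single σ υ 1)‖ ≤ ‖(ksum a Γ).det‖ * ‖f (Zg a Γ x y)‖) (q : ℕ) :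
    ∀ (ρ : Type u) (ι : Type) [Fintype ρ] [DecidableEq ρ] [Fintype ι] [DecidableEq ι]
    (X : ν → Matrix ι ι ℂ) (r s : ρ → κ × ι),
    Fintype.card (κ × ι) ≤ Fintype.card ρ + q →
    ∃ X' : ν → Matrix (ι ⊕ Fin (K * q)) (ι ⊕ Fin (K * q)) ℂ,
        (∀ i, (X' i).toBlocks₁₁ = X i) ∧
        (∀ i x y, (x.isRight ∨ y.isRight) → ‖X' i x y‖ ≤ C) ∧
        c ^ q * ‖((ksum a X).submatrix r s).det‖ ≤ ‖(ksum a X').det‖ := by
  induction q with
  | zero =>
    intro ρ ι _ _ _ _ X r s hcard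
    refine ⟨fun i => Matrix.fromBlocks (X i) 0 0 0, fun i => Matrix.toBlocks_fromBlocks₁₁ _ _ _ _,
      ?_, ?_⟩
    · intro i x y hxy
      rcases x with x | x
      · rcases y with y | y
        · simp at hxy
        · exact absurd y.2 (by simp)
      · exact absurd x.2 (by simp)
    · by_cases hdet : ((ksum a X).submatrix r s).det = 0
      · rw [hdet, norm_zero, mul_zero]; positivity
      · obtain ⟨hri, hsi⟩ := injective_of_det_ne_zero _ r s hdet
        rw [add_zero] at hcard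
        have hcr : Fintype.card ρ = Fintype.card (κ × ι) :=
          le_antisymm (Fintype.card_le_of_injective r hri) hcard
        have hrb := (Fintype.bijective_iff_injective_and_card r).2 ⟨hri, hcr⟩
        have hsb := (Fintype.bijective_iff_injective_and_card s).2 ⟨hsi, hcr⟩
        rw [pow_zero, one_mul]
        have h1 : (ksum a X).submatrix r s = (ksum a X).submatrix
          (Equiv.ofBijective r hrb) (Equiv.ofBijective s hsb) := rfl
        rw [h1, norm_det_submatrix_equiv]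
        have : IsEmpty (Fin (K * 0)) := by rw [Nat.mul_zero]; infer_instance
        let e : ι ≃ ι ⊕ Fin (K * 0) := (Equiv.sumEmpty ι (Fin (K * 0))).symm
        rw [← det_ksum_reindex a _ e]
        exact le_of_eq rfl
  | succ q ih =>
    intro ρ ι _ _ _ _ X r s hcard
    by_cases hdet : ((ksum a X).submatrix r s).det = 0
    · refine ⟨fun i => Matrix.fromBlocks (X i) 0 0 0,
        fun i => Matrix.toBlocks_fromBlocks₁₁ _ _ _ _, ?_, ?_⟩
      · intro i x y hxy
        rcases x with x | x <;> rcases y with y | y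
        · simp at hxy
        · simpa using hC.le
        · simpa using hC.le
        · simpa using hC.le
      · rw [hdet, norm_zero, mul_zero]; positivity
    · obtain ⟨ρ', _, _, X₁, r', s', hcard', hX₁, hb₁, hd₁⟩ :=
        step a K c C hC huni X r s q hcard hdet
      obtain ⟨X₂, hX₂, hb₂, hd₂⟩ := ih ρ' (ι ⊕ Fin K) X₁ r' s' hcard'
      let e₀ : Fin (K * (q + 1)) ≃ Fin K ⊕ Fin (K * q) :=
        (finCongr (by ring)).trans (finSumFinEquiv (m := K) (n := K * q)).symm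
      let e : ι ⊕ Fin (K * (q + 1)) ≃ (ι ⊕ Fin K) ⊕ Fin (K * q) :=
        ((Equiv.refl ι).sumCongr e₀).trans (Equiv.sumAssoc ι (Fin K) (Fin (K * q))).symm
      have hel : ∀ x : ι, e (Sum.inl x) = Sum.inl (Sum.inl x) := fun x => rfl
      have her : ∀ z : Fin (K * (q + 1)), (∃ w, e (Sum.inr z) = Sum.inl (Sum.inr w)) ∨
          (∃ w, e (Sum.inr z) = Sum.inr w) := by
        intro z
        rcases h : e₀ z with w | w
        · left
          refine ⟨w, ?_⟩
          simp [e, h]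
        · right
          refine ⟨w, ?_⟩
          simp [e, h]
      have hb₁' : ∀ i x y, (x.isRight ∨ y.isRight) → ‖X₂ i (Sum.inl x) (Sum.inl y)‖ ≤ C := by
        intro i x y hxy
        have : X₂ i (Sum.inl x) (Sum.inl y) = X₁ i x y := by rw [← hX₂ i]; rfl
        rw [this]
        exact hb₁ i x y hxy
      refine ⟨fun i => (X₂ i).submatrix e e, ?_, ?_, ?_⟩
      · intro i
        rw [← hX₁ i, ← hX₂ i]
        ext x y
        rfl
      · intro i x y hxy
        change ‖X₂ i (e x) (e y)‖ ≤ C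
        rcases x with x | x <;> rcases y with y | y
        · simp at hxy
        · rw [hel]
          rcases her y with ⟨w, hw⟩ | ⟨w, hw⟩
          · rw [hw]; exact hb₁' _ _ _ (by simp)
          · rw [hw]; exact hb₂ _ _ _ (by simp)
        · rw [hel]
          rcases her x with ⟨w, hw⟩ | ⟨w, hw⟩
          · rw [hw]; exact hb₁' _ _ _ (by simp)
          · rw [hw]; exact hb₂ _ _ _ (by simp)
        · rcases her x with ⟨w, hw⟩ | ⟨w, hw⟩
          · rcases her y with ⟨w', hw'⟩ | ⟨w', hw'⟩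
            · rw [hw, hw']; exact hb₁' _ _ _ (by simp)
            · rw [hw, hw']; exact hb₂ _ _ _ (by simp)
          · rw [hw]; exact hb₂ _ _ _ (by simp)
      · rw [det_ksum_reindex]
        refine le_trans ?_ hd₂
        rw [pow_succ, mul_assoc]
        exact mul_le_mul_of_nonneg_left hd₁ (by positivity)

/-- (A) deterministic extension: fresh indices turn a minor of codimension `≤ q` into a full determinant -/
theorem extend {κ ν : Type*} [Fintype κ] [DecidableEq κ] [Fintype ν] [Nonempty κ]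
    (a : ν → Matrix κ κ ℂ) (K : ℕ) (hK : 0 < K)
    (hspan : Submodule.span ℂ {Z : Matrix κ κ ℂ |
      ∃ (Γ : ν → Matrix (Fin K) (Fin K) ℂ) (x y : ν → Fin K → ℂ), (ksum a Γ).det ≠ 0 ∧
        Z = Matrix.of fun σ υ => ∑ β, ∑ c, ∑ β', ∑ c',
          (∑ i, a i σ β * x i c) * (ksum a Γ)⁻¹ (β, c) (β', c') * (∑ i, a i β' υ * y i c')} = ⊤) :
    ∃ c C : ℝ, 0 < c ∧ 0 < C ∧ ∀ (q : ℕ) (ι : Type) [Fintype ι] [DecidableEq ι]
      (X : ν → Matrix ι ι ℂ) (R S : Finset (κ × ι)) (e : R ≃ S),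
      Fintype.card (κ × ι) ≤ R.card + q →
      ∃ X' : ν → Matrix (ι ⊕ Fin (K * q)) (ι ⊕ Fin (K * q)) ℂ,
        (∀ i, (X' i).toBlocks₁₁ = X i) ∧
        (∀ i x y, (x.isRight ∨ y.isRight) → ‖X' i x y‖ ≤ C) ∧
        c ^ q * ‖(Matrix.of fun (i j : R) => ksum a X i (e j)).det‖ ≤ ‖(ksum a X').det‖ := by
  obtain ⟨c, C, hc, hC, huni⟩ := det_uniform a K hspan
  refine ⟨c, C, hc, hC, ?_⟩
  intro q ι _ _ X R S e hcard
  have h := main_ind a K c C hc hC huni q R ι X (fun i => (i : κ × ι)) (fun j => (e j : κ × ι))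
    (by rw [Fintype.card_coe]; exact hcard)
  exact h

end Pool.Agent.helper75.Extend
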