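import Mathlib

set_option autoImplicit false
open scoped Matrix ComplexOrder

namespace Pool.Agent.helper75.LargeMinor

variable {ι μ : Type*} [Fintype ι] [DecidableEq ι] [Fintype μ]

/-- first form of Cauchy–Binet -/
lemma det_mul_conjTranspose_eq (A : Matrix ι μ ℂ) :
    (A * Aᴴ).det = ∑ f : ι → μ, (∏ i, star (A i (f i))) * (A.submatrix id f).det := by
  classical
  rw [Matrix.det_apply']
  have h1 : ∀ σ : Equiv.Perm ι, ∏ i, (A * Aᴴ) (σ i) i =
      ∑ f : ι → μ, ∏ i, (A (σ i) (f i) * star (A i (f i))) := by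
    intro σ
    have h0 := Finset.prod_univ_sum (fun _ : ι => (Finset.univ : Finset μ))
      (fun i m => A (σ i) m * star (A i m))
    rw [Fintype.piFinset_univ] at h0
    rw [← h0]
    rfl
  simp_rw [h1, Finset.mul_sum]
  rw [Finset.sum_comm]
  refine Finset.sum_congr rfl fun f _ => ?_
  rw [Matrix.det_apply', Finset.mul_sum]
  refine Finset.sum_congr rfl fun σ _ => ?_
  rw [Finset.prod_mul_distrib]
  simp only [Matrix.submatrix_apply, id]
  ring

/-- symmetric form of Cauchy–Binet -/
lemma cauchy_binet (A : Matrix ι μ ℂ) :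
    ((Fintype.card ι).factorial : ℂ) * (A * Aᴴ).det =
      ∑ f : ι → μ, ((‖(A.submatrix id f).det‖ ^ 2 : ℝ) : ℂ) := by
  classical
  have h2 : ∀ τ : Equiv.Perm ι, (A * Aᴴ).det = ∑ f : ι → μ,
      (((Equiv.Perm.sign τ : ℤˣ) : ℤ) : ℂ) * (∏ i, star (A i (f (τ i)))) *
        (A.submatrix id f).det := by
    intro τ
    rw [det_mul_conjTranspose_eq]
    refine Fintype.sum_equiv (Equiv.arrowCongr τ (Equiv.refl μ)) _ _ ?_
    intro f
    have e1 : ∀ i, (Equiv.arrowCongr τ (Equiv.refl μ) f) (τ i) = f i := by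
      intro i
      simp [Equiv.arrowCongr]
    simp only [e1]
    have e2 : (A.submatrix id f) = (A.submatrix id (Equiv.arrowCongr τ (Equiv.refl μ) f)).submatrix
        id τ := by
      ext i j
      simp [e1]
    rw [e2, Matrix.det_permute']
    ring
  have h3 : ∑ τ : Equiv.Perm ι, (A * Aᴴ).det = ((Fintype.card ι).factorial : ℂ) * (A * Aᴴ).det := by
    rw [Finset.sum_const, Finset.card_univ, Fintype.card_perm, nsmul_eq_mul]
  rw [← h3, Finset.sum_congr rfl fun τ _ => h2 τ, Finset.sum_comm]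
  refine Finset.sum_congr rfl fun f _ => ?_
  rw [← Finset.sum_mul]
  have h4 : ∑ τ : Equiv.Perm ι, (((Equiv.Perm.sign τ : ℤˣ) : ℤ) : ℂ) *
      (∏ i, star (A i (f (τ i)))) = star (A.submatrix id f).det := by
    rw [← Matrix.det_transpose, Matrix.det_apply', star_sum]
    refine Finset.sum_congr rfl fun τ _ => ?_
    rw [star_mul', star_prod]
    congr 1
    simp
  rw [h4, Complex.ofReal_pow, ← Complex.conj_mul']
  rfl

/-- `det H ≤ exp (tr H - card)` for positive semidefinite `H` -/
lemma det_le_exp_trace {H : Matrix ι ι ℂ} (hH : H.PosSemidef) :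
    H.det.re ≤ Real.exp (H.trace.re - Fintype.card ι) := by
  have h1 := hH.isHermitian.det_eq_prod_eigenvalues
  have h2 := hH.isHermitian.trace_eq_sum_eigenvalues
  have h3 : H.det.re = ∏ i, hH.isHermitian.eigenvalues i := by
    rw [h1]
    have : (∏ i, ((hH.isHermitian.eigenvalues i : ℝ) : ℂ)) =
      ((∏ i, hH.isHermitian.eigenvalues i : ℝ) : ℂ) := by push_cast; rfl
    exact (congrArg Complex.re this).trans (Complex.ofReal_re _)
  have h4 : H.trace.re = ∑ i, hH.isHermitian.eigenvalues i := by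
    rw [h2]
    have : (∑ i, ((hH.isHermitian.eigenvalues i : ℝ) : ℂ)) =
      ((∑ i, hH.isHermitian.eigenvalues i : ℝ) : ℂ) := by push_cast; rfl
    exact (congrArg Complex.re this).trans (Complex.ofReal_re _)
  rw [h3, h4]
  have h5 : (∑ i, hH.isHermitian.eigenvalues i) - Fintype.card ι =
      ∑ i, (hH.isHermitian.eigenvalues i - 1) := by
    rw [Finset.sum_sub_distrib]; simp
  rw [h5, Real.exp_sum]
  refine Finset.prod_le_prod (fun i _ => hH.eigenvalues_nonneg i) fun i _ => ?_
  have := Real.add_one_le_exp (hH.isHermitian.eigenvalues i - 1)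
  linarith

/-- the matrix `[B | s 1]` -/
noncomputable def aug (B : Matrix ι ι ℂ) (s : ℝ) : Matrix ι (ι ⊕ ι) ℂ :=
  Matrix.fromCols B ((s : ℂ) • (1 : Matrix ι ι ℂ))

lemma aug_mul (B : Matrix ι ι ℂ) (s : ℝ) :
    aug B s * (aug B s)ᴴ = B * Bᴴ + ((s : ℂ) ^ 2) • (1 : Matrix ι ι ℂ) := by
  rw [aug, Matrix.conjTranspose_fromCols_eq_fromRows_conjTranspose, Matrix.fromCols_mul_fromRows]
  congr 1
  rw [Matrix.conjTranspose_smul, Matrix.conjTranspose_one, Matrix.smul_mul, Matrix.one_mul,
    smul_smul]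
  congr 1
  simp [sq]

/-- number of columns taken from the right half -/
def nr (f : ι → ι ⊕ ι) : ℕ := (Finset.univ.filter fun j => (f j).isRight = true).card

/-- weights -/
noncomputable def w (B : Matrix ι ι ℂ) (s : ℝ) (f : ι → ι ⊕ ι) : ℝ :=
  ‖((aug B s).submatrix id f).det‖ ^ 2

lemma w_nonneg (B : Matrix ι ι ℂ) (s : ℝ) (f : ι → ι ⊕ ι) : 0 ≤ w B s f := by
  unfold w; positivity

lemma w_scale (B : Matrix ι ι ℂ) (s : ℝ) (f : ι → ι ⊕ ι) :
    w B (Real.sqrt 2 * s) f = 2 ^ (nr f) * w B s f := by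
  classical
  have h1 : (aug B (Real.sqrt 2 * s)).submatrix id f = Matrix.of fun i j =>
      (if (f j).isRight = true then ((Real.sqrt 2 : ℝ) : ℂ) else 1) *
        ((aug B s).submatrix id f) i j := by
    ext i j
    rw [Matrix.of_apply]
    simp only [Matrix.submatrix_apply, id, aug]
    cases hf : f j with
    | inl c => simp
    | inr c => simp [mul_assoc]
  rw [w, h1, Matrix.det_mul_row, norm_mul, mul_pow, norm_prod, ← Finset.prod_pow, w]
  congr 1
  rw [nr, ← Finset.prod_const, Finset.prod_filter]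
  refine Finset.prod_congr rfl fun j _ => ?_
  split_ifs
  · rw [Complex.norm_real, Real.norm_eq_abs, sq_abs, Real.sq_sqrt (by norm_num)]
  · simp

lemma posDef_aux (B : Matrix ι ι ℂ) (s : ℝ) (hs : 0 < s) :
    (B * Bᴴ + ((s : ℂ) ^ 2) • (1 : Matrix ι ι ℂ)).PosDef := by
  have h1 : (B * Bᴴ).PosSemidef := Matrix.posSemidef_self_mul_conjTranspose B
  have h2 : (((s : ℂ) ^ 2) • (1 : Matrix ι ι ℂ)).PosDef := by
    have : (0 : ℂ) < (s : ℂ) ^ 2 := by
      rw [← Complex.ofReal_pow, Complex.zero_lt_real]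
      positivity
    exact Matrix.PosDef.smul Matrix.PosDef.one this
  exact Matrix.PosDef.posSemidef_add h1 h2

lemma det_double (M : Matrix ι ι ℂ) (hM : M.PosDef) (t : ℝ) (ht : 0 ≤ t) :
    (M + (t : ℂ) • (1 : Matrix ι ι ℂ)).det.re ≤
      Real.exp (t * (M⁻¹).trace.re) * M.det.re := by
  have hu : IsUnit M.det := hM.det_pos.ne'.isUnit
  have h1 : M + (t : ℂ) • (1 : Matrix ι ι ℂ) = M * (1 + (t : ℂ) • M⁻¹) := by
    rw [Matrix.mul_add, Matrix.mul_one, Matrix.mul_smul, Matrix.mul_nonsing_inv _ hu]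
  have h2 : (1 + (t : ℂ) • M⁻¹ : Matrix ι ι ℂ).PosSemidef := by
    refine Matrix.PosSemidef.add Matrix.PosSemidef.one ?_
    exact Matrix.PosSemidef.smul hM.inv.posSemidef (by exact_mod_cast ht)
  have h3 := det_le_exp_trace h2
  have h4 : (1 + (t : ℂ) • M⁻¹ : Matrix ι ι ℂ).trace.re - Fintype.card ι =
      t * (M⁻¹).trace.re := by
    rw [Matrix.trace_add, Matrix.trace_one, Matrix.trace_smul, smul_eq_mul, Complex.add_re,
      Complex.re_ofReal_mul]
    simp
  rw [h4] at h3
  have h5 := hM.det_pos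
  rw [Complex.pos_iff] at h5
  rw [h1, Matrix.det_mul, Complex.mul_re, ← h5.2, zero_mul, sub_zero, mul_comm]
  exact mul_le_mul_of_nonneg_right h3 h5.1.le

lemma sum_w (B : Matrix ι ι ℂ) (s : ℝ) :
    ((Fintype.card ι).factorial : ℝ) *
      (B * Bᴴ + ((s : ℂ) ^ 2) • (1 : Matrix ι ι ℂ)).det.re = ∑ f : ι → ι ⊕ ι, w B s f := by
  have h1 := cauchy_binet (aug B s)
  rw [aug_mul] at h1
  have h2 := congrArg Complex.re h1
  rw [← Complex.ofReal_sum, Complex.ofReal_re, ← Complex.ofReal_natCast,
    Complex.re_ofReal_mul] at h2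
  exact h2

/-- at least half of the weight is on functions with few right columns -/
lemma half_weight (B : Matrix ι ι ℂ) (s : ℝ) (hs : 0 < s) (q : ℕ)
    (hq : 2 * (s ^ 2 * ((B * Bᴴ + ((s : ℂ) ^ 2) • (1 : Matrix ι ι ℂ))⁻¹).trace.re) ≤ q) :
    ((Fintype.card ι).factorial : ℝ) *
      (B * Bᴴ + ((s : ℂ) ^ 2) • (1 : Matrix ι ι ℂ)).det.re ≤
        2 * ∑ f ∈ Finset.univ.filter (fun f : ι → ι ⊕ ι => nr f ≤ q), w B s f := by
  classical
  set P := (B * Bᴴ + ((s : ℂ) ^ 2) • (1 : Matrix ι ι ℂ)).det.re with hP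
  have h1 := sum_w B s
  rw [← hP] at h1
  have h2 := sum_w B (Real.sqrt 2 * s)
  have h3 : (B * Bᴴ + (((Real.sqrt 2 * s : ℝ) : ℂ) ^ 2) • (1 : Matrix ι ι ℂ)) =
      (B * Bᴴ + ((s : ℂ) ^ 2) • (1 : Matrix ι ι ℂ)) + ((s ^ 2 : ℝ) : ℂ) • 1 := by
    rw [add_assoc, ← add_smul]
    congr 2
    rw [← Complex.ofReal_pow, mul_pow, Real.sq_sqrt (by norm_num)]
    push_cast
    ring
  rw [h3] at h2
  have h4 := det_double _ (posDef_aux B s hs) (s ^ 2) (by positivity)
  have h5 : Real.exp (s ^ 2 * ((B * Bᴴ + ((s : ℂ) ^ 2) • (1 : Matrix ι ι ℂ))⁻¹).trace.re) ≤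
      2 ^ q := by
    have h6 : s ^ 2 * ((B * Bᴴ + ((s : ℂ) ^ 2) • (1 : Matrix ι ι ℂ))⁻¹).trace.re ≤ q / 2 := by
      linarith
    refine (Real.exp_le_exp.2 h6).trans ?_
    have h7 : (q : ℝ) / 2 = q * (1 / 2 : ℝ) := by ring
    rw [h7, Real.exp_nat_mul]
    refine pow_le_pow_left₀ (Real.exp_pos _).le ?_ q
    have := Real.exp_one_lt_d9
    have h8 : Real.exp (1 / 2) ^ 2 = Real.exp 1 := by
      rw [← Real.exp_nat_mul]; norm_num
    nlinarith [Real.exp_pos (1 / 2 : ℝ)]
  have hPpos : 0 ≤ P := by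
    have := (posDef_aux B s hs).det_pos
    rw [Complex.pos_iff] at this
    exact this.1.le
  have hfac : (0 : ℝ) < ((Fintype.card ι).factorial : ℝ) := by
    exact_mod_cast Nat.factorial_pos _
  have h9 : ∑ f : ι → ι ⊕ ι, w B (Real.sqrt 2 * s) f ≤ 2 ^ q * ∑ f : ι → ι ⊕ ι, w B s f := by
    rw [← h2, ← h1, ← mul_assoc, mul_comm ((2 : ℝ) ^ q), mul_assoc]
    refine mul_le_mul_of_nonneg_left ?_ hfac.le
    exact h4.trans (mul_le_mul_of_nonneg_right h5 hPpos)
  have h10 : 2 ^ (q + 1) * ∑ f ∈ Finset.univ.filter (fun f : ι → ι ⊕ ι => ¬ nr f ≤ q), w B s f ≤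
      ∑ f : ι → ι ⊕ ι, w B (Real.sqrt 2 * s) f := by
    rw [Finset.mul_sum, Finset.sum_filter]
    refine Finset.sum_le_sum fun f _ => ?_
    rw [w_scale]
    split_ifs with h
    · have : 0 ≤ w B s f := w_nonneg B s f
      positivity
    · refine mul_le_mul_of_nonneg_right ?_ (w_nonneg B s f)
      exact pow_le_pow_right₀ (by norm_num) (by omega)
  have h11 : ∑ f ∈ Finset.univ.filter (fun f : ι → ι ⊕ ι => nr f ≤ q), w B s f +
      ∑ f ∈ Finset.univ.filter (fun f : ι → ι ⊕ ι => ¬ nr f ≤ q), w B s f =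
        ∑ f : ι → ι ⊕ ι, w B s f := Finset.sum_filter_add_sum_filter_not _ _ _
  have h12 : 2 * ∑ f ∈ Finset.univ.filter (fun f : ι → ι ⊕ ι => ¬ nr f ≤ q), w B s f ≤
      ∑ f : ι → ι ⊕ ι, w B s f := by
    have h13 := h10.trans h9
    rw [pow_succ, mul_assoc] at h13
    exact le_of_mul_le_mul_left h13 (by positivity)
  rw [h1]
  linarith

/-- the rows that remain -/
def rowSet (f : ι → ι ⊕ ι) : Finset ι := Finset.univ.filter fun r => ∀ j, f j ≠ Sum.inr r

/-- the columns that are used -/
def colSet (f : ι → ι ⊕ ι) : Finset ι := Finset.univ.filter fun c => ∃ j, f j = Sum.inl c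

lemma mem_rowSet (f : ι → ι ⊕ ι) (r : ι) : r ∈ rowSet f ↔ ∀ j, f j ≠ Sum.inr r := by
  simp [rowSet]

lemma mem_colSet (f : ι → ι ⊕ ι) (c : ι) : c ∈ colSet f ↔ ∃ j, f j = Sum.inl c := by
  simp [colSet]

lemma card_colSet {f : ι → ι ⊕ ι} (hf : Function.Injective f) :
    (colSet f).card + nr f = Fintype.card ι := by
  classical
  have h1 : (Finset.univ.filter fun j => ¬ (f j).isRight = true).image f =
      (colSet f).image Sum.inl := by
    ext y
    simp only [Finset.mem_image, Finset.mem_filter, Finset.mem_univ, true_and, mem_colSet]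
    constructor
    · rintro ⟨j, hj, rfl⟩
      cases hfj : f j with
      | inl c => exact ⟨c, ⟨j, hfj⟩, rfl⟩
      | inr c => simp [hfj] at hj
    · rintro ⟨c, ⟨j, hj⟩, rfl⟩
      exact ⟨j, by simp [hj], hj⟩
  have h2 := congrArg Finset.card h1
  rw [Finset.card_image_of_injective _ hf, Finset.card_image_of_injective _ Sum.inl_injective] at h2
  rw [← h2, nr, add_comm, Finset.card_filter_add_card_filter_not]
  simp

lemma card_compl_rowSet {f : ι → ι ⊕ ι} (hf : Function.Injective f) :
    (rowSet f)ᶜ.card = nr f := by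
  classical
  have h1 : (Finset.univ.filter fun j => (f j).isRight = true).image f =
      ((rowSet f)ᶜ).image Sum.inr := by
    ext y
    simp only [Finset.mem_image, Finset.mem_filter, Finset.mem_univ, true_and, Finset.mem_compl,
      mem_rowSet]
    constructor
    · rintro ⟨j, hj, rfl⟩
      cases hfj : f j with
      | inl c => simp [hfj] at hj
      | inr c => exact ⟨c, by push Not; exact ⟨j, hfj⟩, rfl⟩
    · rintro ⟨c, hc, rfl⟩
      push Not at hc
      obtain ⟨j, hj⟩ := hc
      exact ⟨j, by simp [hj], hj⟩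
  have h2 := congrArg Finset.card h1
  rw [Finset.card_image_of_injective _ hf, Finset.card_image_of_injective _ Sum.inr_injective] at h2
  rw [← h2, nr]

lemma card_rowSet {f : ι → ι ⊕ ι} (hf : Function.Injective f) :
    (rowSet f).card + nr f = Fintype.card ι := by
  rw [← card_compl_rowSet hf, Finset.card_add_card_compl]

omit [DecidableEq ι] [Fintype μ] in
lemma exists_perm {f g : ι → μ} (hg : Function.Injective g)
    (h : ∀ r, g r ∈ Set.range f) : ∃ σ : Equiv.Perm ι, g = f ∘ σ := by
  choose σ hσ using h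
  have hi : Function.Injective σ := by
    intro a b hab
    apply hg
    rw [← hσ a, ← hσ b, hab]
  exact ⟨Equiv.ofBijective σ (Finite.injective_iff_bijective.1 hi), by ext1 r; exact (hσ r).symm⟩

/-- the determinant attached to an injective `f` is a minor -/
lemma exists_minor (B : Matrix ι ι ℂ) (s : ℝ) {f : ι → ι ⊕ ι} (hf : Function.Injective f) :
    ∃ e : rowSet f ≃ colSet f, w B s f = (s ^ nr f) ^ 2 *
      ‖(Matrix.of fun (i j : rowSet f) => B i (e j)).det‖ ^ 2 := by
  classical
  have hcard : (rowSet f).card = (colSet f).card := by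
    have h1 := card_rowSet hf
    have h2 := card_colSet hf
    omega
  let e : rowSet f ≃ colSet f := Finset.equivOfCardEq hcard
  refine ⟨e, ?_⟩
  let g : ι → ι ⊕ ι := fun r => if h : r ∈ rowSet f then Sum.inl (e ⟨r, h⟩ : ι) else Sum.inr r
  have hgp : ∀ (r : ι) (h : r ∈ rowSet f), g r = Sum.inl (e ⟨r, h⟩ : ι) := by
    intro r h; simp only [g, dif_pos h]
  have hgn : ∀ (r : ι), r ∉ rowSet f → g r = Sum.inr r := by
    intro r h; simp only [g, dif_neg h]
  have hg : Function.Injective g := by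
    intro a b hab
    by_cases ha : a ∈ rowSet f <;> by_cases hb : b ∈ rowSet f
    · rw [hgp a ha, hgp b hb] at hab
      have := e.injective (Subtype.ext (Sum.inl_injective hab))
      exact congrArg Subtype.val this
    · rw [hgp a ha, hgn b hb] at hab; cases hab
    · rw [hgn a ha, hgp b hb] at hab; cases hab
    · rw [hgn a ha, hgn b hb] at hab; exact Sum.inr_injective hab
  have hrange : ∀ r, g r ∈ Set.range f := by
    intro r
    by_cases h : r ∈ rowSet f
    · rw [hgp r h]
      obtain ⟨j, hj⟩ := (mem_colSet f _).1 (e ⟨r, h⟩).2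
      exact ⟨j, hj⟩
    · rw [hgn r h]
      rw [mem_rowSet] at h
      push Not at h
      exact h
  obtain ⟨σ, hσ⟩ := exists_perm hg hrange
  have h1 : w B s f = ‖((aug B s).submatrix id g).det‖ ^ 2 := by
    have h2 : (aug B s).submatrix id g = ((aug B s).submatrix id f).submatrix id σ := by
      rw [hσ]; rfl
    rw [h2, Matrix.det_permute', norm_mul, w]
    have h3 : ‖(((Equiv.Perm.sign σ : ℤˣ) : ℤ) : ℂ)‖ = 1 := by
      rcases Int.units_eq_one_or (Equiv.Perm.sign σ) with h | h <;> rw [h] <;> simp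
    rw [h3, one_mul]
  rw [h1, Matrix.twoBlockTriangular_det' _ (fun r => r ∈ rowSet f)]
  · rw [norm_mul, mul_pow, mul_comm]
    congr 1
    · have h4 : (Matrix.toSquareBlockProp ((aug B s).submatrix id g) fun i => ¬ i ∈ rowSet f) =
          ((s : ℂ) • (1 : Matrix {i // ¬ i ∈ rowSet f} {i // ¬ i ∈ rowSet f} ℂ)) := by
        ext i j
        rw [Matrix.toSquareBlockProp_def, Matrix.of_apply, Matrix.submatrix_apply, id,
          hgn j j.2, aug, Matrix.fromCols_apply_inr, Matrix.smul_apply, Matrix.smul_apply]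
        congr 1
        by_cases hij : i = j
        · subst hij; simp
        · rw [Matrix.one_apply_ne hij, Matrix.one_apply_ne]
          intro hh; exact hij (Subtype.ext hh)
      rw [h4, Matrix.det_smul, Matrix.det_one, mul_one, norm_pow, Complex.norm_real]
      have h5 : Fintype.card {i // ¬ i ∈ rowSet f} = nr f := by
        rw [← card_compl_rowSet hf, Fintype.card_subtype]
        congr 1
        ext i; simp
      rw [h5, ← pow_mul, ← pow_mul, mul_comm, pow_mul, pow_mul, Real.norm_eq_abs, sq_abs]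
    · have h6 : (Matrix.toSquareBlockProp ((aug B s).submatrix id g) fun i => i ∈ rowSet f) =
          (Matrix.of fun (i j : rowSet f) => B i (e j)) := by
        ext i j
        rw [Matrix.toSquareBlockProp_def, Matrix.of_apply, Matrix.submatrix_apply, id, hgp j j.2,
          aug, Matrix.fromCols_apply_inl]
        rfl
      rw [h6]
      congr!
  · intro i hi j hj
    rw [Matrix.submatrix_apply, id, hgn j hj, aug, Matrix.fromCols_apply_inr, Matrix.smul_apply,
      Matrix.one_apply_ne, smul_zero]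
    rintro rfl
    exact hj hi

lemma card_large_sets (q : ℕ) :
    (Finset.univ.filter fun R : Finset ι => Fintype.card ι ≤ R.card + q).card ≤
      (Fintype.card ι + 1) ^ (q + 1) := by
  classical
  set Rs := Finset.univ.filter fun R : Finset ι => Fintype.card ι ≤ R.card + q with hRs
  have h1 : ∀ a ∈ Finset.range (Fintype.card ι + 1),
      (Rs.filter fun R => Rᶜ.card = a).card ≤ (Fintype.card ι + 1) ^ q := by
    intro a _
    by_cases haq : a ≤ q
    · have h2 : (Rs.filter fun R => Rᶜ.card = a).card ≤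
          (Finset.powersetCard a (Finset.univ : Finset ι)).card := by
        refine Finset.card_le_card_of_injOn (fun R => Rᶜ) ?_ ?_
        · intro R hR
          simp only [Finset.coe_filter, Set.mem_ofPred_eq] at hR
          simp [Finset.mem_powersetCard, hR.2]
        · intro R _ R' _ h
          exact compl_injective h
      refine h2.trans ?_
      rw [Finset.card_powersetCard, Finset.card_univ]
      exact (Nat.choose_le_pow _ _).trans ((Nat.pow_le_pow_left (Nat.le_succ _) _).trans
        (Nat.pow_le_pow_right (Nat.succ_pos _) haq))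
    · have h2 : (Rs.filter fun R => Rᶜ.card = a) = ∅ := by
        rw [Finset.filter_eq_empty_iff]
        intro R hR hRa
        rw [hRs, Finset.mem_filter] at hR
        have := Finset.card_add_card_compl R
        omega
      rw [h2]; simp
  have h3 := Finset.card_le_mul_card_image_of_maps_to (f := fun R : Finset ι => Rᶜ.card) (s := Rs)
    (t := Finset.range (Fintype.card ι + 1)) (by
      intro R _
      rw [Finset.mem_range]
      exact Nat.lt_succ_of_le (Finset.card_le_univ _)) _ h1
  rw [Finset.card_range] at h3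
  rw [pow_succ]
  exact h3

lemma card_F (q : ℕ) :
    (Finset.univ.filter fun f : ι → ι ⊕ ι => Function.Injective f ∧ nr f ≤ q).card ≤
      (Fintype.card ι).factorial * (Fintype.card ι + 1) ^ (2 * q + 2) := by
  classical
  set F := Finset.univ.filter fun f : ι → ι ⊕ ι => Function.Injective f ∧ nr f ≤ q with hF
  set Rs := Finset.univ.filter fun R : Finset ι => Fintype.card ι ≤ R.card + q with hRs
  have hmaps : ∀ f ∈ F, (rowSet f, colSet f) ∈ Rs ×ˢ Rs := by
    intro f hf
    rw [hF, Finset.mem_filter] at hf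
    have h1 := card_rowSet hf.2.1
    have h2 := card_colSet hf.2.1
    rw [Finset.mem_product, hRs, Finset.mem_filter, Finset.mem_filter]
    refine ⟨⟨Finset.mem_univ _, ?_⟩, ⟨Finset.mem_univ _, ?_⟩⟩ <;> simp only <;> omega
  have hfib : ∀ a ∈ Rs ×ˢ Rs, (F.filter fun f => (rowSet f, colSet f) = a).card ≤
      (Fintype.card ι).factorial := by
    intro a _
    rcases (F.filter fun f => (rowSet f, colSet f) = a).eq_empty_or_nonempty with h | ⟨f₀, hf₀⟩
    · rw [h]; simp
    · rw [Finset.mem_filter] at hf₀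
      have hsub : (F.filter fun f => (rowSet f, colSet f) = a) ⊆
          Finset.univ.image (fun σ : Equiv.Perm ι => f₀ ∘ σ) := by
        intro f hf
        rw [Finset.mem_filter] at hf
        have hinj : Function.Injective f := by
          have := hf.1
          rw [hF, Finset.mem_filter] at this
          exact this.2.1
        have heq := hf.2.trans hf₀.2.symm
        rw [Prod.mk.injEq] at heq
        obtain ⟨σ, hσ⟩ := exists_perm (f := f₀) hinj (by
          intro r
          cases hfr : f r with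
          | inl c =>
            have h1 : c ∈ colSet f := (mem_colSet _ _).2 ⟨r, hfr⟩
            rw [heq.2, mem_colSet] at h1
            exact h1
          | inr c =>
            have h1 : c ∉ rowSet f := by
              rw [mem_rowSet]; push Not; exact ⟨r, hfr⟩
            rw [heq.1, mem_rowSet] at h1
            push Not at h1
            exact h1)
        rw [Finset.mem_image]
        exact ⟨σ, Finset.mem_univ _, hσ.symm⟩
      refine (Finset.card_le_card hsub).trans (Finset.card_image_le.trans ?_)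
      rw [Finset.card_univ, Fintype.card_perm]
  have h3 := Finset.card_le_mul_card_image_of_maps_to (f := fun f : ι → ι ⊕ ι =>
    (rowSet f, colSet f)) (s := F) (t := Rs ×ˢ Rs) hmaps _ hfib
  refine h3.trans (Nat.mul_le_mul_left _ ?_)
  rw [Finset.card_product]
  have h4 := card_large_sets (ι := ι) q
  rw [← hRs] at h4
  calc Rs.card * Rs.card ≤ (Fintype.card ι + 1) ^ (q + 1) * (Fintype.card ι + 1) ^ (q + 1) :=
        Nat.mul_le_mul h4 h4
    _ = (Fintype.card ι + 1) ^ (2 * q + 2) := by rw [← pow_add]; congr 1; ring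

/-- Cauchy–Binet consequence: a large minor of small co-dimension -/
theorem exists_large_minor {ι : Type*} [Fintype ι] [DecidableEq ι] (B : Matrix ι ι ℂ) (s : ℝ)
    (hs : 0 < s) (hs1 : s ≤ 1) (q : ℕ)
    (hq : 2 * (s ^ 2 * ((B * Bᴴ + (s ^ 2 : ℂ) • (1 : Matrix ι ι ℂ))⁻¹).trace.re) ≤ q) :
    ∃ R C : Finset ι, R.card = C.card ∧ Fintype.card ι ≤ R.card + q ∧
      ∃ e : R ≃ C, (B * Bᴴ + (s ^ 2 : ℂ) • (1 : Matrix ι ι ℂ)).det.re ≤
        4 * (Fintype.card ι + 1) ^ (2 * q + 2) *
          ‖(Matrix.of fun (i j : R) => B i (e j)).det‖ ^ 2 := by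
  classical
  by_contra hcon
  push Not at hcon
  have hhalf := half_weight B s hs q hq
  set P := (B * Bᴴ + ((s : ℂ) ^ 2) • (1 : Matrix ι ι ℂ)).det.re with hP
  have hPpos : 0 < P := by
    have := (posDef_aux B s hs).det_pos
    rw [Complex.pos_iff] at this
    exact this.1
  set Q : ℝ := (Fintype.card ι + 1) ^ (2 * q + 2) with hQ
  have hQpos : 0 < Q := by positivity
  have hw : ∀ f : ι → ι ⊕ ι, Function.Injective f → nr f ≤ q → w B s f ≤ P / (4 * Q) := by
    intro f hf hfq
    obtain ⟨e, he⟩ := exists_minor B s hf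
    have h1 := card_rowSet hf
    have h2 := card_colSet hf
    have h3 := hcon (rowSet f) (colSet f) (by omega) (by omega) e
    rw [he, le_div_iff₀ (by positivity)]
    have h4 : (s ^ nr f) ^ 2 ≤ 1 := pow_le_one₀ (by positivity) (pow_le_one₀ hs.le hs1)
    have h5 : 0 ≤ ‖(Matrix.of fun (i j : rowSet f) => B i (e j)).det‖ ^ 2 := by positivity
    nlinarith [mul_le_mul_of_nonneg_right h4 h5]
  have hsum : ∑ f ∈ Finset.univ.filter (fun f : ι → ι ⊕ ι => nr f ≤ q), w B s f ≤
      ((Fintype.card ι).factorial * (Fintype.card ι + 1) ^ (2 * q + 2) : ℕ) * (P / (4 * Q)) := by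
    have h1 : ∑ f ∈ Finset.univ.filter (fun f : ι → ι ⊕ ι => nr f ≤ q), w B s f =
        ∑ f ∈ Finset.univ.filter (fun f : ι → ι ⊕ ι => Function.Injective f ∧ nr f ≤ q),
          w B s f := by
      refine (Finset.sum_subset ?_ ?_).symm
      · intro f hf
        rw [Finset.mem_filter] at hf ⊢
        exact ⟨hf.1, hf.2.2⟩
      · intro f hf hf'
        rw [Finset.mem_filter] at hf hf'
        have hni : ¬ Function.Injective f := fun h => hf' ⟨hf.1, h, hf.2⟩
        rw [Function.Injective] at hni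
        push Not at hni
        obtain ⟨a, b, hab, hne⟩ := hni
        rw [w, Matrix.det_zero_of_column_eq hne, norm_zero]
        · simp
        · intro i
          simp [hab]
    rw [h1]
    have h2 := Finset.sum_le_card_nsmul (Finset.univ.filter
      (fun f : ι → ι ⊕ ι => Function.Injective f ∧ nr f ≤ q)) (w B s) (P / (4 * Q)) (by
        intro f hf
        rw [Finset.mem_filter] at hf
        exact hw f hf.2.1 hf.2.2)
    rw [nsmul_eq_mul] at h2
    refine h2.trans (mul_le_mul_of_nonneg_right ?_ (by positivity))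
    exact_mod_cast card_F q
  have hfac : (0 : ℝ) < ((Fintype.card ι).factorial : ℝ) := by
    exact_mod_cast Nat.factorial_pos _
  have h6 : (((Fintype.card ι).factorial * (Fintype.card ι + 1) ^ (2 * q + 2) : ℕ) : ℝ) *
      (P / (4 * Q)) = (Fintype.card ι).factorial * P / 4 := by
    push_cast
    rw [← hQ]
    field_simp
  rw [h6] at hsum
  nlinarith [mul_pos hfac hPpos]

end Pool.Agent.helper75.LargeMinor
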