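import Mathlib

/-!
# Countably compact groups whose finite powers stop being countably compact at a given exponent

We prove, in ZFC, that for every `n ≥ 1` there is a topological group `G` of exponent two, without
non-trivial convergent sequences, such that `G ^ n` is countably compact while `G ^ (n + 1)` is not.

Outline.

* `Om n` is a countable set partitioned into finite blocks whose sizes grow quickly. The sets which
  miss only few points of each block generate the filter `baseFilter n`; together with the branches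
  `br η` of the binary tree (an almost disjoint family of size continuum) it gives the ultrafilters
  `ult n η`.
* `combin` : if countably many linearly independent sequences, indexed by different branches, are
  given, then a greedy (Steinitz) selection makes them jointly independent, together with a given
  nonzero vector, on sets belonging to the respective ultrafilters.
* Let `K` be the field with `2 ^ (n + 1)` elements and `H` the `K`-vector space with basis
  `ℕ ⊕ (II × Fin n)`, where `II` is the initial ordinal of the continuum. At stage `α` a finite family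
  of sequences `gg α l` in the span of the earlier basis vectors is given the limit
  `ee α l` along the ultrafilter attached to `α`: only the functionals respecting this (`Good`) are
  used to define the topology. `exists_good` shows that they separate points.
* `GG` is an explicit `F_2`-subspace of `H`; the only elements all of whose `K`-multiples lie in
  `GG` are those supported on the countable part (`core`), because at each stage only an
  `F_2`-space of dimension at most `n` of coordinates is allowed, and `K` has dimension `n + 1`.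
  All `n`-tuples of sequences in `GG` get a limit in `GG` (`exists_limit`), so the `n`-th power is
  countably compact; the `(n + 1)`-st power contains a closed countably infinite subgroup
  (`delta`), so it is not.
-/

open Cardinal Set Filter Topology

namespace Pool.Agent.helper75.CCPowers

/-- Steinitz: from a finite independent family indexed by `I × S`, removing at most `dim W`
values of the first index makes it independent modulo `W`. -/
lemma steinitz {K V : Type*} [Field K] [AddCommGroup V] [Module K V]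
    {I S : Type*} [Fintype I] [Fintype S] [DecidableEq I]
    (v : I × S → V) (hv : LinearIndependent K v)
    (W : Submodule K V) [FiniteDimensional K W] :
    ∃ B : Finset I, (Bᶜ).card ≤ Module.finrank K W ∧
      LinearIndependent K (fun q : B × S => W.mkQ (v (q.1.1, q.2))) := by
  classical
  obtain ⟨κ, a, ha, hspan, hind⟩ := exists_linearIndependent' K (fun q : I × S => W.mkQ (v q))
  have : Finite κ := Finite.of_injective a ha
  have : Fintype κ := Fintype.ofFinite κ
  -- dimension count
  let P : Submodule K V := Submodule.span K (Set.range v)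
  have : FiniteDimensional K P := FiniteDimensional.span_of_finite K (Set.finite_range v)
  have hP : Module.finrank K P = Fintype.card (I × S) := finrank_span_eq_card hv
  have hκ : Module.finrank K (Submodule.span K (Set.range (fun q : I × S => W.mkQ (v q))))
      = Fintype.card κ := by
    rw [← hspan]; exact finrank_span_eq_card hind
  have hmap : Submodule.span K (Set.range (fun q : I × S => W.mkQ (v q))) = P.map W.mkQ := by
    rw [Submodule.map_span, ← Set.range_comp]; rfl
  have hrk := LinearMap.finrank_range_add_finrank_ker (W.mkQ.domRestrict P)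
  have hrange : LinearMap.range (W.mkQ.domRestrict P) = P.map W.mkQ := by
    ext y; simp [Submodule.mem_map]
  have hker : Module.finrank K (LinearMap.ker (W.mkQ.domRestrict P)) ≤ Module.finrank K W := by
    let φ : LinearMap.ker (W.mkQ.domRestrict P) →ₗ[K] W :=
      { toFun := fun z => ⟨z.1.1, by
          have h1 : W.mkQ.domRestrict P z.1 = 0 := z.2
          rw [LinearMap.domRestrict_apply] at h1
          exact (Submodule.Quotient.mk_eq_zero W).1 h1⟩
        map_add' := by intro z w; rfl
        map_smul' := by intro c z; rfl }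
    apply LinearMap.finrank_le_finrank_of_injective (f := φ)
    intro z w h
    have : (φ z).1 = (φ w).1 := congrArg Subtype.val h
    exact Subtype.ext (Subtype.ext this)
  have hcount : Fintype.card (I × S) ≤ Fintype.card κ + Module.finrank K W := by
    rw [hrange, ← hmap, hκ, hP] at hrk
    omega
  let T : Finset (I × S) := Finset.univ.image a
  have hT : T.card = Fintype.card κ := by
    rw [Finset.card_image_of_injective _ ha]; rfl
  have hTc : (Tᶜ).card ≤ Module.finrank K W := by
    rw [Finset.card_compl, hT]; omega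
  let B : Finset I := Finset.univ.filter (fun i => ∀ s, (i, s) ∈ T)
  refine ⟨B, ?_, ?_⟩
  · refine le_trans ?_ hTc
    refine le_trans (Finset.card_le_card (t := Tᶜ.image Prod.fst) ?_) Finset.card_image_le
    intro i hi
    simp only [B, Finset.mem_compl, Finset.mem_filter, Finset.mem_univ, true_and, not_forall] at hi
    obtain ⟨s, hs⟩ := hi
    exact Finset.mem_image.2 ⟨(i, s), by simpa using hs, rfl⟩
  · have hBT : ∀ q : B × S, ∃ k, a k = (q.1.1, q.2) := by
      intro q
      have := (Finset.mem_filter.1 q.1.2).2 q.2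
      obtain ⟨k, _, hk⟩ := Finset.mem_image.1 this
      exact ⟨k, hk⟩
    choose f hf using hBT
    have hfi : Function.Injective f := by
      intro q r h
      have h1 : a (f q) = a (f r) := by rw [h]
      rw [hf, hf] at h1
      have h2 := Prod.ext_iff.1 h1
      exact Prod.ext (Subtype.ext h2.1) h2.2
    have h3 := hind.comp f hfi
    have h4 : (fun q : B × S => W.mkQ (v (q.1.1, q.2)))
        = (((fun q => W.mkQ (v q)) ∘ a) ∘ f) := by
      funext q
      simp [hf]
    rw [h4]
    exact h3

/-- The bookkeeping bound on dimensions. -/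
def dd (n : ℕ) : ℕ → ℕ
  | 0 => 1
  | (m + 1) => dd n m + n * (m * dd n m + 1)

/-- Sizes of the blocks. -/
def NN (n m : ℕ) : ℕ := m * dd n m + 1

lemma dd_pos (n m : ℕ) : 1 ≤ dd n m := by
  induction m with
  | zero => exact le_rfl
  | succ m ih => simp only [dd]; omega

/-- The greedy selection. -/
lemma greedy {K V : Type*} [Field K] [AddCommGroup V] [Module K V] (n : ℕ)
    (S : ℕ → Finset (Fin n))
    (v : (m : ℕ) → Fin (NN n m) → Fin n → V)
    (hv : ∀ m, LinearIndependent K (fun q : Fin (NN n m) × S m => v m q.1 q.2))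
    (x : V) (hx : x ≠ 0) :
    ∃ B : (m : ℕ) → Finset (Fin (NN n m)), (∀ m, ((B m)ᶜ).card ≤ dd n m) ∧
      ∃ Ψ : V →ₗ[K] K, Ψ x ≠ 0 ∧ ∀ m, ∀ i ∈ B m, ∀ s ∈ S m, Ψ (v m i s) = 0 := by
  classical
  have key : ∀ (m : ℕ) (W : Submodule K V), ∃ B : Finset (Fin (NN n m)),
      (FiniteDimensional K W ∧ Module.finrank K W ≤ dd n m) → ((Bᶜ).card ≤ dd n m ∧
      LinearIndependent K (fun q : B × S m => W.mkQ (v m q.1 q.2))) := by
    intro m W
    by_cases h : FiniteDimensional K W ∧ Module.finrank K W ≤ dd n m
    · have := h.1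
      obtain ⟨B, hB1, hB2⟩ := steinitz (fun q : Fin (NN n m) × S m => v m q.1 q.2) (hv m) W
      exact ⟨B, fun _ => ⟨hB1.trans h.2, hB2⟩⟩
    · exact ⟨∅, fun h' => absurd h' h⟩
  choose C hC using key
  let vec : (m : ℕ) → Finset (Fin (NN n m)) → Set V := fun m B =>
    Set.range (fun q : B × S m => v m q.1 q.2)
  obtain ⟨U, hU0, hUs⟩ : ∃ U : ℕ → Submodule K V, U 0 = ⊥ ∧ ∀ m, U (m + 1) =
      U m ⊔ Submodule.span K (vec m (C m (U m ⊔ Submodule.span K {x}))) :=
    ⟨fun m => Nat.rec (motive := fun _ => Submodule K V) ⊥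
      (fun m U => U ⊔ Submodule.span K (vec m (C m (U ⊔ Submodule.span K {x})))) m,
      rfl, fun m => rfl⟩
  let B : (m : ℕ) → Finset (Fin (NN n m)) := fun m => C m (U m ⊔ Submodule.span K {x})
  have hUs' : ∀ m, U (m + 1) = U m ⊔ Submodule.span K (vec m (B m)) := hUs
  have hfin : ∀ m : ℕ, FiniteDimensional K (U m) := by
    intro m
    induction m with
    | zero => rw [hU0]; infer_instance
    | succ m ih =>
      rw [hUs']
      have : FiniteDimensional K (Submodule.span K (vec m (B m))) :=
        FiniteDimensional.span_of_finite K (Set.finite_range _)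
      infer_instance
  have hdim : ∀ m, FiniteDimensional K ↥(U m ⊔ Submodule.span K {x}) ∧
      Module.finrank K ↥(U m ⊔ Submodule.span K {x}) ≤ dd n m := by
    intro m
    induction m with
    | zero =>
      rw [hU0, bot_sup_eq]
      refine ⟨inferInstance, ?_⟩
      exact (finrank_span_singleton hx).le
    | succ m ih =>
      have h1 := hfin (m + 1)
      have h2 := hfin m
      have h3 : FiniteDimensional K (Submodule.span K (vec m (B m))) :=
        FiniteDimensional.span_of_finite K (Set.finite_range _)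
      refine ⟨inferInstance, ?_⟩
      have h4 : U (m + 1) ⊔ Submodule.span K {x} =
          (U m ⊔ Submodule.span K {x}) ⊔ Submodule.span K (vec m (B m)) := by
        rw [hUs']; ac_rfl
      rw [h4]
      have h5 := ih.1
      refine (Submodule.finrank_add_le_finrank_add_finrank _ _).trans ?_
      have h6 : Module.finrank K (Submodule.span K (vec m (B m))) ≤ n * (m * dd n m + 1) := by
        refine (finrank_range_le_card (R := K) (fun q : B m × S m => v m q.1 q.2)).trans ?_
        rw [Fintype.card_prod, Fintype.card_coe, Fintype.card_coe]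
        have h7 : (B m).card ≤ NN n m := by
          have := Finset.card_le_univ (B m); simpa using this
        have h8 : (S m).card ≤ n := by
          have := Finset.card_le_univ (S m); simpa using this
        calc (B m).card * (S m).card ≤ NN n m * n := Nat.mul_le_mul h7 h8
          _ = n * (m * dd n m + 1) := by rw [NN, Nat.mul_comm]
      have := ih.2
      simp only [dd]
      omega
  have hxU : ∀ m, x ∉ U m := by
    intro m
    induction m with
    | zero => rw [hU0]; simpa using hx
    | succ m ih =>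
      intro hmem
      rw [hUs', Submodule.mem_sup] at hmem
      obtain ⟨u, hu, w, hw, huw⟩ := hmem
      have hind := (hC m _ (hdim m)).2
      rw [show vec m (B m) = Set.range (fun q : B m × S m => v m q.1 q.2) from rfl,
        Submodule.mem_span_range_iff_exists_fun] at hw
      obtain ⟨c, hc⟩ := hw
      have hw' : w ∈ U m ⊔ Submodule.span K {x} := by
        have : w = (-u) + x := by rw [← huw]; abel
        rw [this]
        exact Submodule.add_mem_sup (Submodule.neg_mem _ hu) (Submodule.mem_span_singleton_self x)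
      have hc0 : ∀ q, c q = 0 := by
        rw [Fintype.linearIndependent_iff] at hind
        apply hind c
        rw [← (Submodule.Quotient.mk_eq_zero _)] at hw'
        have : (U m ⊔ Submodule.span K {x}).mkQ w = 0 := hw'
        rw [← hc, map_sum] at this
        simpa using this
      have hw0 : w = 0 := by
        rw [← hc]; simp [hc0]
      rw [hw0, add_zero] at huw
      exact ih (huw ▸ hu)
  have hmono : Monotone U := monotone_nat_of_le_succ (fun m => by rw [hUs']; exact le_sup_left)
  have hxS : x ∉ ⨆ m, U m := by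
    rw [Submodule.mem_iSup_of_directed _ hmono.directed_le]
    rintro ⟨m, hm⟩
    exact hxU m hm
  obtain ⟨Ψ, hΨx, hΨ⟩ := Submodule.exists_le_ker_of_notMem hxS
  refine ⟨B, fun m => (hC m _ (hdim m)).1, Ψ, hΨx, ?_⟩
  intro m i hi s hs
  have h1 : v m i s ∈ U (m + 1) := by
    rw [hUs']
    apply Submodule.mem_sup_right
    apply Submodule.subset_span
    exact ⟨(⟨i, hi⟩, ⟨s, hs⟩), rfl⟩
  exact hΨ (Submodule.mem_iSup_of_mem (m + 1) h1)

/-- The countable index set, partitioned into finite blocks. -/
abbrev Om (n : ℕ) : Type := (m : ℕ) × Fin (NN n m)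

/-- Number of missing points in the block `m`. -/
noncomputable def miss (n : ℕ) (s : Set (Om n)) (m : ℕ) : ℕ :=
  {i : Fin (NN n m) | (⟨m, i⟩ : Om n) ∉ s}.ncard

/-- The basic filter. -/
noncomputable def baseFilter (n : ℕ) : Filter (Om n) where
  sets := {s | ∃ k : ℕ, ∀ m, miss n s m ≤ k * dd n m}
  univ_sets := ⟨0, fun m => by simp [miss]⟩
  sets_of_superset := by
    rintro s t ⟨k, hk⟩ hst
    refine ⟨k, fun m => le_trans ?_ (hk m)⟩
    apply Set.ncard_le_ncard _ (Set.toFinite _)
    intro i hi h
    exact hi (hst h)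
  inter_sets := by
    rintro s t ⟨k, hk⟩ ⟨l, hl⟩
    refine ⟨k + l, fun m => ?_⟩
    have h1 : {i : Fin (NN n m) | (⟨m, i⟩ : Om n) ∉ s ∩ t} =
        {i : Fin (NN n m) | (⟨m, i⟩ : Om n) ∉ s} ∪ {i : Fin (NN n m) | (⟨m, i⟩ : Om n) ∉ t} := by
      ext i
      simp only [Set.mem_ofPred_eq, Set.mem_inter_iff, Set.mem_union]
      tauto
    calc miss n (s ∩ t) m ≤ miss n s m + miss n t m := by
          unfold miss; rw [h1]; exact Set.ncard_union_le _ _
      _ ≤ k * dd n m + l * dd n m := Nat.add_le_add (hk m) (hl m)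
      _ = (k + l) * dd n m := by ring

lemma mem_baseFilter {n : ℕ} {s : Set (Om n)} :
    s ∈ baseFilter n ↔ ∃ k : ℕ, ∀ m, miss n s m ≤ k * dd n m := Iff.rfl

/-- The branch of `η` in the binary tree, coded by natural numbers. -/
def br (η : ℕ → Bool) : Set ℕ :=
  Set.range (fun k : ℕ => Encodable.encode ((List.range k).map η))

lemma br_infinite (η : ℕ → Bool) : (br η).Infinite := by
  apply Set.infinite_range_of_injective
  intro k l h
  have h1 := Encodable.encode_injective h
  have h2 := congrArg List.length h1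
  simpa using h2

lemma br_inter_finite {η η' : ℕ → Bool} (h : η ≠ η') : (br η ∩ br η').Finite := by
  obtain ⟨j, hj⟩ := Function.ne_iff.1 h
  apply Set.Finite.subset ((Set.finite_Iic j).image
    (fun k : ℕ => Encodable.encode ((List.range k).map η)))
  rintro m ⟨⟨k, hk⟩, ⟨l, hl⟩⟩
  refine ⟨k, ?_, hk⟩
  simp only [Set.mem_Iic]
  by_contra hkj
  push Not at hkj
  have h1 : (List.range k).map η = (List.range l).map η' :=
    Encodable.encode_injective (hk.trans hl.symm)
  have h2 : k = l := by simpa using congrArg List.length h1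
  subst h2
  have h3 := congrArg (fun L => L[j]?) h1
  simp [List.getElem?_map, List.getElem?_range hkj] at h3
  exact hj h3

/-- The filter attached to a branch. -/
noncomputable def brFilter (n : ℕ) (η : ℕ → Bool) : Filter (Om n) :=
  baseFilter n ⊓ 𝓟 {ω | ω.1 ∈ br η}

instance brFilter_neBot (n : ℕ) (η : ℕ → Bool) : (brFilter n η).NeBot := by
  rw [brFilter, Filter.inf_principal_neBot_iff]
  rintro s ⟨k, hk⟩
  obtain ⟨m, hm, hkm⟩ := (br_infinite η).exists_gt k
  have h1 : ∃ i : Fin (NN n m), (⟨m, i⟩ : Om n) ∈ s := by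
    by_contra hcon
    push Not at hcon
    have h2 : miss n s m = NN n m := by
      unfold miss
      have : {i : Fin (NN n m) | (⟨m, i⟩ : Om n) ∉ s} = Set.univ := by
        ext i; simp [hcon i]
      rw [this, Set.ncard_univ]; simp
    have h3 := hk m
    rw [h2, NN] at h3
    have h4 : k * dd n m ≤ m * dd n m := Nat.mul_le_mul_right _ hkm.le
    omega
  obtain ⟨i, hi⟩ := h1
  exact ⟨⟨m, i⟩, hi, hm⟩

/-- The ultrafilter attached to a branch. -/
noncomputable def ult (n : ℕ) (η : ℕ → Bool) : Ultrafilter (Om n) := Ultrafilter.of (brFilter n η)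

lemma ult_le (n : ℕ) (η : ℕ → Bool) : (ult n η : Filter (Om n)) ≤ brFilter n η :=
  Ultrafilter.of_le _

lemma baseFilter_le_cofinite (n : ℕ) : baseFilter n ≤ cofinite := by
  intro s hs
  rw [mem_cofinite] at hs
  refine ⟨sᶜ.ncard, fun m => ?_⟩
  have h1 : miss n s m ≤ sᶜ.ncard := by
    unfold miss
    apply Set.ncard_le_ncard_of_injOn (fun i => (⟨m, i⟩ : Om n)) _ _ hs
    · intro i hi; exact hi
    · intro i _ j _ h
      simpa using h
  calc miss n s m ≤ sᶜ.ncard * 1 := by rw [mul_one]; exact h1
    _ ≤ sᶜ.ncard * dd n m := Nat.mul_le_mul_left _ (dd_pos n m)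

lemma ult_le_cofinite (n : ℕ) (η : ℕ → Bool) : (ult n η : Filter (Om n)) ≤ cofinite :=
  (ult_le n η).trans (inf_le_left.trans (baseFilter_le_cofinite n))

lemma br_mem_ult (n : ℕ) (η : ℕ → Bool) : {ω : Om n | ω.1 ∈ br η} ∈ ult n η :=
  ult_le n η (mem_inf_of_right (mem_principal_self _))

lemma block_finite (n m : ℕ) : {ω : Om n | ω.1 = m}.Finite := by
  apply Set.Finite.subset (Set.finite_range (fun i : Fin (NN n m) => (⟨m, i⟩ : Om n)))
  rintro ⟨m', i⟩ rfl
  exact ⟨i, rfl⟩

lemma blocks_mem_ult (n : ℕ) (η : ℕ → Bool) (F : Set ℕ) (hF : F.Finite) :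
    {ω : Om n | ω.1 ∉ F} ∈ ult n η := by
  apply ult_le_cofinite
  rw [mem_cofinite]
  apply Set.Finite.subset (hF.biUnion (fun m _ => block_finite n m))
  intro ω hω
  simp only [Set.mem_compl_iff, Set.mem_ofPred_eq, not_not] at hω
  exact Set.mem_biUnion hω rfl

lemma large_mem_ult (n : ℕ) (η : ℕ → Bool) (B : (m : ℕ) → Finset (Fin (NN n m)))
    (hB : ∀ m, ((B m)ᶜ).card ≤ dd n m) : {ω : Om n | ω.2 ∈ B ω.1} ∈ ult n η := by
  apply ult_le
  apply mem_inf_of_left
  refine ⟨1, fun m => ?_⟩
  rw [one_mul]
  refine le_trans (le_of_eq ?_) (hB m)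
  unfold miss
  rw [← Set.ncard_coe_finset]
  congr 1
  ext i
  simp


lemma combin {K V : Type*} [Field K] [AddCommGroup V] [Module K V] {ι : Type*} (n : ℕ)
    (η : ι → ℕ → Bool) (hη : Function.Injective η) (D : Set ι) (hD : D.Countable)
    (S : ι → Finset (Fin n)) (g : ι → Fin n → Om n → V)
    (hg : ∀ α ∈ D, LinearIndependent K (fun q : Om n × S α => g α q.2 q.1))
    (x : V) (hx : x ≠ 0) :
    ∃ Ψ : V →ₗ[K] K, Ψ x ≠ 0 ∧ ∀ α ∈ D, ∀ l ∈ S α,
      ∀ᶠ ω in (ult n (η α) : Filter (Om n)), Ψ (g α l ω) = 0 := by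
  classical
  obtain ⟨e, he⟩ := Set.countable_iff_exists_injOn.1 hD
  -- the disjointified branches
  let A : ι → Set ℕ := fun α => {m | m ∈ br (η α) ∧ ∀ β ∈ D, e β < e α → m ∉ br (η β)}
  have hA : ∀ α, (br (η α) \ A α).Finite := by
    intro α
    have hfin : {β ∈ D | e β < e α}.Finite := by
      apply Set.Finite.of_finite_image (f := e)
      · exact (Set.finite_Iio (e α)).subset (by rintro _ ⟨β, hβ, rfl⟩; exact hβ.2)
      · exact he.mono (fun β hβ => hβ.1)
    apply Set.Finite.subset (hfin.biUnion (t := fun β => br (η α) ∩ br (η β)) ?_)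
    · rintro m ⟨hm, hmA⟩
      simp only [A, Set.mem_ofPred_eq, not_and, not_forall] at hmA
      obtain ⟨β, hβD, hβ, hmβ⟩ := hmA hm
      exact Set.mem_biUnion (show β ∈ {β ∈ D | e β < e α} from ⟨hβD, hβ⟩)
        ⟨hm, by simpa using hmβ⟩
    · rintro β ⟨hβD, hβ⟩
      apply br_inter_finite
      intro h
      rw [hη h] at hβ
      exact lt_irrefl _ hβ
  have hdisj : ∀ α ∈ D, ∀ β ∈ D, ∀ m, m ∈ A α → m ∈ A β → α = β := by
    intro α hα β hβ m hmα hmβ
    rcases lt_trichotomy (e α) (e β) with h | h | h
    · exact absurd hmα.1 (hmβ.2 α hα h)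
    · exact he hα hβ h
    · exact absurd hmβ.1 (hmα.2 β hβ h)
  -- the index attached to a level
  let P : ℕ → Prop := fun m => ∃ α ∈ D, m ∈ A α
  let S' : ℕ → Finset (Fin n) := fun m => if h : P m then S h.choose else ∅
  let v : (m : ℕ) → Fin (NN n m) → Fin n → V := fun m i l =>
    if h : P m then g h.choose l ⟨m, i⟩ else 0
  have hv : ∀ m, LinearIndependent K (fun q : Fin (NN n m) × S' m => v m q.1 q.2) := by
    intro m
    by_cases h : P m
    · have h1 := hg h.choose h.choose_spec.1
      have hS' : S' m = S h.choose := by simp only [S', dif_pos h]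
      have hinj : Function.Injective (fun q : Fin (NN n m) × S' m =>
          ((⟨⟨m, q.1⟩, ⟨q.2.1, hS' ▸ q.2.2⟩⟩ : Om n × S h.choose))) := by
        rintro ⟨i, s⟩ ⟨j, t⟩ hst
        simp only [Prod.mk.injEq, Sigma.mk.injEq, heq_eq_eq, true_and, Subtype.mk.injEq] at hst
        exact Prod.ext hst.1 (Subtype.ext hst.2)
      have h2 := h1.comp _ hinj
      have h3 : (fun q : Fin (NN n m) × S' m => v m q.1 q.2) =
          (fun q : Om n × S h.choose => g h.choose q.2 q.1) ∘
          (fun q : Fin (NN n m) × S' m =>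
          ((⟨⟨m, q.1⟩, ⟨q.2.1, hS' ▸ q.2.2⟩⟩ : Om n × S h.choose))) := by
        funext q
        simp only [v, dif_pos h, Function.comp]
      rw [h3]
      exact h2
    · have hS' : S' m = ∅ := by simp only [S', dif_neg h]
      have : IsEmpty (Fin (NN n m) × S' m) := by
        rw [hS']; infer_instance
      exact linearIndependent_empty_type
  obtain ⟨B, hB, Ψ, hΨx, hΨ⟩ := greedy n S' v hv x hx
  refine ⟨Ψ, hΨx, ?_⟩
  intro α hα l hl
  have h1 := large_mem_ult n (η α) B hB
  have h2 := br_mem_ult n (η α)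
  have h3 := blocks_mem_ult n (η α) _ (hA α)
  filter_upwards [h1, h2, h3] with ω hω1 hω2 hω3
  have hωA : ω.1 ∈ A α := by
    by_contra hcon
    exact hω3 ⟨hω2, hcon⟩
  have hP : P ω.1 := ⟨α, hα, hωA⟩
  have hch : hP.choose = α :=
    hdisj _ hP.choose_spec.1 _ hα ω.1 hP.choose_spec.2 hωA
  have hS' : S' ω.1 = S α := by simp only [S', dif_pos hP, hch]
  have h4 := hΨ ω.1 ω.2 hω1 l (by rw [hS']; exact hl)
  simp only [v, dif_pos hP, hch] at h4
  exact h4


lemma closure_countable {ι : Type*} (R : ι → Set ι) (hR : ∀ α, (R α).Countable)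
    (D0 : Set ι) (hD0 : D0.Countable) :
    ∃ D : Set ι, D0 ⊆ D ∧ D.Countable ∧ ∀ α ∈ D, R α ⊆ D := by
  let E : ℕ → Set ι := fun k => Nat.rec (motive := fun _ => Set ι) D0
    (fun _ D => D ∪ ⋃ α ∈ D, R α) k
  have hE0 : E 0 = D0 := rfl
  have hEs : ∀ k, E (k + 1) = E k ∪ ⋃ α ∈ E k, R α := fun k => rfl
  refine ⟨⋃ k, E k, ?_, ?_, ?_⟩
  · exact hE0 ▸ Set.subset_iUnion E 0
  · apply Set.countable_iUnion
    intro k
    induction k with
    | zero => exact hD0
    | succ k ih =>
      rw [hEs]
      exact ih.union (ih.biUnion fun α _ => hR α)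
  · intro α hα β hβ
    obtain ⟨k, hk⟩ := Set.mem_iUnion.1 hα
    refine Set.mem_iUnion.2 ⟨k + 1, ?_⟩
    rw [hEs]
    exact Or.inr (Set.mem_biUnion hk hβ)

/-- limit along an ultrafilter in a finite set -/
lemma exists_ultra_lim {X K : Type*} [Finite K] (p : Ultrafilter X) (u : X → K) :
    ∃ c, ∀ᶠ ω in (p : Filter X), u ω = c := by
  by_contra hcon
  rw [not_exists] at hcon
  have h1 : ∀ c, ∀ᶠ ω in (p : Filter X), u ω ≠ c := by
    intro c
    exact Ultrafilter.eventually_not.2 (hcon c)
  have h2 : ∀ᶠ ω in (p : Filter X), ∀ c, u ω ≠ c := Filter.eventually_all.2 h1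
  obtain ⟨ω, hω⟩ := h2.exists
  exact hω (u ω) rfl

/-- index set of the basis -/
abbrev JJ (n : ℕ) (ι : Type) : Type := ℕ ⊕ (ι × Fin n)

/-- basis vector -/
noncomputable abbrev ee (K : Type) [Field K] {n : ℕ} {ι : Type} (α : ι) (l : Fin n) :
    JJ n ι →₀ K := Finsupp.single (Sum.inr (α, l)) 1

/-- good functional -/
def Good {K : Type} [Field K] {n : ℕ} {ι : Type} (η : ι → ℕ → Bool)
    (S : ι → Finset (Fin n)) (g : ι → Fin n → Om n → (JJ n ι →₀ K))
    (Φ : (JJ n ι →₀ K) →ₗ[K] K) : Prop :=
  ∀ α, ∀ l ∈ S α, ∀ᶠ ω in (ult n (η α) : Filter (Om n)), Φ (g α l ω) = Φ (ee K α l)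

lemma linInd_sub {K : Type} [Field K] {n : ℕ} {ι : Type} [LinearOrder ι]
    (α : ι) (S : Finset (Fin n)) (g : Fin n → Om n → (JJ n ι →₀ K))
    (hsupp : ∀ l ω β l', g l ω (Sum.inr (β, l')) ≠ 0 → β < α)
    (hind : LinearIndependent K (fun q : Om n × S => g q.2 q.1)) :
    LinearIndependent K (fun q : Om n × S => g q.2 q.1 - ee K α (q.2 : Fin n)) := by
  classical
  let T : (JJ n ι →₀ K) →ₗ[K] (JJ n ι →₀ K) :=
    Finsupp.linearCombination K (Sum.elim (fun k => Finsupp.single (Sum.inl k) (1 : K))
      (fun p => if p.1 = α then 0 else Finsupp.single (Sum.inr p) 1))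
  apply LinearIndependent.of_comp T
  have h : (T ∘ fun q : Om n × S => g q.2 q.1 - ee K α (q.2 : Fin n)) =
      fun q : Om n × S => g q.2 q.1 := by
    funext q
    have h1 : T (ee K α (q.2 : Fin n)) = 0 := by
      simp [T, ee]
    have h2 : T (g q.2 q.1) = g q.2 q.1 := by
      conv_rhs => rw [← Finsupp.sum_single (g q.2 q.1)]
      simp only [T, Finsupp.linearCombination_apply]
      apply Finsupp.sum_congr
      intro j hj
      rw [Finsupp.mem_support_iff] at hj
      rcases j with k | ⟨β, l'⟩
      · simp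
      · have := hsupp _ _ _ _ hj
        simp [this.ne]
    simp only [Function.comp, map_sub, h1, h2, sub_zero]
  rw [h]
  exact hind

theorem exists_good {K : Type} [Field K] [Finite K] {n : ℕ} {ι : Type} [LinearOrder ι]
    [WellFoundedLT ι] (η : ι → ℕ → Bool) (hη : Function.Injective η)
    (S : ι → Finset (Fin n)) (g : ι → Fin n → Om n → (JJ n ι →₀ K))
    (hsupp : ∀ α l ω β l', g α l ω (Sum.inr (β, l')) ≠ 0 → β < α)
    (hind : ∀ α, LinearIndependent K (fun q : Om n × S α => g α q.2 q.1))
    (x : JJ n ι →₀ K) (hx : x ≠ 0) :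
    ∃ Φ : (JJ n ι →₀ K) →ₗ[K] K, Good η S g Φ ∧ Φ x ≠ 0 := by
  classical
  -- the countable closed set
  obtain ⟨D, hD0, hDc, hD⟩ := closure_countable
    (fun α => ⋃ (l : Fin n), ⋃ (ω : Om n),
      (fun j : JJ n ι => Sum.elim (fun _ => α) (fun p => p.1) j) ''
        ((g α l ω).support : Set (JJ n ι)))
    (fun α => Set.countable_iUnion fun l => Set.countable_iUnion fun ω =>
      ((g α l ω).support.countable_toSet.image _))
    {β | ∃ l, x (Sum.inr (β, l)) ≠ 0} (by
      apply Set.Countable.mono _ (x.support.countable_toSet.biUnion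
        (t := fun j _ => {β : ι | ∃ l, j = Sum.inr (β, l)}) ?_)
      · rintro β ⟨l, hl⟩
        exact Set.mem_biUnion (x := (Sum.inr (β, l) : JJ n ι)) (by simpa using hl) ⟨l, rfl⟩
      · rintro j _
        apply Set.Subsingleton.countable
        rintro β ⟨l, rfl⟩ β' ⟨l', h⟩
        simpa using congrArg (fun j : JJ n ι => Sum.elim (fun _ => β) (fun p => p.1) j) h)
  have hD' : ∀ α ∈ D, ∀ l ω β l', g α l ω (Sum.inr (β, l')) ≠ 0 → β ∈ D := by
    intro α hα l ω β l' h
    apply hD α hα
    refine Set.mem_iUnion.2 ⟨l, Set.mem_iUnion.2 ⟨ω, Sum.inr (β, l'), by simpa using h, rfl⟩⟩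
  -- the functional on the countable part
  obtain ⟨Ψ, hΨx, hΨ⟩ := combin n η hη D hDc S
    (fun α l ω => g α l ω - ee K α l) (fun α _ => linInd_sub α (S α) (g α) (hsupp α) (hind α)) x hx
  -- recursion
  let lim : Ultrafilter (Om n) → (Om n → K) → K := fun p u => (exists_ultra_lim p u).choose
  have hlim : ∀ p u, ∀ᶠ ω in (p : Filter (Om n)), u ω = lim p u := fun p u =>
    (exists_ultra_lim p u).choose_spec
  let base : ℕ → K := fun k => Ψ (Finsupp.single (Sum.inl k) 1)
  let F : (α : ι) → ((β : ι) → β < α → Fin n → K) → Fin n → K := fun α rec l =>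
    if α ∈ D then Ψ (ee K α l) else
      lim (ult n (η α)) (fun ω => Finsupp.linearCombination K
        (Sum.elim base (fun p : ι × Fin n => if h : p.1 < α then rec p.1 h p.2 else 0)) (g α l ω))
  let φ : ι → Fin n → K := (wellFounded_lt (α := ι)).fix F
  have hφ : ∀ α, φ α = F α (fun β _ => φ β) := fun α => (wellFounded_lt (α := ι)).fix_eq F α
  let Φ : (JJ n ι →₀ K) →ₗ[K] K :=
    Finsupp.linearCombination K (Sum.elim base (fun p : ι × Fin n => φ p.1 p.2))
  have hΦe : ∀ α l, Φ (ee K α l) = φ α l := by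
    intro α l
    simp [Φ, ee]
  have hΦD : ∀ h : JJ n ι →₀ K, (∀ β l, h (Sum.inr (β, l)) ≠ 0 → β ∈ D) → Φ h = Ψ h := by
    intro h hh
    conv_rhs => rw [← Finsupp.sum_single h]
    simp only [Φ, Finsupp.linearCombination_apply, Finsupp.sum, map_sum]
    apply Finset.sum_congr rfl
    intro j hj
    rw [Finsupp.mem_support_iff] at hj
    have h1 : (Finsupp.single j (h j) : JJ n ι →₀ K) = h j • Finsupp.single j 1 := by simp
    rw [h1, map_smul]
    congr 1
    rcases j with k | ⟨β, l⟩
    · rfl
    · have hβ := hh β l hj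
      simp only [Sum.elim_inr]
      rw [hφ]
      simp only [F, if_pos hβ]
  refine ⟨Φ, ?_, ?_⟩
  · intro α l hl
    by_cases hα : α ∈ D
    · filter_upwards [hΨ α hα l hl] with ω hω
      rw [hΦD (g α l ω) (fun β l' h => hD' α hα l ω β l' h), hΦe, hφ]
      simp only [F, if_pos hα]
      rw [map_sub, sub_eq_zero] at hω
      exact hω
    · have h1 : ∀ ω, Φ (g α l ω) = Finsupp.linearCombination K
        (Sum.elim base (fun p : ι × Fin n => if h : p.1 < α then φ p.1 p.2 else 0)) (g α l ω) := by
        intro ω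
        simp only [Φ, Finsupp.linearCombination_apply]
        apply Finsupp.sum_congr
        intro j hj
        rw [Finsupp.mem_support_iff] at hj
        rcases j with k | ⟨β, l'⟩
        · rfl
        · have := hsupp _ _ _ _ _ hj
          simp [this]
      have h2 : φ α l = lim (ult n (η α)) (fun ω => Φ (g α l ω)) := by
        rw [hφ]
        simp only [F, if_neg hα]
        congr 1
        funext ω
        rw [h1]
      rw [hΦe, h2]
      exact hlim _ _
  · rw [hΦD x (fun β l h => hD0 ⟨l, h⟩)]
    exact hΨx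


lemma triangular {K V S : Type*} [Field K] [AddCommGroup V] [Module K V] [Fintype S]
    (U : ℕ → Submodule K V) (hU : Monotone U) (v : ℕ → S → V)
    (hv : ∀ m l, v m l ∈ U (m + 1))
    (hind : ∀ m, ∀ b : S → K, ∑ l, b l • v m l ∈ U m → b = 0) :
    LinearIndependent K (fun q : ℕ × S => v q.1 q.2) := by
  classical
  rw [linearIndependent_iff']
  intro T b hb
  by_contra hcon
  push Not at hcon
  obtain ⟨q0, hq0T, hq0⟩ := hcon
  let T' := T.filter (fun q => b q ≠ 0)
  have hne : (T'.image Prod.fst).Nonempty := ⟨q0.1, Finset.mem_image_of_mem _ (by simp [T', hq0T, hq0])⟩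
  set m := (T'.image Prod.fst).max' hne with hm
  have hmem := (T'.image Prod.fst).max'_mem hne
  rw [← hm] at hmem
  obtain ⟨q1, hq1T, hq1m⟩ := Finset.mem_image.1 hmem
  have hle : ∀ q ∈ T', q.1 ≤ m := fun q hq =>
    (T'.image Prod.fst).le_max' _ (Finset.mem_image_of_mem _ hq)
  have hsum : ∑ q ∈ T', b q • v q.1 q.2 = 0 := by
    rw [← hb, Finset.sum_filter]
    apply Finset.sum_congr rfl
    intro q _
    by_cases h : b q = 0 <;> simp [h]
  rw [← Finset.sum_filter_add_sum_filter_not T' (fun q => q.1 = m)] at hsum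
  have h1 : ∑ q ∈ T'.filter (fun q => ¬ q.1 = m), b q • v q.1 q.2 ∈ U m := by
    apply Submodule.sum_mem
    intro q hq
    rw [Finset.mem_filter] at hq
    apply Submodule.smul_mem
    exact hU (Nat.succ_le_of_lt (lt_of_le_of_ne (hle q hq.1) hq.2)) (hv q.1 q.2)
  have h2 : ∑ q ∈ T'.filter (fun q => q.1 = m), b q • v q.1 q.2 =
      ∑ l, (if (m, l) ∈ T' then b (m, l) else 0) • v m l := by
    have h3 : ∀ l : S, (if (m, l) ∈ T' then b (m, l) else 0) • v m l =
        if (m, l) ∈ T' then b (m, l) • v m l else 0 := by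
      intro l; split_ifs <;> simp
    simp only [h3]
    rw [← Finset.sum_filter]
    refine Finset.sum_bij' (fun q _ => q.2) (fun l _ => (m, l)) ?_ ?_ ?_ ?_ ?_
    · rintro ⟨i, l⟩ hq
      rw [Finset.mem_filter] at hq
      simp only at hq
      obtain ⟨hq, rfl⟩ := hq
      simpa using hq
    · intro l hl
      simpa using hl
    · rintro ⟨i, l⟩ hq
      rw [Finset.mem_filter] at hq
      simp only at hq
      simp [hq.2]
    · intro l hl
      rfl
    · rintro ⟨i, l⟩ hq
      rw [Finset.mem_filter] at hq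
      simp only at hq
      simp [hq.2]
  rw [h2] at hsum
  have h3 : ∑ l, (if (m, l) ∈ T' then b (m, l) else 0) • v m l ∈ U m := by
    rw [eq_neg_of_add_eq_zero_left hsum]
    exact Submodule.neg_mem _ h1
  have h4 := congrFun (hind m _ h3) q1.2
  have h5 : (m, q1.2) = q1 := by rw [← hq1m]
  rw [h5, if_pos hq1T] at h4
  exact (Finset.mem_filter.1 hq1T).2 h4

lemma exists_seq_finset (Q : Finset ℕ → ℕ → Prop) (h : ∀ F, ∃ i, Q F i) :
    ∃ s : ℕ → ℕ, ∀ m, Q ((Finset.range m).image s) (s m) := by
  classical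
  choose nx hnx using h
  let st : ℕ → Finset ℕ := fun m => Nat.rec (motive := fun _ => Finset ℕ) ∅
    (fun _ F => insert (nx F) F) m
  have hst0 : st 0 = ∅ := rfl
  have hsts : ∀ m, st (m + 1) = insert (nx (st m)) (st m) := fun m => rfl
  refine ⟨fun m => nx (st m), fun m => ?_⟩
  have h1 : (Finset.range m).image (fun m => nx (st m)) = st m := by
    induction m with
    | zero => rw [hst0]; rfl
    | succ m ih => rw [hsts, Finset.range_add_one, Finset.image_insert, ih]
  rw [h1]
  exact hnx _

/-- Choice of a subset of coordinates independent modulo constants. -/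
lemma minimal_coords {K V : Type*} [Field K] [AddCommGroup V] [Module K V] (n : ℕ)
    (f : ℕ → Fin n → V) :
    ∃ (S : Finset (Fin n)) (κ : Fin n → Fin n → K) (c : Fin n → V) (A : Set ℕ), A.Infinite ∧
      (∀ i ∈ A, ∀ j, f i j = c j + ∑ l ∈ S, κ j l • f i l) ∧
      ∀ a : Fin n → K, (∃ l ∈ S, a l ≠ 0) → ∀ v : V,
        {i ∈ A | ∑ l ∈ S, a l • f i l = v}.Finite := by
  classical
  let P : Finset (Fin n) → Prop := fun S => ∃ (κ : Fin n → Fin n → K) (c : Fin n → V) (A : Set ℕ),
    A.Infinite ∧ (∀ i ∈ A, ∀ j, f i j = c j + ∑ l ∈ S, κ j l • f i l)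
  have hP : ∃ k, ∃ S, P S ∧ S.card = k := by
    refine ⟨_, Finset.univ, ⟨fun j l => if j = l then 1 else 0, 0, Set.univ, Set.infinite_univ, ?_⟩, rfl⟩
    intro i _ j
    simp
  obtain ⟨S, ⟨κ, c, A, hA, hf⟩, hcard⟩ := Nat.find_spec hP
  refine ⟨S, κ, c, A, hA, hf, ?_⟩
  rintro a ⟨l0, hl0, ha⟩ v
  by_contra hinf
  have hmin : ∀ S', P S' → S.card ≤ S'.card := by
    intro S' hS'
    rw [hcard]
    exact Nat.find_min' hP ⟨S', hS', rfl⟩
  have : P (S.erase l0) := by
    refine ⟨fun j l => κ j l - κ j l0 * (a l0)⁻¹ * a l, fun j => c j + (κ j l0 * (a l0)⁻¹) • v,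
      {i ∈ A | ∑ l ∈ S, a l • f i l = v}, hinf, ?_⟩
    rintro i ⟨hi, hv⟩ j
    rw [hf i hi j]
    rw [← Finset.add_sum_erase S _ hl0] at hv ⊢
    have h1 : f i l0 = (a l0)⁻¹ • (v - ∑ x ∈ S.erase l0, a x • f i x) := by
      rw [← hv, add_sub_cancel_right, smul_smul, inv_mul_cancel₀ ha, one_smul]
    simp only [sub_smul, Finset.sum_sub_distrib, mul_smul]
    conv_lhs => rw [h1]
    rw [smul_sub, smul_sub, Finset.smul_sum, Finset.smul_sum]
    abel
  have h2 := hmin _ this
  rw [Finset.card_erase_of_mem hl0] at h2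
  have h3 : 0 < S.card := Finset.card_pos.2 ⟨l0, hl0⟩
  omega

lemma extraction {K V : Type*} [Field K] [Finite K] [AddCommGroup V] [Module K V] (n : ℕ)
    (f : ℕ → Fin n → V) :
    ∃ (S : Finset (Fin n)) (κ : Fin n → Fin n → K) (c : Fin n → V) (s : ℕ → ℕ),
      Function.Injective s ∧
      (∀ i j, f (s i) j = c j + ∑ l ∈ S, κ j l • f (s i) l) ∧
      LinearIndependent K (fun q : ℕ × S => f (s q.1) q.2) := by
  classical
  obtain ⟨S, κ, c, A, hA, hf, hfin⟩ := minimal_coords (K := K) n f
  let W : Finset ℕ → Submodule K V := fun F =>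
    Submodule.span K (Set.range (fun q : F × S => f q.1 q.2))
  have hW : ∀ F, FiniteDimensional K (W F) := fun F =>
    FiniteDimensional.span_of_finite K (Set.finite_range _)
  obtain ⟨s, hs⟩ := exists_seq_finset
    (fun F i => (i ∈ A ∧ i ∉ F) ∧ ∀ b : S → K, ∑ l : S, b l • f i l ∈ W F → b = 0) (by
      intro F
      have hWfin : Finite (W F) := by
        have := hW F
        exact Module.finite_of_finite K
      have hbad : (⋃ b : S → K, ⋃ w : W F, {i ∈ A | b ≠ 0 ∧ ∑ l : S, b l • f i l = w}).Finite := by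
        apply Set.finite_iUnion
        intro b
        apply Set.finite_iUnion
        intro w
        by_cases hb : b = 0
        · simp [hb]
        · obtain ⟨l, hl⟩ := Function.ne_iff.1 hb
          apply Set.Finite.subset (hfin (fun j => if h : j ∈ S then b ⟨j, h⟩ else 0)
            ⟨l, l.2, by simpa using hl⟩ w)
          rintro i ⟨hi, _, hi2⟩
          refine ⟨hi, ?_⟩
          rw [← hi2, ← Finset.sum_coe_sort S]
          apply Finset.sum_congr rfl
          intro j _
          simp
      obtain ⟨i, hiA, hi⟩ := (hA.sdiff (hbad.union F.finite_toSet)).nonempty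
      rw [Set.mem_union, not_or] at hi
      refine ⟨i, ⟨hiA, hi.2⟩, ?_⟩
      intro b hb
      by_contra hb0
      apply hi.1
      exact Set.mem_iUnion.2 ⟨b, Set.mem_iUnion.2 ⟨⟨_, hb⟩, hiA, hb0, rfl⟩⟩)
  have hinj : Function.Injective s := by
    intro i j hij
    by_contra hne
    rcases lt_or_gt_of_ne hne with h | h
    · exact (hs j).1.2 (Finset.mem_image.2 ⟨i, Finset.mem_range.2 h, hij⟩)
    · exact (hs i).1.2 (Finset.mem_image.2 ⟨j, Finset.mem_range.2 h, hij.symm⟩)
  refine ⟨S, κ, c, s, hinj, fun i j => hf _ (hs i).1.1 j, ?_⟩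
  apply triangular (fun m => W ((Finset.range m).image s)) (v := fun i (l : S) => f (s i) l)
  · intro m m' hmm
    apply Submodule.span_mono
    rintro _ ⟨⟨⟨i, hi⟩, l⟩, rfl⟩
    refine ⟨(⟨i, ?_⟩, l), rfl⟩
    exact Finset.image_subset_image (Finset.range_subset_range.2 hmm) hi
  · intro m l
    apply Submodule.subset_span
    refine ⟨(⟨s m, ?_⟩, l), rfl⟩
    exact Finset.mem_image.2 ⟨m, Finset.mem_range.2 (Nat.lt_succ_self m), rfl⟩
  · intro m b hb
    exact (hs m).2 b hb


lemma Om_infinite (n : ℕ) : Infinite (Om n) := by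
  apply Infinite.of_injective (fun m : ℕ => (⟨m, ⟨0, Nat.succ_pos _⟩⟩ : Om n))
  intro a b h
  exact congrArg Sigma.fst h

lemma extraction' {K V : Type*} [Field K] [Finite K] [AddCommGroup V] [Module K V] (n : ℕ)
    (f : ℕ → Fin n → V) :
    ∃ (S : Finset (Fin n)) (κ : Fin n → Fin n → K) (g : Fin n → Om n → V) (i0 : ℕ)
      (s : Om n → ℕ), Function.Injective s ∧
      (∀ ω j, f (s ω) j = f i0 j + ∑ l ∈ S, κ j l • g l ω) ∧
      LinearIndependent K (fun q : Om n × S => g q.2 q.1) := by
  classical
  obtain ⟨S, κ, c, s, hs, hf, hind⟩ := extraction (K := K) n f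
  have := Om_infinite n
  obtain ⟨e⟩ : Nonempty (Om n ≃ ℕ) := nonempty_equiv_of_countable
  refine ⟨S, κ, fun l ω => f (s (e ω + 1)) l - f (s 0) l, s 0, fun ω => s (e ω + 1), ?_, ?_, ?_⟩
  · intro a b h
    have := hs h
    exact e.injective (Nat.succ_injective this)
  · intro ω j
    rw [hf (e ω + 1) j, hf 0 j]
    simp only [smul_sub, Finset.sum_sub_distrib]
    abel
  · let v : ℕ × S → V := fun q => f (s q.1) q.2
    let a : Om n × S → ℕ × S := fun q => (e q.1 + 1, q.2)
    have ha : Function.Injective a := by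
      rintro ⟨ω, l⟩ ⟨ω', l'⟩ h
      simp only [a, Prod.mk.injEq, Nat.succ_inj] at h
      exact Prod.ext (e.injective h.1) h.2
    have h1 : LinearIndependent K (v ∘ a) := hind.comp a ha
    let U : Submodule K V := Submodule.span K (v '' {q | q.1 = 0})
    have h2 : Disjoint (Submodule.span K (Set.range (v ∘ a))) (LinearMap.ker U.mkQ) := by
      rw [Submodule.ker_mkQ, Set.range_comp]
      apply hind.disjoint_span_image
      rw [Set.disjoint_left]
      rintro _ ⟨q, rfl⟩ hq
      simp [a] at hq
    have h3 := h1.map h2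
    apply LinearIndependent.of_comp U.mkQ
    have h4 : (U.mkQ ∘ fun q : Om n × S => f (s (e q.1 + 1)) q.2 - f (s 0) q.2) =
        U.mkQ ∘ v ∘ a := by
      funext q
      simp only [Function.comp, map_sub, v, a]
      have h5 : U.mkQ (f (s 0) q.2) = 0 := by
        apply (Submodule.Quotient.mk_eq_zero U).2
        apply Submodule.subset_span
        exact ⟨(0, q.2), rfl, rfl⟩
      rw [h5, sub_zero]
    rw [h4]
    exact h3


/-- the index set: the initial ordinal of the continuum -/
abbrev II : Type := (Cardinal.continuum.{0}).ord.ToType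

lemma mk_II : #II = 𝔠 := by simp [II]

lemma II_bounded (s : Set II) (hs : s.Countable) : ∃ β : II, ∀ α ∈ s, α < β := by
  have h1 : ℵ₀ < Order.cof II := by
    rw [Ordinal.cof_toType]
    have := Cardinal.lt_cof_ord_power (a := ℵ₀) (b := 2) le_rfl (by norm_num)
    rwa [Cardinal.two_power_aleph0] at this
  have h2 : ¬ IsCofinal s := by
    intro h
    have h3 := Order.cof_le h
    have h4 : #s ≤ ℵ₀ := Cardinal.le_aleph0_iff_set_countable.2 hs
    exact absurd (h3.trans h4) (not_le.2 h1)
  simp only [IsCofinal, not_forall, not_exists, not_and, not_le] at h2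
  exact h2

lemma mk_Iic_II (β : II) : #(Set.Iic β) < 𝔠 := by
  have h1 : #(Set.Iio β) < 𝔠 := by
    have := Cardinal.mk_Iio_lt β (by simp [II])
    simpa using this
  have h2 : Set.Iic β = insert β (Set.Iio β) := (Set.Iio_insert (a := β)).symm
  rw [h2]
  refine lt_of_le_of_lt (Cardinal.mk_insert_le) ?_
  exact Cardinal.add_lt_of_lt Cardinal.aleph0_le_continuum h1
    (Cardinal.one_lt_aleph0.trans Cardinal.aleph0_lt_continuum)

lemma exists_enum (T : Type) [Nonempty T] (hT : #T ≤ 𝔠) :
    ∃ t : II → T, ∀ τ β, ∃ α, β < α ∧ t α = τ := by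
  have h1 : #(II × T) = #II := by
    rw [Cardinal.mk_prod, Cardinal.lift_id, Cardinal.lift_id, mk_II]
    exact Cardinal.mul_eq_left Cardinal.aleph0_le_continuum hT (Cardinal.mk_ne_zero T)
  obtain ⟨u⟩ := Cardinal.eq.1 h1.symm
  refine ⟨fun α => (u α).2, ?_⟩
  intro τ β
  by_contra hcon
  push Not at hcon
  have h2 : #II ≤ #(Set.Iic β) := by
    apply Cardinal.mk_le_of_injective (f := fun γ : II => (⟨u.symm (γ, τ), by
      by_contra h
      rw [Set.mem_Iic, not_le] at h
      exact hcon _ h (by simp)⟩ : Set.Iic β))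
    intro γ δ h
    simpa using h
  rw [mk_II] at h2
  exact absurd h2 (not_le.2 (mk_Iic_II β))

lemma mk_HH (n : ℕ) (K : Type) [Field K] [Finite K] : #(JJ n II →₀ K) ≤ 𝔠 := by
  rw [Cardinal.mk_finsupp_of_infinite]
  apply max_le
  · simp only [JJ, Cardinal.mk_sum, Cardinal.mk_prod, Cardinal.lift_id, mk_II,
      Cardinal.mk_nat, Cardinal.mk_fin]
    apply Cardinal.add_le_of_le Cardinal.aleph0_le_continuum Cardinal.aleph0_le_continuum
    exact Cardinal.mul_le_of_le Cardinal.aleph0_le_continuum le_rfl
      ((Cardinal.natCast_lt_aleph0).le.trans Cardinal.aleph0_le_continuum)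
  · exact (Cardinal.lt_aleph0_of_finite K).le.trans Cardinal.aleph0_le_continuum

/-- A task. -/
abbrev Task (n : ℕ) (K : Type) [Field K] : Type :=
  (Fin n → Fin n → K) × Finset (Fin n) × (Fin n → Om n → (JJ n II →₀ K))

lemma mk_Task (n : ℕ) (K : Type) [Field K] [Finite K] : #(Task n K) ≤ 𝔠 := by
  have h1 : #(Fin n → Fin n → K) ≤ 𝔠 :=
    (Cardinal.lt_aleph0_of_finite _).le.trans Cardinal.aleph0_le_continuum
  have h2 : #(Finset (Fin n)) ≤ 𝔠 :=
    (Cardinal.lt_aleph0_of_finite _).le.trans Cardinal.aleph0_le_continuum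
  have h3 : #(Om n → (JJ n II →₀ K)) ≤ 𝔠 := by
    rw [← Cardinal.power_def]
    calc #(JJ n II →₀ K) ^ #(Om n) ≤ 𝔠 ^ #(Om n) := Cardinal.power_le_power_right (mk_HH n K)
      _ ≤ 𝔠 ^ ℵ₀ := Cardinal.power_le_power_left Cardinal.continuum_ne_zero Cardinal.mk_le_aleph0
      _ = 𝔠 := Cardinal.continuum_power_aleph0
  have h4 : #(Fin n → Om n → (JJ n II →₀ K)) ≤ 𝔠 := by
    rw [← Cardinal.power_def]
    calc #(Om n → (JJ n II →₀ K)) ^ #(Fin n) ≤ 𝔠 ^ #(Fin n) :=
          Cardinal.power_le_power_right h3
      _ ≤ 𝔠 ^ ℵ₀ := Cardinal.power_le_power_left Cardinal.continuum_ne_zero Cardinal.mk_le_aleph0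
      _ = 𝔠 := Cardinal.continuum_power_aleph0
  simp only [Task, Cardinal.mk_prod, Cardinal.lift_id]
  exact Cardinal.mul_le_of_le Cardinal.aleph0_le_continuum h1
    (Cardinal.mul_le_of_le Cardinal.aleph0_le_continuum h2 h4)


lemma finite_of_countable_compact (G : Type*) [AddCommGroup G] [TopologicalSpace G]
    [IsTopologicalAddGroup G] [T2Space G] [Countable G] [CompactSpace G] : Finite G := by
  obtain ⟨g, hg⟩ := nonempty_interior_of_iUnion_of_closed (f := fun g : G => ({g} : Set G))
    (fun g => isClosed_singleton) (by ext x; simp)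
  have h1 : interior ({g} : Set G) = {g} := by
    apply Set.Subset.antisymm interior_subset
    obtain ⟨y, hy⟩ := hg
    have hyg : y ∈ ({g} : Set G) := interior_subset hy
    rw [Set.mem_singleton_iff] at hyg
    rw [Set.singleton_subset_iff]
    exact hyg ▸ hy
  have h2 : IsOpen ({g} : Set G) := h1 ▸ isOpen_interior
  have h3 : IsOpen ({0} : Set G) := by
    have h4 : ({0} : Set G) = (fun x => x + g) ⁻¹' {g} := by
      ext x; simp
    rw [h4]
    exact h2.preimage (continuous_id.add continuous_const)
  have : DiscreteTopology G := discreteTopology_of_isOpen_singleton_zero h3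
  exact finite_of_compact_of_discrete

section

variable (n : ℕ) (K : Type) [Field K] [Finite K]

/-- the enumeration of tasks -/
noncomputable def enumT : II → Task n K :=
  (exists_enum (Task n K) (mk_Task n K)).choose

lemma enumT_spec (τ : Task n K) (β : II) : ∃ α, β < α ∧ enumT n K α = τ :=
  (exists_enum (Task n K) (mk_Task n K)).choose_spec τ β

/-- validity of a task at a stage -/
def Valid (α : II) (τ : Task n K) : Prop :=
  (∀ l ω β l', τ.2.2 l ω (Sum.inr (β, l')) ≠ 0 → β < α) ∧
    LinearIndependent K (fun q : Om n × τ.2.1 => τ.2.2 q.2 q.1)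

open Classical in
/-- the task treated at a stage (the void task if the proposed one is not valid) -/
noncomputable def task (α : II) : Task n K :=
  if Valid n K α (enumT n K α) then enumT n K α else (0, ∅, 0)

lemma task_valid (α : II) : Valid n K α (task n K α) := by
  unfold task
  split_ifs with h
  · exact h
  · refine ⟨?_, ?_⟩
    · intro l ω β l' h
      simp at h
    · have : IsEmpty (Om n × ((0, ∅, 0) : Task n K).2.1) := by
        show IsEmpty (Om n × (∅ : Finset (Fin n)))
        infer_instance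
      exact linearIndependent_empty_type

lemma exists_task (τ : Task n K) (hτ : LinearIndependent K (fun q : Om n × τ.2.1 => τ.2.2 q.2 q.1))
    (γ : II) : ∃ α, γ < α ∧ task n K α = τ := by
  obtain ⟨β, hβ⟩ := II_bounded
    {β | ∃ l ω l', τ.2.2 l ω (Sum.inr (β, l')) ≠ 0} (by
      have : {β | ∃ l ω l', τ.2.2 l ω (Sum.inr (β, l')) ≠ 0} =
          ⋃ l : Fin n, ⋃ ω : Om n, ⋃ l' : Fin n, {β | τ.2.2 l ω (Sum.inr (β, l')) ≠ 0} := by
        ext β; simp
      rw [this]
      refine Set.countable_iUnion fun l => Set.countable_iUnion fun ω =>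
        Set.countable_iUnion fun l' => ?_
      have h1 : ((τ.2.2 l ω).support : Set (JJ n II)).Countable :=
        (τ.2.2 l ω).support.countable_toSet
      refine (h1.preimage_of_injOn (f := fun β : II => (Sum.inr (β, l') : JJ n II)) ?_).mono ?_
      · intro a _ b _ h; simpa using h
      · intro β hβ; simpa using hβ)
  obtain ⟨α, hα, hτα⟩ := enumT_spec n K τ (max β γ)
  refine ⟨α, lt_of_le_of_lt (le_max_right _ _) hα, ?_⟩
  unfold task
  rw [hτα, if_pos]
  refine ⟨?_, hτ⟩
  intro l ω β' l' h
  exact (hβ β' ⟨l, ω, l', h⟩).trans (lt_of_le_of_lt (le_max_left _ _) hα)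

/-- injection of the index set in the branches -/
noncomputable def eta : II → ℕ → Bool :=
  (Cardinal.eq.1 (show #II = #(ℕ → Bool) by rw [mk_II]; simp)).some

lemma eta_injective : Function.Injective eta := Equiv.injective _

/-- the finite set of active coordinates at stage `α` -/
noncomputable def SS (α : II) : Finset (Fin n) := (task n K α).2.1

/-- the sequences handled at stage `α` -/
noncomputable def gg (α : II) : Fin n → Om n → (JJ n II →₀ K) := (task n K α).2.2

open Classical in
/-- the coefficients used at stage `α` -/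
noncomputable def kk (α : II) (j l : Fin n) : K :=
  if l ∈ SS n K α then (task n K α).1 j l else 0

theorem exists_good' (x : JJ n II →₀ K) (hx : x ≠ 0) :
    ∃ Φ : (JJ n II →₀ K) →ₗ[K] K, Good eta (SS n K) (gg n K) Φ ∧ Φ x ≠ 0 :=
  exists_good eta eta_injective (SS n K) (gg n K)
    (fun α => (task_valid n K α).1) (fun α => (task_valid n K α).2) x hx

/-- the set of good functionals -/
abbrev CC : Type := {Φ : (JJ n II →₀ K) →ₗ[K] K // Good eta (SS n K) (gg n K) Φ}

/-- evaluation map -/
noncomputable def ev : (JJ n II →₀ K) →ₗ[K] (CC n K → K) :=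
  LinearMap.pi (fun Φ : CC n K => Φ.1)

@[simp] lemma ev_apply (h : JJ n II →₀ K) (Φ : CC n K) : ev n K h Φ = Φ.1 h := rfl

lemma ev_injective : Function.Injective (ev n K) := by
  rw [injective_iff_map_eq_zero]
  intro x hx
  by_contra hne
  obtain ⟨Φ, hΦ, hΦx⟩ := exists_good' n K x hne
  exact hΦx (congrFun hx ⟨Φ, hΦ⟩)

variable [Algebra (ZMod 2) K]

/-- allowed coordinates at stage `α` -/
noncomputable def WW (α : II) : Submodule (ZMod 2) (Fin n → K) :=
  Submodule.span (ZMod 2) (Set.range (fun j => kk n K α j))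

lemma finrank_WW (α : II) : Module.finrank (ZMod 2) (WW n K α) ≤ n := by
  have h := finrank_range_le_card (R := ZMod 2) (fun j => kk n K α j)
  rw [Fintype.card_fin] at h
  exact h

/-- the group, as an `F_2`-subspace of `H` -/
noncomputable def GG : Submodule (ZMod 2) (JJ n II →₀ K) where
  carrier := {h | ∀ α : II, (fun l => h (Sum.inr (α, l))) ∈ WW n K α}
  add_mem' := by
    intro a b ha hb α
    exact Submodule.add_mem _ (ha α) (hb α)
  zero_mem' := by
    intro α
    exact Submodule.zero_mem _
  smul_mem' := by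
    intro c a ha α
    exact Submodule.smul_mem _ c (ha α)

lemma mem_GG {h : JJ n II →₀ K} :
    h ∈ GG n K ↔ ∀ α : II, (fun l => h (Sum.inr (α, l))) ∈ WW n K α := Iff.rfl

/-- The only elements all of whose `K`-multiples are in the group are those supported
on the countable part. -/
lemma core (hK : Module.finrank (ZMod 2) K = n + 1) (h : JJ n II →₀ K)
    (hh : ∀ c : K, c • h ∈ GG n K) (α : II) (l : Fin n) : h (Sum.inr (α, l)) = 0 := by
  by_contra hne
  have : Module.Finite (ZMod 2) K := Module.finite_of_finrank_pos (by omega)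
  let T : K →ₗ[ZMod 2] WW n K α :=
    { toFun := fun c => ⟨fun l => c * h (Sum.inr (α, l)), by
        have := hh c α
        simpa using this⟩
      map_add' := by
        intro a b
        apply Subtype.ext
        funext l
        simp [add_mul]
      map_smul' := by
        intro a b
        apply Subtype.ext
        funext l
        simp }
  have hT : Function.Injective T := by
    intro a b hab
    have h1 := congrFun (congrArg Subtype.val hab) l
    exact mul_right_cancel₀ hne h1
  have h1 := LinearMap.finrank_le_finrank_of_injective hT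
  rw [hK] at h1
  have h2 := finrank_WW n K α
  omega

/-- the limit points belong to the group -/
lemma limit_mem_GG (α : II) (h : JJ n II →₀ K) (hh : h ∈ GG n K) (j : Fin n) :
    h + ∑ l ∈ SS n K α, (task n K α).1 j l • ee K α l ∈ GG n K := by
  classical
  apply Submodule.add_mem _ hh
  intro β
  by_cases hβ : β = α
  · subst hβ
    have h1 : (fun l => (∑ l ∈ SS n K β, (task n K β).1 j l • ee K β l : JJ n II →₀ K)
        (Sum.inr (β, l))) = kk n K β j := by
      funext l
      rw [Finsupp.finsetSum_apply]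
      simp only [ee, kk, Finsupp.smul_apply, Finsupp.single_apply, Sum.inr.injEq, Prod.mk.injEq,
        true_and, smul_eq_mul, mul_ite, mul_one, mul_zero]
      rw [Finset.sum_ite_eq']
    rw [h1]
    exact Submodule.subset_span ⟨j, rfl⟩
  · have h1 : (fun l => (∑ l ∈ SS n K α, (task n K α).1 j l • ee K α l : JJ n II →₀ K)
        (Sum.inr (β, l))) = 0 := by
      funext l
      rw [Finsupp.finsetSum_apply]
      simp only [ee, Finsupp.smul_apply, Finsupp.single_apply, Sum.inr.injEq, Prod.mk.injEq,
        (Ne.symm hβ : ¬ α = β), false_and, if_false, smul_zero, Finset.sum_const_zero, Pi.zero_apply]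
    rw [h1]
    exact Submodule.zero_mem _

end


section

variable (n : ℕ) (K : Type) [Field K] [Finite K] [Algebra (ZMod 2) K]

/-- the topological group -/
noncomputable def G0 : AddSubgroup (CC n K → K) :=
  (GG n K).toAddSubgroup.map (ev n K).toAddMonoidHom

lemma mem_G0 {z : CC n K → K} : z ∈ G0 n K ↔ ∃ h ∈ GG n K, ev n K h = z := by
  simp only [G0, AddSubgroup.mem_map]
  rfl

/-- the main limit computation -/
lemma exists_limit (F : ℕ → Fin n → (JJ n II →₀ K)) (hF : ∀ i j, F i j ∈ GG n K) :
    ∃ (S : Finset (Fin n)) (κ : Fin n → Fin n → K) (i0 : ℕ)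
      (s : Om n → ℕ), Function.Injective s ∧
      (∀ j, (∀ l ∈ S, κ j l = 0) → ∀ ω, F (s ω) j = F i0 j) ∧
      ∀ γ, ∃ α, γ < α ∧
        (∀ j, F i0 j + ∑ l ∈ S, κ j l • ee K α l ∈ GG n K) ∧
        ∀ j, ∀ Φ : CC n K, ∀ᶠ ω in (ult n (eta α) : Filter (Om n)),
          Φ.1 (F (s ω) j) = Φ.1 (F i0 j + ∑ l ∈ S, κ j l • ee K α l) := by
  obtain ⟨S, κ, g, i0, s, hs, hf, hind⟩ := extraction' (K := K) n F
  refine ⟨S, κ, i0, s, hs, ?_, ?_⟩
  · intro j hj ω
    rw [hf ω j, Finset.sum_eq_zero, add_zero]
    intro l hl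
    rw [hj l hl, zero_smul]
  intro γ
  obtain ⟨α, hγα, hα⟩ := exists_task n K (κ, S, g) hind γ
  have h1 : SS n K α = S := by rw [SS, hα]
  have h2 : gg n K α = g := by rw [gg, hα]
  have h3 : (task n K α).1 = κ := by rw [hα]
  refine ⟨α, hγα, ?_, ?_⟩
  · intro j
    have := limit_mem_GG n K α (F i0 j) (hF i0 j) j
    rwa [h1, h3] at this
  · intro j Φ
    have h4 : ∀ l ∈ S, ∀ᶠ ω in (ult n (eta α) : Filter (Om n)), Φ.1 (g l ω) = Φ.1 (ee K α l) := by
      intro l hl
      have := Φ.2 α l (by rw [h1]; exact hl)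
      rwa [h2] at this
    rw [← Filter.eventually_all_finset] at h4
    filter_upwards [h4] with ω hω
    rw [hf ω j, map_add, map_add, map_sum, map_sum]
    congr 1
    apply Finset.sum_congr rfl
    intro l hl
    rw [map_smul, map_smul, hω l hl]

lemma tendsto_ult (n : ℕ) (α : II) (s : Om n → ℕ) (hs : Function.Injective s) :
    Tendsto s (ult n (eta α) : Filter (Om n)) atTop := by
  rw [← Nat.cofinite_eq_atTop]
  exact hs.tendsto_cofinite.mono_left (ult_le_cofinite n _)

variable [TopologicalSpace K]

theorem countablyCompact_power : CountablyCompactSpace (Fin n → G0 n K) := by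
  constructor
  rw [isCountablyCompact_iff_seq_clusterPt]
  intro x _
  have h1 : ∀ i j, ∃ h ∈ GG n K, ev n K h = (x i j).1 := fun i j => (mem_G0 n K).1 (x i j).2
  choose F hF hFx using h1
  obtain ⟨S, κ, i0, s, hs, -, hlim⟩ := exists_limit n K F hF
  obtain ⟨β⟩ : Nonempty II := ⟨(II_bounded ∅ Set.countable_empty).choose⟩
  obtain ⟨α, -, hmem, hα⟩ := hlim β
  refine ⟨fun j => ⟨ev n K (F i0 j + ∑ l ∈ S, κ j l • ee K α l), (mem_G0 n K).2 ⟨_, hmem j, rfl⟩⟩,
    Set.mem_univ _, ?_⟩
  refine MapClusterPt.of_comp (tendsto_ult n α s hs) ?_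
  apply Tendsto.mapClusterPt
  rw [tendsto_pi_nhds]
  intro j
  rw [tendsto_subtype_rng, tendsto_pi_nhds]
  intro Φ
  refine tendsto_const_nhds.congr' ?_
  filter_upwards [hα j Φ] with ω hω
  simp only [Function.comp]
  rw [← hFx]
  exact hω.symm

end


lemma mapDomain_inl_inr (n : ℕ) (K : Type) [Field K] (u : ℕ →₀ K) (α : II) (l : Fin n) :
    (Finsupp.mapDomain (Sum.inl : ℕ → JJ n II) u) (Sum.inr (α, l)) = 0 := by
  apply Finsupp.mapDomain_of_notMem_range
  simp

lemma smul_mapDomain_mem (n : ℕ) (K : Type) [Field K] [Finite K] [Algebra (ZMod 2) K]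
    (u : ℕ →₀ K) (c : K) :
    c • Finsupp.mapDomain (Sum.inl : ℕ → JJ n II) u ∈ GG n K := by
  intro α
  have : (fun l => (c • Finsupp.mapDomain (Sum.inl : ℕ → JJ n II) u) (Sum.inr (α, l))) = 0 := by
    funext l
    rw [Finsupp.smul_apply, mapDomain_inl_inr, smul_zero]
    rfl
  rw [this]
  exact Submodule.zero_mem _

/-- every `c` in `K` is a combination of the basis; hence membership for the basis suffices -/
lemma smul_mem_of_basis (n : ℕ) (K : Type) [Field K] [Finite K] [Algebra (ZMod 2) K]
    (b : Module.Basis (Fin (n + 1)) (ZMod 2) K) (h : JJ n II →₀ K)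
    (hb : ∀ i, b i • h ∈ GG n K) (c : K) : c • h ∈ GG n K := by
  rw [← b.sum_repr c, Finset.sum_smul]
  apply Submodule.sum_mem
  intro i _
  rw [smul_assoc]
  exact Submodule.smul_mem _ _ (hb i)

section

variable (n : ℕ) (K : Type) [Field K] [Finite K] [Algebra (ZMod 2) K]

/-- the countable closed subgroup of the power -/
noncomputable def delta (b : Fin (n + 1) → K) : (ℕ →₀ K) →+ (Fin (n + 1) → G0 n K) where
  toFun u i := ⟨ev n K (b i • Finsupp.mapDomain (Sum.inl : ℕ → JJ n II) u),
    (mem_G0 n K).2 ⟨_, smul_mapDomain_mem n K u (b i), rfl⟩⟩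
  map_zero' := by
    funext i
    apply Subtype.ext
    simp
  map_add' := by
    intro u v
    funext i
    apply Subtype.ext
    simp [Finsupp.mapDomain_add]

lemma delta_injective (b : Fin (n + 1) → K) (hb : ∀ i, b i ≠ 0) :
    Function.Injective (delta n K b) := by
  intro u v huv
  have h1 := congrArg Subtype.val (congrFun huv 0)
  have h2 : b 0 • Finsupp.mapDomain (Sum.inl : ℕ → JJ n II) u =
      b 0 • Finsupp.mapDomain (Sum.inl : ℕ → JJ n II) v := ev_injective n K h1
  have h3 := smul_right_injective _ (hb 0) h2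
  exact Finsupp.mapDomain_injective Sum.inl_injective h3

end

section

variable (n : ℕ) (K : Type) [Field K] [Finite K] [Algebra (ZMod 2) K]
  [TopologicalSpace K] [DiscreteTopology K]

/-- no non-trivial convergent sequences -/
theorem no_convergent (hn : 1 ≤ n) (u : ℕ → G0 n K) (z : G0 n K) (hu : Tendsto u atTop (𝓝 z)) :
    ∀ᶠ k in atTop, u k = z := by
  by_contra hcon
  rw [Filter.not_eventually] at hcon
  obtain ⟨φ, hφ, hφz⟩ := Filter.extraction_of_frequently_atTop hcon
  have h1 : ∀ i, ∃ h ∈ GG n K, ev n K h = (u (φ i)).1 := fun i => (mem_G0 n K).1 (u (φ i)).2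
  choose h0 hh0 hh0u using h1
  obtain ⟨S, κ, i0, s, hs, hconst, hlim⟩ := exists_limit n K (fun i _ => h0 i) (fun i _ => hh0 i)
  let j0 : Fin n := ⟨0, hn⟩
  have hus : Tendsto (u ∘ φ) atTop (𝓝 z) := hu.comp hφ.tendsto_atTop
  -- all limit points agree with `z`
  have hz : ∀ α : II, (∀ Φ : CC n K, ∀ᶠ ω in (ult n (eta α) : Filter (Om n)),
      Φ.1 (h0 (s ω)) = Φ.1 (h0 i0 + ∑ l ∈ S, κ j0 l • ee K α l)) →
      ev n K (h0 i0 + ∑ l ∈ S, κ j0 l • ee K α l) = z.1 := by
    intro α hα
    have h2 : Tendsto (fun ω => (u (φ (s ω))).1) (ult n (eta α) : Filter (Om n))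
        (𝓝 (ev n K (h0 i0 + ∑ l ∈ S, κ j0 l • ee K α l))) := by
      rw [tendsto_pi_nhds]
      intro Φ
      refine tendsto_const_nhds.congr' ?_
      filter_upwards [hα Φ] with ω hω
      rw [← hh0u]
      exact hω.symm
    have h3 : Tendsto (fun ω => (u (φ (s ω))).1) (ult n (eta α) : Filter (Om n)) (𝓝 z.1) := by
      have h4 : Tendsto (fun ω => u (φ (s ω))) (ult n (eta α) : Filter (Om n)) (𝓝 z) :=
        hus.comp (tendsto_ult n α s hs)
      exact (continuous_subtype_val.tendsto z).comp h4
    exact tendsto_nhds_unique h2 h3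
  by_cases hκ : ∀ l ∈ S, κ j0 l = 0
  · -- then the sequence is constant on the range of `s`
    obtain ⟨α, -, -, hα⟩ := hlim (II_bounded ∅ Set.countable_empty).choose
    have h2 := hz α (hα j0)
    have h3 : ∑ l ∈ S, κ j0 l • ee K α l = (0 : JJ n II →₀ K) :=
      Finset.sum_eq_zero (fun l hl => by rw [hκ l hl, zero_smul])
    rw [h3, add_zero, hh0u] at h2
    exact hφz i0 (Subtype.ext h2)
  · push Not at hκ
    obtain ⟨l0, hl0, hne⟩ := hκ
    obtain ⟨α, -, -, hα⟩ := hlim (II_bounded ∅ Set.countable_empty).choose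
    obtain ⟨α', hαα', -, hα'⟩ := hlim α
    have h2 := (hz α (hα j0)).trans (hz α' (hα' j0)).symm
    have h3 := ev_injective n K h2
    have h4 := add_left_cancel h3
    have h5 := DFunLike.congr_fun h4 (Sum.inr (α, l0))
    rw [Finsupp.finsetSum_apply, Finsupp.finsetSum_apply] at h5
    simp only [ee, Finsupp.smul_apply, Finsupp.single_apply, Sum.inr.injEq, Prod.mk.injEq,
      true_and, smul_eq_mul, mul_ite, mul_one, mul_zero, (ne_of_gt hαα' : ¬ α' = α), false_and,
      if_false, Finset.sum_const_zero] at h5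
    rw [Finset.sum_ite_eq', if_pos hl0] at h5
    exact hne h5

lemma delta_range_closed (hK : Module.finrank (ZMod 2) K = n + 1)
    (b : Module.Basis (Fin (n + 1)) (ZMod 2) K) (hb : ∀ i, b i ≠ 0) :
    IsClosed ((delta n K b).range : Set (Fin (n + 1) → G0 n K)) := by
  have h1 : ((delta n K b).range : Set (Fin (n + 1) → G0 n K)) =
      ⋂ i : Fin (n + 1), {z | (b i)⁻¹ • (z i).1 = (b 0)⁻¹ • (z 0).1} := by
    apply Set.Subset.antisymm
    · rintro _ ⟨u, rfl⟩
      rw [Set.mem_iInter]
      intro i
      show (b i)⁻¹ • ev n K (b i • Finsupp.mapDomain (Sum.inl : ℕ → JJ n II) u) =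
        (b 0)⁻¹ • ev n K (b 0 • Finsupp.mapDomain (Sum.inl : ℕ → JJ n II) u)
      rw [map_smul, map_smul, smul_smul, smul_smul, inv_mul_cancel₀ (hb i),
        inv_mul_cancel₀ (hb 0)]
    · intro z hz
      rw [Set.mem_iInter] at hz
      have h2 : ∀ i, ∃ h ∈ GG n K, ev n K h = (z i).1 := fun i => (mem_G0 n K).1 (z i).2
      choose h hh hhz using h2
      set h' := (b 0)⁻¹ • h 0 with hh'
      have h3 : ∀ i, b i • h' = h i := by
        intro i
        apply ev_injective n K
        have h4 : (b i)⁻¹ • (z i).1 = (b 0)⁻¹ • (z 0).1 := hz i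
        rw [hh', map_smul, map_smul, hhz, hhz, ← h4, smul_smul, mul_inv_cancel₀ (hb i), one_smul]
      have h5 : ∀ c : K, c • h' ∈ GG n K := fun c =>
        smul_mem_of_basis n K b h' (fun i => by rw [h3]; exact hh i) c
      have h6 := core n K hK h' h5
      refine ⟨Finsupp.comapDomain Sum.inl h' (Sum.inl_injective.injOn), ?_⟩
      have h7 : Finsupp.mapDomain (Sum.inl : ℕ → JJ n II)
          (Finsupp.comapDomain Sum.inl h' (Sum.inl_injective.injOn)) = h' := by
        apply Finsupp.mapDomain_comapDomain _ Sum.inl_injective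
        intro j hj
        rcases j with k | ⟨α, l⟩
        · exact ⟨k, rfl⟩
        · exact absurd (h6 α l) (by simpa using hj)
      funext i
      apply Subtype.ext
      show ev n K (b i • Finsupp.mapDomain (Sum.inl : ℕ → JJ n II) _) = _
      rw [h7, h3, hhz]
  have hc : ∀ i, Continuous fun z : Fin (n + 1) → G0 n K => (b i)⁻¹ • (z i).1 := by
    intro i
    apply continuous_pi
    intro Φ
    have h2 : Continuous fun z : Fin (n + 1) → G0 n K => (z i).1 Φ :=
      (continuous_apply Φ).comp (continuous_subtype_val.comp (continuous_apply i))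
    exact (continuous_of_discreteTopology (f := fun y : K => (b i)⁻¹ • y)).comp h2
  rw [h1]
  apply isClosed_iInter
  intro i
  exact isClosed_eq (hc i) (hc 0)

theorem not_countablyCompact_power (hK : Module.finrank (ZMod 2) K = n + 1) :
    ¬ CountablyCompactSpace (Fin (n + 1) → G0 n K) := by
  intro hcc
  let b := Module.finBasisOfFinrankEq (ZMod 2) K hK
  have hb : ∀ i, b i ≠ 0 := fun i => b.ne_zero i
  have h1 := delta_range_closed n K hK b hb
  have h2 : IsCountablyCompact ((delta n K b).range : Set (Fin (n + 1) → G0 n K)) :=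
    h1.isCountablyCompact
  have h3 : CountablyCompactSpace (delta n K b).range :=
    isCountablyCompact_iff_countablyCompactSpace.1 h2
  have h4 : Countable (delta n K b).range := by
    have : Countable (ℕ →₀ K) := inferInstance
    exact (delta n K b).rangeRestrict_surjective.countable
  have h5 : CompactSpace (delta n K b).range := LindelofSpace.compactSpace
  have h6 := finite_of_countable_compact (delta n K b).range
  have h7 : Finite (ℕ →₀ K) := by
    apply Finite.of_injective (fun u => (⟨delta n K b u, ⟨u, rfl⟩⟩ : (delta n K b).range))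
    intro u v huv
    exact delta_injective n K b hb (congrArg Subtype.val huv)
  have h8 : Infinite (ℕ →₀ K) := inferInstance
  exact not_finite (ℕ →₀ K)

end

/-- A continuous image of a countably compact space is countably compact. -/
lemma cc_of_surjective {X Y : Type*} [TopologicalSpace X] [TopologicalSpace Y]
    (hX : CountablyCompactSpace X) (f : X → Y) (hf : Continuous f) (hs : Function.Surjective f) :
    CountablyCompactSpace Y := by
  constructor
  rw [← hs.range_eq, ← Set.image_univ]
  exact hX.isCountablyCompact_univ.image hf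

/-- **Main theorem.** For every `n ≥ 1` there is (in ZFC) a Tikhonov topological group `G`, abelian
and of exponent two, without non-trivial convergent sequences, whose power `G ^ m` is countably
compact exactly when `m ≤ n`. In particular `G` itself is countably compact, and for `n = 1` the
square `G × G` is not countably compact. -/
theorem main (n : ℕ) (hn : 1 ≤ n) :
    ∃ (G : Type) (_ : CommGroup G) (_ : TopologicalSpace G),
      IsTopologicalGroup G ∧ T35Space G ∧ (∀ g : G, g * g = 1) ∧
      (∀ (u : ℕ → G) (z : G), Tendsto u atTop (𝓝 z) → ∀ᶠ k in atTop, u k = z) ∧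
      CountablyCompactSpace G ∧ (CountablyCompactSpace (G × G) ↔ 2 ≤ n) ∧
      ∀ m : ℕ, CountablyCompactSpace (Fin m → G) ↔ m ≤ n := by
  let K := GaloisField 2 (n + 1)
  let _ : TopologicalSpace K := ⊥
  have _ : DiscreteTopology K := ⟨rfl⟩
  have hK : Module.finrank (ZMod 2) K = n + 1 := GaloisField.finrank 2 (by omega)
  have hpow : ∀ m : ℕ, CountablyCompactSpace (Fin m → Multiplicative (G0 n K)) ↔ m ≤ n := by
    intro m
    constructor
    · intro h
      by_contra hm
      push Not at hm
      apply not_countablyCompact_power n K hK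
      exact cc_of_surjective h (fun z i => z (Fin.castLE hm i))
        (continuous_pi fun i => continuous_apply _)
        (Function.Injective.surjective_comp_right (Fin.castLE_injective hm))
    · intro hm
      have h : CountablyCompactSpace (Fin n → Multiplicative (G0 n K)) :=
        countablyCompact_power n K
      exact cc_of_surjective h (fun z i => z (Fin.castLE hm i))
        (continuous_pi fun i => continuous_apply _)
        (Function.Injective.surjective_comp_right (Fin.castLE_injective hm))
  refine ⟨Multiplicative (G0 n K), inferInstance, inferInstance, inferInstance, ?_, ?_, ?_, ?_,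
    ?_, hpow⟩
  · exact (inferInstance : T35Space (G0 n K))
  · intro g
    apply Subtype.ext
    funext Φ
    exact CharTwo.add_self_eq_zero _
  · exact no_convergent n K hn
  · exact cc_of_surjective ((hpow 1).2 hn) (fun z => z 0) (continuous_apply 0)
      (fun g => ⟨fun _ => g, rfl⟩)
  · rw [← hpow 2]
    constructor
    · intro h
      exact cc_of_surjective h Homeomorph.finTwoArrow.symm Homeomorph.finTwoArrow.symm.continuous
        Homeomorph.finTwoArrow.symm.surjective
    · intro h
      exact cc_of_surjective h Homeomorph.finTwoArrow Homeomorph.finTwoArrow.continuous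
        Homeomorph.finTwoArrow.surjective

end Pool.Agent.helper75.CCPowers
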